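import Pool.Agent.U180.CG.Lim2

/-!
# Limits: comparison of the gas with the best codes
-/

set_option autoImplicit false
set_option linter.unusedSectionVars false

namespace Pool.Agent.U180.CG

open Finset Filter Topology
open Pool.Agent.U180.BC Pool.Agent.Y570.LS

lemma rt_bddAbove (δ : ℝ) : IsBoundedUnder (· ≤ ·) atTop (rt δ) :=
  isBoundedUnder_of ⟨1, fun n => (rt_bd δ n).2⟩

lemma rt_bddBelow (δ : ℝ) : IsBoundedUnder (· ≥ ·) atTop (rt δ) :=
  isBoundedUnder_of ⟨0, fun n => (rt_bd δ n).1⟩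

lemma gr_bddAbove {δ : ℝ} (h0 : 0 < δ) (x : ℝ) : IsBoundedUnder (· ≤ ·) atTop (gr δ x) := by
  refine ⟨2, ?_⟩
  rw [eventually_map]
  filter_upwards [eventually_ge_atTop 1] with n hn
  have h1 := gr_le h0 x hn
  have h2 := (rt_bd δ n).2
  have h3 : (1 : ℝ) / n ≤ 1 := by
    have hn' : (1 : ℝ) ≤ n := by exact_mod_cast hn
    rw [div_le_one (by linarith)]
    exact hn'
  linarith

lemma gr_bddBelow {δ : ℝ} (h0 : 0 < δ) (h1 : δ < 1 / 2) {x : ℝ} (hx : 0 ≤ x) :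
    IsBoundedUnder (· ≥ ·) atTop (gr δ x) := by
  refine ⟨1 - H δ - 1, ?_⟩
  rw [eventually_map]
  filter_upwards [gr_ge h0 h1 one_pos] with n hn
  exact hn x hx

lemma small_inv {ε : ℝ} (hε : 0 < ε) : ∀ᶠ n : ℕ in atTop, (1 : ℝ) / n ≤ ε := by
  filter_upwards [eventually_ge_atTop 1, eventually_ge_atTop ⌈1 / ε⌉₊] with n hn hn2
  have hn' : (0 : ℝ) < n := by exact_mod_cast hn
  have h3 : 1 / ε ≤ n := (Nat.le_ceil _).trans (by exact_mod_cast hn2)
  rw [div_le_iff₀ hε] at h3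
  rw [div_le_iff₀ hn']
  linarith

theorem limsup_gr_le {δ : ℝ} (h0 : 0 < δ) (h1 : δ < 1 / 2) {x : ℝ} (hx : 0 ≤ x) :
    limsup (gr δ x) atTop ≤ limsup (rt δ) atTop := by
  refine le_of_forall_pos_le_add fun ε hε => ?_
  refine limsup_le_of_le (gr_bddBelow h0 h1 hx).isCoboundedUnder_le ?_
  have h2 : limsup (rt δ) atTop < limsup (rt δ) atTop + ε / 2 := by linarith
  filter_upwards [eventually_lt_of_limsup_lt h2 (rt_bddAbove δ), small_inv (half_pos hε),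
    eventually_ge_atTop 1] with n k1 k2 k3
  have := gr_le h0 x k3
  linarith

theorem liminf_gr_le {δ : ℝ} (h0 : 0 < δ) (h1 : δ < 1 / 2) {x : ℝ} (hx : 0 ≤ x) :
    liminf (gr δ x) atTop ≤ liminf (rt δ) atTop := by
  refine le_of_forall_pos_le_add fun ε hε => ?_
  have h2 : liminf (rt δ) atTop < liminf (rt δ) atTop + ε / 2 := by linarith
  refine liminf_le_of_frequently_le ?_ (gr_bddBelow h0 h1 hx)
  refine ((frequently_lt_of_liminf_lt (rt_bddAbove δ).isCoboundedUnder_ge h2).and_eventually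
    ((small_inv (half_pos hε)).and (eventually_ge_atTop 1))).mono ?_
  rintro n ⟨k1, k2, k3⟩
  have := gr_le h0 x k3
  linarith

/-- polynomial terms are small -/
lemma log_small {γ : ℝ} (hγ : 0 < γ) :
    ∀ᶠ n : ℕ in atTop, 2 + Real.logb 2 (n + 2) ≤ γ * n := by
  have hlog : 0 < Real.log 2 := Real.log_pos (by norm_num)
  filter_upwards [poly_small (ε := γ * Real.log 2 / 2) (by positivity),
    eventually_ge_atTop ⌈6 / γ⌉₊, eventually_ge_atTop 1] with n h1 h2 h3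
  have hn' : (1 : ℝ) ≤ n := by exact_mod_cast h3
  have h4 : 6 / γ ≤ n := (Nat.le_ceil _).trans (by exact_mod_cast h2)
  rw [div_le_iff₀ hγ] at h4
  have h5 : (n : ℝ) + 2 ≤ 2 * Real.exp (γ * Real.log 2 / 2 * n) := by linarith
  have h6 : Real.logb 2 (n + 2) ≤ 1 + γ / 2 * n := by
    have h7 := Real.log_le_log (by positivity) h5
    rw [Real.log_mul (by norm_num) (Real.exp_pos _).ne', Real.log_exp] at h7
    unfold Real.logb
    rw [div_le_iff₀ hlog]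
    refine h7.trans (le_of_eq ?_)
    ring
  linarith

/-- parameters of the comparison -/
lemma core {δ : ℝ} (h0 : 0 < δ) (h1 : δ < 1 / 2) {γ : ℝ} (hγ : 0 < γ) :
    ∃ x μ : ℝ, 0 < x ∧ x < H δ ∧ 0 < μ ∧ μ ≤ 1 / 4 ∧ ∀ a : ℝ, 0 ≤ a → ∀ᶠ n : ℕ in atTop, ∀ m : ℕ,
      μ * n ≤ m → (m : ℝ) ≤ 2 * μ * n + 1 → a < rt δ (n + m) → a - γ ≤ gr δ x n := by
  have hlog : 0 < Real.log 2 := Real.log_pos (by norm_num)
  obtain ⟨μ, hμ⟩ : ∃ μ, μ = min (1 / 4) (γ / 4) := ⟨_, rfl⟩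
  have hμ0 : 0 < μ := by
    rw [hμ]
    exact lt_min (by norm_num) (by positivity)
  have hμ1 : μ ≤ 1 / 4 := hμ ▸ min_le_left _ _
  have hμ2 : μ ≤ γ / 4 := hμ ▸ min_le_right _ _
  obtain ⟨ρ, hρ⟩ : ∃ ρ, ρ = δ * μ / 3 := ⟨_, rfl⟩
  have hρ0 : 0 < ρ := by
    rw [hρ]
    positivity
  have hρδ : ρ < δ := by
    rw [hρ]
    nlinarith
  have hhρ : 0 < h ρ := Real.binEntropy_pos hρ0 (by linarith)
  have hhρδ : h ρ < h δ := by
    refine Real.binEntropy_strictMonoOn ⟨hρ0.le, by norm_num; linarith⟩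
      ⟨h0.le, by norm_num; linarith⟩ hρδ
  refine ⟨(h δ - h ρ / 2) / Real.log 2, μ, div_pos (by linarith) hlog, ?_, hμ0, hμ1, ?_⟩
  · rw [H_eq]
    exact div_lt_div_of_pos_right (by linarith) hlog
  intro a ha
  filter_upwards [code_le_gas h0 h1 hρ0 (by linarith), eventually_ge_atTop ⌈1 / ρ⌉₊,
    log_small (half_pos hγ), eventually_ge_atTop 1] with n k1 k2 k3 k4 m hm1 hm2 hrt
  have hn' : (0 : ℝ) < n := by exact_mod_cast k4
  have h4 : 1 / ρ ≤ n := (Nat.le_ceil _).trans (by exact_mod_cast k2)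
  rw [div_le_iff₀ hρ0] at h4
  have h5 : 1 + 2 * ρ * n ≤ δ * m := by
    have h6 : δ * (μ * n) ≤ δ * m := mul_le_mul_of_nonneg_left hm1 h0.le
    have h7 : δ * (μ * n) = 3 * ρ * n := by
      rw [hρ]
      ring
    linarith
  have h6 := k1 m h5
  obtain ⟨g, hg⟩ : ∃ g, g = mn n (tt δ n)
    ((2 : ℝ) ^ ((h δ - h ρ / 2) / Real.log 2 * n) / ball n (tt δ n)) := ⟨_, rfl⟩
  have hg0 : 0 < g := hg ▸ mn_pos (act_pos δ _ n)
  rw [← hg] at h6
  have hnm : (0 : ℝ) < ((n + m : ℕ) : ℝ) := by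
    push_cast
    positivity
  have hA : (0 : ℝ) < A (n + m) ⌈δ * ((n + m : ℕ) : ℝ)⌉₊ := by exact_mod_cast A_pos _ _
  unfold rt at hrt
  rw [lt_div_iff₀ hnm] at hrt
  have h7 := Real.logb_le_logb_of_le (b := 2) (by norm_num) hA h6
  rw [Real.logb_mul (by positivity) (by positivity), Real.logb_mul (by positivity) hg0.ne',
    Real.logb_mul (by norm_num) (by positivity), Real.logb_pow,
    Real.logb_self_eq_one (by norm_num)] at h7
  unfold gr
  rw [← hg, le_div_iff₀ hn']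
  push_cast at hrt h7
  have h8 : 0 ≤ a * m := mul_nonneg ha (Nat.cast_nonneg m)
  have h9 : 2 * μ * n ≤ γ / 2 * n := mul_le_mul_of_nonneg_right (by linarith) hn'.le
  nlinarith

theorem exists_x {δ : ℝ} (h0 : 0 < δ) (h1 : δ < 1 / 2) (h : 1 - H δ < limsup (rt δ) atTop) :
    ∃ x : ℝ, 0 < x ∧ x < H δ ∧ 1 - H δ < limsup (gr δ x) atTop := by
  have hlog : 0 < Real.log 2 := Real.log_pos (by norm_num)
  have hH : H δ ≤ 1 := by
    rw [H_eq, div_le_one hlog]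
    exact Real.binEntropy_le_log_two
  obtain ⟨a, ha1, ha2⟩ := exists_between h
  have hf : ∃ᶠ n in atTop, a < rt δ n :=
    frequently_lt_of_lt_limsup (rt_bddBelow δ).isCoboundedUnder_le ha2
  obtain ⟨x, μ, hx0, hx1, hμ0, hμ1, hc⟩ := core h0 h1 (γ := (a - (1 - H δ)) / 2) (by linarith)
  refine ⟨x, hx0, hx1, ?_⟩
  have hev := hc a (by linarith)
  have hq : Tendsto (fun n : ℕ => n - ⌈μ * n⌉₊) atTop atTop := by
    rw [tendsto_atTop]
    intro b
    filter_upwards [eventually_ge_atTop (2 * b + 4)] with n hn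
    have h3 := Nat.ceil_lt_add_one (a := μ * n) (by positivity)
    have h4 : (⌈μ * n⌉₊ : ℝ) ≤ n / 4 + 1 := by
      have : μ * n ≤ 1 / 4 * n := mul_le_mul_of_nonneg_right hμ1 (Nat.cast_nonneg n)
      linarith
    have h5 : 4 * ⌈μ * n⌉₊ ≤ n + 4 := by
      have : (4 : ℝ) * ⌈μ * n⌉₊ ≤ n + 4 := by linarith
      exact_mod_cast this
    omega
  have h2 : ∃ᶠ n : ℕ in atTop, a - (a - (1 - H δ)) / 2 ≤ gr δ x (n - ⌈μ * n⌉₊) := by
    refine (hf.and_eventually ((hq.eventually hev).and (eventually_ge_atTop 4))).mono ?_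
    rintro n ⟨k1, k2, k3⟩
    have hn' : (4 : ℝ) ≤ n := by exact_mod_cast k3
    have h3 := Nat.ceil_lt_add_one (a := μ * n) (by positivity)
    have h3' := Nat.le_ceil (μ * n)
    have h4 : (⌈μ * n⌉₊ : ℝ) ≤ n / 4 + 1 := by
      have : μ * n ≤ 1 / 4 * n := mul_le_mul_of_nonneg_right hμ1 (Nat.cast_nonneg n)
      linarith
    have h5 : ⌈μ * n⌉₊ ≤ n := by
      have : (⌈μ * n⌉₊ : ℝ) ≤ n := by linarith
      exact_mod_cast this
    have h6 : ((n - ⌈μ * n⌉₊ : ℕ) : ℝ) = n - ⌈μ * n⌉₊ := Nat.cast_sub h5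
    refine k2 ⌈μ * n⌉₊ ?_ ?_ ?_
    · rw [h6]
      have : μ * (n - ⌈μ * n⌉₊) ≤ μ * n := by
        refine mul_le_mul_of_nonneg_left ?_ hμ0.le
        have : (0 : ℝ) ≤ ⌈μ * n⌉₊ := Nat.cast_nonneg _
        linarith
      linarith
    · rw [h6]
      nlinarith
    · rw [Nat.sub_add_cancel h5]
      exact k1
  have h3 : ∃ᶠ n in atTop, a - (a - (1 - H δ)) / 2 ≤ gr δ x n := hq.frequently h2
  have h4 := le_limsup_of_frequently_le h3 (gr_bddAbove h0 x)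
  linarith

theorem exists_x' {δ : ℝ} (h0 : 0 < δ) (h1 : δ < 1 / 2) (h : 1 - H δ < liminf (rt δ) atTop) :
    ∃ x : ℝ, 0 < x ∧ x < H δ ∧ 1 - H δ < liminf (gr δ x) atTop := by
  have hlog : 0 < Real.log 2 := Real.log_pos (by norm_num)
  have hH : H δ ≤ 1 := by
    rw [H_eq, div_le_one hlog]
    exact Real.binEntropy_le_log_two
  obtain ⟨a, ha1, ha2⟩ := exists_between h
  have hf : ∀ᶠ n in atTop, a < rt δ n :=
    eventually_lt_of_lt_liminf ha2 (rt_bddBelow δ)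
  obtain ⟨x, μ, hx0, hx1, hμ0, hμ1, hc⟩ := core h0 h1 (γ := (a - (1 - H δ)) / 2) (by linarith)
  refine ⟨x, hx0, hx1, ?_⟩
  have hev := hc a (by linarith)
  have h2 : ∀ᶠ n in atTop, a - (a - (1 - H δ)) / 2 ≤ gr δ x n := by
    obtain ⟨n₀, hn₀⟩ := eventually_atTop.1 hf
    filter_upwards [hev, eventually_ge_atTop n₀] with n k1 k2
    refine k1 ⌈μ * n⌉₊ (Nat.le_ceil _) ?_ (hn₀ _ (by omega))
    have h3 := Nat.ceil_lt_add_one (a := μ * n) (by positivity)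
    nlinarith [Nat.cast_nonneg (α := ℝ) n]
  have h4 := le_liminf_of_le (gr_bddAbove h0 x).isCoboundedUnder_ge h2
  linarith

end Pool.Agent.U180.CG
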