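import Pool.Agent.U180.CG.Super

/-!
# Asymptotic estimates
-/

set_option autoImplicit false
set_option linter.unusedSectionVars false

namespace Pool.Agent.U180.CG

open Finset Filter Topology
open Pool.Agent.U180.BC Pool.Agent.Y570.LS

/-- the entropy in nats -/
noncomputable abbrev h (x : ℝ) : ℝ := Real.binEntropy x

/-- the exponent given by the eigenvalues -/
noncomputable def X1 (δ : ℝ) : ℝ := (h δ + h (1 / 2 - √(δ * (1 - δ))) - Real.log 2) / 2

/-- the exponent given by the intersections of balls -/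
noncomputable def X2 (δ : ℝ) : ℝ := h δ - (δ * Real.log 2 + (1 - δ) * h (δ / (2 * (1 - δ))))

/-- the exponent of the range of the equation of state -/
noncomputable def XX (δ : ℝ) : ℝ := min (X1 δ) (X2 δ)

lemma X1_pos {δ : ℝ} (h0 : 0 < δ) (h1 : δ < 1 / 2) : 0 < X1 δ := by
  have := gain_pos h0 h1
  unfold X1
  linarith

lemma X2_pos {δ : ℝ} (h0 : 0 < δ) (h1 : δ < 1 / 2) : 0 < X2 δ := by
  have hc := Real.strictConcave_binEntropy
  have hd : 0 < 1 - δ := by linarith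
  have hx1 : δ / (2 * (1 - δ)) < 1 / 2 := by
    rw [div_lt_div_iff₀ (by linarith) (by norm_num)]
    linarith
  have hx0 : 0 < δ / (2 * (1 - δ)) := by positivity
  have h2 := hc.2 (x := 1 / 2) (y := δ / (2 * (1 - δ))) ⟨by norm_num, by norm_num⟩
    ⟨hx0.le, by linarith⟩ hx1.ne' h0 hd (by ring)
  simp only [smul_eq_mul] at h2
  have e1 : δ * (1 / 2) + (1 - δ) * (δ / (2 * (1 - δ))) = δ := by
    field_simp
    ring
  have e2 : Real.binEntropy (1 / 2) = Real.log 2 := by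
    rw [one_div]
    exact Real.binEntropy_two_inv
  rw [e1, e2] at h2
  unfold X2 h
  linarith

lemma XX_pos {δ : ℝ} (h0 : 0 < δ) (h1 : δ < 1 / 2) : 0 < XX δ := lt_min (X1_pos h0 h1) (X2_pos h0 h1)

lemma X2_le {δ : ℝ} (h0 : 0 < δ) (h1 : δ < 1 / 2) : X2 δ ≤ h δ := by
  unfold X2
  have h2 : 0 ≤ h (δ / (2 * (1 - δ))) := by
    refine Real.binEntropy_nonneg ?_ ?_
    · exact div_nonneg h0.le (by linarith)
    · rw [div_le_one (by linarith)]
      linarith
  have h3 : 0 ≤ (1 - δ) * h (δ / (2 * (1 - δ))) := mul_nonneg (by linarith) h2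
  have h4 : 0 ≤ δ * Real.log 2 := mul_nonneg h0.le (Real.log_nonneg (by norm_num))
  linarith

lemma ball_eq_vol (n t : ℕ) : (ball n t : ℝ) = vol n (t + 1) := by
  unfold ball vol
  push_cast
  rfl

/-- polynomial factors -/
lemma poly_small {ε : ℝ} (hε : 0 < ε) : ∀ᶠ n : ℕ in atTop, (n : ℝ) + 1 ≤ Real.exp (ε * n) := by
  have hc : Tendsto (fun n : ℕ => ε * (n : ℝ)) atTop atTop :=
    Tendsto.const_mul_atTop hε tendsto_natCast_atTop_atTop
  have h1 : Tendsto (fun n : ℕ => Real.exp (-(ε * n))) atTop (𝓝 0) := by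
    have := (Real.tendsto_pow_mul_exp_neg_atTop_nhds_zero 0).comp hc
    simpa [Function.comp_def] using this
  have h2 : Tendsto (fun n : ℕ => ε * n * Real.exp (-(ε * n))) atTop (𝓝 0) := by
    have := (Real.tendsto_pow_mul_exp_neg_atTop_nhds_zero 1).comp hc
    simpa [Function.comp_def] using this
  have h4 : Tendsto (fun n : ℕ => ((n : ℝ) + 1) * Real.exp (-(ε * n))) atTop (𝓝 0) := by
    have h5 := (h2.const_mul (1 / ε)).add h1
    simp only [mul_zero, add_zero] at h5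
    refine h5.congr fun n => ?_
    field_simp
  filter_upwards [h4.eventually_le_const zero_lt_one] with n hn
  rw [Real.exp_neg, ← div_eq_mul_inv, div_le_one (Real.exp_pos _)] at hn
  exact hn

/-- `t / n` is close to `δ` -/
lemma ratio_close {δ η : ℝ} {n t : ℕ} (hn : 0 < n) (h : |(t : ℝ) - δ * n| ≤ η * n) :
    |(t : ℝ) / n - δ| ≤ η := by
  have hn' : (0 : ℝ) < n := by exact_mod_cast hn
  have e : (t : ℝ) / n - δ = (t - δ * n) / n := by field_simp
  rw [e, abs_div, abs_of_pos hn', div_le_iff₀ hn']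
  exact h

/-- the volume of the balls -/
lemma vol_asym {δ : ℝ} (h0 : 0 < δ) (h1 : δ < 1 / 2) {ε : ℝ} (hε : 0 < ε) :
    ∃ η : ℝ, 0 < η ∧ ∀ᶠ n : ℕ in atTop, ∀ t : ℕ, |(t : ℝ) - δ * n| ≤ η * n →
      Real.exp ((h δ - ε) * n) ≤ ball n t ∧ (ball n t : ℝ) ≤ Real.exp ((h δ + ε) * n) ∧
        2 * t ≤ n ∧ 1 ≤ t := by
  have hc : ContinuousAt h δ := Real.binEntropy_continuous.continuousAt
  obtain ⟨η₀, hη₀, hc'⟩ := Metric.continuousAt_iff.1 hc (ε / 2) (half_pos hε)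
  obtain ⟨η, hη⟩ : ∃ η, η = min (η₀ / 2) (min (δ / 2) ((1 / 2 - δ) / 2)) := ⟨_, rfl⟩
  have hη0 : 0 < η := by
    rw [hη]
    exact lt_min (by linarith) (lt_min (by linarith) (by linarith))
  have hη1 : η ≤ η₀ / 2 := hη ▸ min_le_left _ _
  have hη2 : η ≤ δ / 2 := hη ▸ (min_le_right _ _).trans (min_le_left _ _)
  have hη3 : η ≤ (1 / 2 - δ) / 2 := hη ▸ (min_le_right _ _).trans (min_le_right _ _)
  refine ⟨η, hη0, ?_⟩
  filter_upwards [poly_small (half_pos hε), eventually_ge_atTop 1] with n hpoly hn t ht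
  have hn' : (0 : ℝ) < n := by exact_mod_cast hn
  have hr := ratio_close hn ht
  obtain ⟨τ, hτ⟩ : ∃ τ, τ = (t : ℝ) / n := ⟨_, rfl⟩
  rw [← hτ] at hr
  have hr' := abs_le.1 hr
  have hτ0 : 0 < τ := by linarith [hr'.1]
  have hτ1 : τ < 1 / 2 := by linarith [hr'.2]
  have hτn : τ * n = t := by
    rw [hτ]
    field_simp
  have ht0 : (0 : ℝ) < t := by
    rw [← hτn]
    positivity
  have ht1 : 1 ≤ t := by exact_mod_cast ht0
  have ht2 : 2 * (t : ℝ) < n := by
    rw [← hτn]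
    nlinarith
  have ht2' : 2 * t < n := by exact_mod_cast ht2
  have hh : |h τ - h δ| < ε / 2 := by
    have := hc' (x := τ) (by
      rw [Real.dist_eq]
      linarith)
    rwa [Real.dist_eq] at this
  have hh' := abs_lt.1 hh
  refine ⟨?_, ?_, ht2'.le, ht1⟩
  · have h2 := choose_ge (n := n) (j := t) ht1 (by omega)
    rw [← hτ] at h2
    have h3 : (n.choose t : ℝ) ≤ ball n t := by
      unfold ball
      exact_mod_cast Finset.single_le_sum (f := fun i => n.choose i) (fun _ _ => Nat.zero_le _)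
        (Finset.mem_range.2 (Nat.lt_succ_self t))
    have h4 : Real.exp (n * h τ) ≤ Real.exp (ε / 2 * n) * ball n t := by
      refine h2.trans ?_
      exact mul_le_mul hpoly h3 (Nat.cast_nonneg _) (Real.exp_pos _).le
    have h5 : Real.exp ((h δ - ε) * n) * Real.exp (ε / 2 * n) ≤ Real.exp (n * h τ) := by
      rw [← Real.exp_add, Real.exp_le_exp]
      nlinarith [hh'.1]
    have h6 := h5.trans h4
    rw [mul_comm] at h6
    exact le_of_mul_le_mul_left h6 (Real.exp_pos _)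
  · rw [ball_eq_vol]
    refine (vol_le (p := τ) hτ0 hτ1.le n (t + 1) (by omega) ?_).trans ?_
    · intro w hw
      rw [mul_comm, hτn]
      exact_mod_cast Nat.lt_succ_iff.1 hw
    · rw [Real.exp_le_exp]
      nlinarith [hh'.2]

/-- the binomial coefficients in the middle -/
lemma mid_asym {δ : ℝ} (h0 : 0 < δ) (h1 : δ < 1 / 2) {ε : ℝ} (hε : 0 < ε) :
    ∃ η : ℝ, 0 < η ∧ ∀ᶠ n : ℕ in atTop, ∀ t : ℕ, |(t : ℝ) - δ * n| ≤ η * n →
      ∀ s : ℕ, 1 ≤ s → s ≤ n → ((n : ℝ) + 1 - 2 * s) ^ 2 < 4 * (t : ℝ) * ((n : ℝ) - t) →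
        Real.exp ((h (1 / 2 - √(δ * (1 - δ))) - ε) * n) ≤ n.choose s := by
  obtain ⟨ρ, hρ⟩ : ∃ ρ, ρ = √(δ * (1 - δ)) := ⟨_, rfl⟩
  have hρ0 : 0 ≤ ρ := hρ ▸ Real.sqrt_nonneg _
  have hδδ : 0 < δ * (1 - δ) := mul_pos h0 (by linarith)
  have hρ2 : ρ ^ 2 = δ * (1 - δ) := by
    rw [hρ, Real.sq_sqrt hδδ.le]
  have hρ1 : ρ < 1 / 2 := by
    have : ρ ^ 2 < (1 / 2) ^ 2 := by
      rw [hρ2]
      nlinarith
    exact lt_of_pow_lt_pow_left₀ 2 (by norm_num) this
  rw [← hρ]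
  have hc : ContinuousAt h (1 / 2 - ρ) := Real.binEntropy_continuous.continuousAt
  obtain ⟨η₀, hη₀, hc'⟩ := Metric.continuousAt_iff.1 hc (ε / 2) (half_pos hε)
  obtain ⟨γ, hγ⟩ : ∃ γ, γ = min (η₀ / 2) ((1 / 2 - ρ) / 2) := ⟨_, rfl⟩
  have hγ0 : 0 < γ := by
    rw [hγ]
    exact lt_min (by linarith) (by linarith)
  have hγ1 : γ ≤ η₀ / 2 := hγ ▸ min_le_left _ _
  have hγ2 : γ ≤ (1 / 2 - ρ) / 2 := hγ ▸ min_le_right _ _
  have hhγ : h (1 / 2 - ρ) - ε / 2 ≤ h (1 / 2 - ρ - γ) := by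
    have := hc' (x := 1 / 2 - ρ - γ) (by
      rw [Real.dist_eq]
      have : (1 / 2 - ρ - γ - (1 / 2 - ρ)) = -γ := by ring
      rw [this, abs_neg, abs_of_pos hγ0]
      linarith)
    rw [Real.dist_eq] at this
    linarith [(abs_lt.1 this).1]
  obtain ⟨η, hη⟩ : ∃ η, η = (γ / 2) ^ 2 / 2 := ⟨_, rfl⟩
  have hη0 : 0 < η := by
    rw [hη]
    positivity
  refine ⟨η, hη0, ?_⟩
  filter_upwards [poly_small (half_pos hε), eventually_ge_atTop 1,
    eventually_ge_atTop ⌈1 / γ⌉₊] with n hpoly hn hnγ t ht s hs1 hsn hs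
  have hn' : (0 : ℝ) < n := by exact_mod_cast hn
  have hnγ' : 1 ≤ γ * n := by
    have h3 : 1 / γ ≤ n := (Nat.le_ceil _).trans (by exact_mod_cast hnγ)
    rw [div_le_iff₀ hγ0] at h3
    linarith
  have hr := ratio_close hn ht
  obtain ⟨τ, hτ⟩ : ∃ τ, τ = (t : ℝ) / n := ⟨_, rfl⟩
  rw [← hτ] at hr
  have hr' := abs_le.1 hr
  have hτn : τ * n = t := by
    rw [hτ]
    field_simp
  have hγ3 : γ < 1 := by linarith
  have h2 : τ * (1 - τ) ≤ (ρ + γ / 2) ^ 2 := by
    have e : τ * (1 - τ) = δ * (1 - δ) + (τ - δ) * (1 - τ - δ) := by ring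
    have h3 : (τ - δ) * (1 - τ - δ) ≤ 2 * η := by
      have hη4 : η ≤ 1 / 8 := by
        rw [hη]
        nlinarith
      have h5 : |1 - τ - δ| ≤ 2 := by
        rw [abs_le]
        constructor <;> linarith [hr'.1, hr'.2]
      calc (τ - δ) * (1 - τ - δ) ≤ |(τ - δ) * (1 - τ - δ)| := le_abs_self _
        _ = |τ - δ| * |1 - τ - δ| := abs_mul _ _
        _ ≤ η * 2 := mul_le_mul hr h5 (abs_nonneg _) hη0.le
        _ = _ := by ring
    rw [e, ← hρ2]
    have : 2 * η = (γ / 2) ^ 2 := by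
      rw [hη]
      ring
    nlinarith [mul_nonneg hρ0 hγ0.le]
  have h3 : ((n : ℝ) + 1 - 2 * s) ^ 2 < (2 * n * (ρ + γ / 2)) ^ 2 := by
    refine hs.trans_le ?_
    have : 4 * (t : ℝ) * ((n : ℝ) - t) = 4 * n ^ 2 * (τ * (1 - τ)) := by
      rw [← hτn]
      ring
    rw [this]
    calc 4 * (n : ℝ) ^ 2 * (τ * (1 - τ)) ≤ 4 * n ^ 2 * (ρ + γ / 2) ^ 2 :=
          mul_le_mul_of_nonneg_left h2 (by positivity)
      _ = _ := by ring
  have h4 := abs_lt.1 (abs_lt_of_sq_lt_sq h3 (by positivity))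
  -- `s / n` is in the range
  have h5 : (1 / 2 - ρ - γ) * n ≤ s := by nlinarith [h4.2]
  have h6 : (s : ℝ) ≤ (1 / 2 + ρ + γ) * n := by nlinarith [h4.1]
  have hsn' : s < n := by
    have : (s : ℝ) < n := by
      refine h6.trans_lt ?_
      nlinarith
    exact_mod_cast this
  have h7 := choose_ge (n := n) (j := s) hs1 hsn'
  have h8 : h (1 / 2 - ρ - γ) ≤ h ((s : ℝ) / n) := by
    have hm := Real.binEntropy_strictMonoOn.monotoneOn
    have h9 : 1 / 2 - ρ - γ ≤ (s : ℝ) / n := by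
      rw [le_div_iff₀ hn']
      exact h5
    have h10 : (s : ℝ) / n ≤ 1 / 2 + ρ + γ := by
      rw [div_le_iff₀ hn']
      exact h6
    rcases le_total ((s : ℝ) / n) (1 / 2) with h11 | h11
    · refine hm ⟨by linarith, by norm_num; linarith⟩ ⟨by linarith, by norm_num; linarith⟩ h9
    · unfold h
      rw [← Real.binEntropy_one_sub ((s : ℝ) / n)]
      refine hm ⟨by linarith, by norm_num; linarith⟩ ⟨by linarith, by norm_num; linarith⟩
        (by linarith)
  have h9 : Real.exp ((h (1 / 2 - ρ) - ε) * n) * Real.exp (ε / 2 * n) ≤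
      Real.exp (n * h ((s : ℝ) / n)) := by
    rw [← Real.exp_add, Real.exp_le_exp]
    nlinarith
  have h10 : Real.exp (n * h ((s : ℝ) / n)) ≤ Real.exp (ε / 2 * n) * n.choose s := by
    refine h7.trans ?_
    exact mul_le_mul_of_nonneg_right hpoly (Nat.cast_nonneg _)
  have h11 := h9.trans h10
  rw [mul_comm] at h11
  exact le_of_mul_le_mul_left h11 (Real.exp_pos _)

end Pool.Agent.U180.CG
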