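import Pool.Agent.U180.CG.State
import Pool.Agent.N424.HG.Canon

/-!
# The number of codes with `k` words
-/

set_option autoImplicit false
set_option linter.unusedSectionVars false

namespace Pool.Agent.U180.CG

open Finset Filter Topology
open Pool.Agent.U180.BC Pool.Agent.Y570.LS

/-- the number of independent sets with `k` elements -/
noncomputable def Nk (n t k : ℕ) : ℕ :=
  ((inds (cl n t) (univ : Finset (Word n))).filter fun I => I.card = k).card

/-- the probability that `k` random words form a code -/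
noncomputable def Pk (n t k : ℕ) : ℝ := k.factorial * Nk n t k / ((2 : ℝ) ^ n) ^ k

lemma Nk_succ (n t k : ℕ) : (k + 1) * Nk n t (k + 1) ≤ 2 ^ n * Nk n t k := by
  classical
  have h1 : (k + 1) * Nk n t (k + 1) =
      (((inds (cl n t) (univ : Finset (Word n))).filter fun I => I.card = k + 1).sigma
        fun I => I).card := by
    rw [card_sigma]
    unfold Nk
    rw [Finset.sum_congr rfl (g := fun _ => k + 1) (fun I hI => (mem_filter.1 hI).2),
      Finset.sum_const, smul_eq_mul, mul_comm]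
  have h2 : 2 ^ n * Nk n t k = ((univ : Finset (Word n)) ×ˢ
      ((inds (cl n t) (univ : Finset (Word n))).filter fun I => I.card = k)).card := by
    rw [card_product, card_univ, Fintype.card_fun, Fintype.card_bool, Fintype.card_fin]
    rfl
  rw [h1, h2]
  refine Finset.card_le_card_of_injOn (fun P => (P.2, P.1.erase P.2)) ?_ ?_
  · rintro ⟨I, u⟩ hP
    rw [mem_coe, mem_sigma, mem_filter, mem_inds] at hP
    obtain ⟨⟨⟨h3, h4⟩, h5⟩, h6⟩ := hP
    rw [mem_coe, mem_product, mem_filter, mem_inds]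
    refine ⟨mem_univ _, ⟨subset_univ _, h4.subset (erase_subset _ _)⟩, ?_⟩
    simp only at h5 h6 ⊢
    rw [card_erase_of_mem h6, h5]
    rfl
  · rintro ⟨I, u⟩ hP ⟨J, v⟩ hQ h
    rw [mem_coe, mem_sigma] at hP hQ
    simp only [Prod.mk.injEq] at h
    obtain ⟨rfl, h⟩ := h
    have e1 := insert_erase hP.2
    have e2 := insert_erase hQ.2
    simp only at e1 e2
    rw [h] at e1
    have : I = J := e1.symm.trans e2
    subst this
    rfl

lemma Pk_anti (n t : ℕ) : Antitone (Pk n t) := by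
  refine antitone_nat_of_succ_le fun k => ?_
  unfold Pk
  have h := Nk_succ n t k
  have h' : ((k : ℝ) + 1) * Nk n t (k + 1) ≤ 2 ^ n * Nk n t k := by exact_mod_cast h
  rw [pow_succ, div_le_div_iff₀ (by positivity) (by positivity), Nat.factorial_succ]
  push_cast
  have h2 : (0 : ℝ) ≤ k.factorial * ((2 : ℝ) ^ n) ^ k := by positivity
  calc ((k : ℝ) + 1) * k.factorial * Nk n t (k + 1) * ((2 : ℝ) ^ n) ^ k =
        (k.factorial * ((2 : ℝ) ^ n) ^ k) * (((k : ℝ) + 1) * Nk n t (k + 1)) := by ring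
    _ ≤ (k.factorial * ((2 : ℝ) ^ n) ^ k) * (2 ^ n * Nk n t k) := mul_le_mul_of_nonneg_left h' h2
    _ = _ := by ring

lemma Pk_zero (n t : ℕ) : Pk n t 0 = 1 := by
  unfold Pk Nk
  have : (inds (cl n t) (univ : Finset (Word n))).filter (fun I => I.card = 0) = {∅} := by
    ext I
    rw [mem_filter, mem_inds, mem_singleton, card_eq_zero]
    constructor
    · exact fun h => h.2
    · rintro rfl
      exact ⟨⟨empty_subset _, fun x hx => by simp at hx⟩, rfl⟩
  rw [this]
  simp

lemma Pk_bd (n t k : ℕ) : 0 ≤ Pk n t k ∧ Pk n t k ≤ 1 := by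
  refine ⟨?_, ?_⟩
  · unfold Pk
    positivity
  · rw [← Pk_zero n t]
    exact Pk_anti n t (Nat.zero_le k)

lemma Nk_big {n t k : ℕ} (hk : 2 ^ n < k) : Nk n t k = 0 := by
  unfold Nk
  rw [card_eq_zero, filter_eq_empty_iff]
  intro I _ h
  have h2 := card_le_univ I
  rw [Fintype.card_fun, Fintype.card_bool, Fintype.card_fin] at h2
  omega

lemma Z_eq_tsum (n t : ℕ) (D x : ℝ) (hD : D = ball n t / 2 ^ n) :
    ∑' k : ℕ, (x / D) ^ k / k.factorial * Pk n t k = Z (cl n t) (x / ball n t) univ := by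
  have hb := ball_pos n t
  have hD0 : 0 < D := by
    rw [hD]
    positivity
  have h1 : ∀ k : ℕ, (x / D) ^ k / k.factorial * Pk n t k = (x / ball n t) ^ k * Nk n t k := by
    intro k
    unfold Pk
    have hf : (k.factorial : ℝ) ≠ 0 := by exact_mod_cast Nat.factorial_ne_zero k
    have e : x / ball n t = x / D / 2 ^ n := by
      rw [hD]
      field_simp
    rw [e, div_pow (x / D)]
    field_simp
  simp only [h1]
  rw [tsum_eq_sum (s := range (2 ^ n + 1))]
  · unfold Z
    have h2 : ∀ k, (x / ball n t) ^ k * (Nk n t k : ℝ) =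
        ∑ I ∈ (inds (cl n t) (univ : Finset (Word n))).filter (fun I => I.card = k),
          (x / ball n t) ^ I.card := by
      intro k
      unfold Nk
      rw [Finset.sum_congr rfl (g := fun _ => (x / ball n t) ^ k)
        (fun I hI => by rw [(mem_filter.1 hI).2]), Finset.sum_const, nsmul_eq_mul, mul_comm]
    simp only [h2]
    refine Finset.sum_fiberwise_of_maps_to ?_ _
    intro I _
    rw [Finset.mem_range]
    have h2 := card_le_univ I
    rw [Fintype.card_fun, Fintype.card_bool, Fintype.card_fin] at h2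
    omega
  · intro k hk
    rw [Finset.mem_range, not_lt] at hk
    rw [Nk_big (by omega)]
    simp

/-- **The number of codes with `k` words.** -/
theorem canonical {δ : ℝ} (h0 : 0 < δ) (h1 : δ < 1 / 2) {ε : ℝ} (hε : 0 < ε) :
    ∃ η : ℝ, 0 < η ∧ ∃ n₀ : ℕ, ∀ n : ℕ, n₀ ≤ n → ∀ t : ℕ, Even t → |(t : ℝ) - δ * n| ≤ η * n →
      ∀ k : ℕ, ε ≤ k * (ball n t / 2 ^ n) → k * (ball n t / 2 ^ n) ≤ (XX δ - ε) * n →
        0 < Pk n t k ∧ |Real.log (Pk n t k) + k ^ 2 * (ball n t / 2 ^ n) / 2| ≤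
          ε * (k ^ 2 * (ball n t / 2 ^ n)) := by
  have hX := XX_pos h0 h1
  have hhl : h δ ≤ 1 := by
    have h3 : h δ ≤ Real.log 2 := Real.binEntropy_le_log_two
    linarith [Real.log_two_lt_d9]
  have hX1 : XX δ ≤ 1 := ((min_le_right _ _).trans (X2_le h0 h1)).trans hhl
  obtain ⟨e3, he3⟩ : ∃ e3, e3 = min ε (ε / 2) := ⟨_, rfl⟩
  have he30 : 0 < e3 := by
    rw [he3]
    exact lt_min hε (by linarith)
  have he31 : e3 ≤ ε / 2 := he3 ▸ min_le_right _ _
  have he32 : e3 ≤ ε := he3 ▸ min_le_left _ _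
  obtain ⟨ε₁, hε₁, D₀, hD₀, hcan⟩ := Pool.Agent.N424.HG.canon e3 he30
  obtain ⟨e4, he4⟩ : ∃ e4, e4 = min ε₁ (ε / 4) := ⟨_, rfl⟩
  have he40 : 0 < e4 := by
    rw [he4]
    exact lt_min hε₁ (by linarith)
  have he41 : e4 ≤ ε₁ := he4 ▸ min_le_left _ _
  have he42 : e4 ≤ ε / 4 := he4 ▸ min_le_right _ _
  obtain ⟨η₁, hη₁, n₁, S1⟩ := state h0 h1 he40
  -- the volume
  have hδl : h δ < Real.log 2 := by
    have h3 := Real.binEntropy_lt_log_two (p := δ)
    have : δ ≠ 2⁻¹ := by
      rw [← one_div]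
      linarith
    exact h3.2 this
  obtain ⟨g, hg⟩ : ∃ g, g = (Real.log 2 - h δ) / 2 := ⟨_, rfl⟩
  have hg0 : 0 < g := by
    rw [hg]
    linarith
  obtain ⟨η₂, hη₂, A1⟩ := vol_asym h0 h1 hg0
  refine ⟨min η₁ η₂, lt_min hη₁ hη₂, ?_⟩
  obtain ⟨n₂, hn₂⟩ := eventually_atTop.1 ((A1.and (exp_small hg0 hD₀)).and
    ((poly_small (ε := ε / 4) (by linarith)).and (eventually_ge_atTop 1)))
  refine ⟨max n₁ n₂, fun n hn t hte ht k hk1 hk2 => ?_⟩
  obtain ⟨⟨B1, B2⟩, B3, B4⟩ := hn₂ n ((le_max_right _ _).trans hn)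
  have hn0 : (0 : ℝ) < n := by exact_mod_cast B4
  obtain ⟨C1, C2, C3, C4⟩ := B1 t (ht.trans (mul_le_mul_of_nonneg_right (min_le_right _ _) hn0.le))
  have hb := ball_pos n t
  obtain ⟨D, hD⟩ : ∃ D, D = (ball n t : ℝ) / 2 ^ n := ⟨_, rfl⟩
  have hD0 : 0 < D := by
    rw [hD]
    positivity
  have hDD : D ≤ D₀ := by
    refine le_trans ?_ B2
    rw [hD, div_le_iff₀ (by positivity)]
    refine C2.trans ?_
    have e2 : (2 : ℝ) ^ n = Real.exp (Real.log 2 * n) := by
      rw [mul_comm, Real.exp_nat_mul, Real.exp_log (by norm_num)]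
    rw [e2, ← Real.exp_add, Real.exp_le_exp, hg]
    nlinarith
  rw [← hD] at hk1 hk2 ⊢
  have hkey := hcan D ((XX δ - ε / 2) * n) hD0 hDD (Pk n t) (Pk_anti n t) (Pk_bd n t) (by
    intro w hw hwX
    rw [Z_eq_tsum n t D _ hD]
    have h3 : w * Real.exp w ≤ Real.exp ((XX δ - e4) * n) := by
      have h4 : w ≤ n + 1 := by
        have : (XX δ - ε / 2) * n ≤ 1 * n := mul_le_mul_of_nonneg_right (by linarith) hn0.le
        linarith
      calc w * Real.exp w ≤ Real.exp (ε / 4 * n) * Real.exp ((XX δ - ε / 2) * n) :=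
            mul_le_mul (h4.trans B3) (Real.exp_le_exp.2 hwX) (Real.exp_pos _).le
              (Real.exp_pos _).le
        _ ≤ Real.exp ((XX δ - e4) * n) := by
            rw [← Real.exp_add, Real.exp_le_exp]
            nlinarith
    obtain ⟨-, h5⟩ := S1 n ((le_max_left _ _).trans hn) t hte
      (ht.trans (mul_le_mul_of_nonneg_right (min_le_left _ _) hn0.le)) w hw h3
    have h6 := abs_le.1 h5
    have e1 : prs n t w = D * Real.log (Z (cl n t) (w * Real.exp w / ball n t) univ) := by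
      unfold prs pr
      rw [hD]
    rw [← e1]
    have h7 : e4 * (w + w ^ 2 / 2) ≤ ε₁ * (w + w ^ 2 / 2) :=
      mul_le_mul_of_nonneg_right he41 (by positivity)
    constructor <;> linarith [h6.1, h6.2]) k (he32.trans hk1) (by
      have h3 : 0 ≤ (k : ℝ) * D := by positivity
      have h4 : (k : ℝ) * D ≤ n := by
        refine hk2.trans ?_
        have : (XX δ - ε) * n ≤ 1 * n := mul_le_mul_of_nonneg_right (by linarith) hn0.le
        linarith
      nlinarith)
  refine ⟨hkey.1, hkey.2.trans ?_⟩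
  exact mul_le_mul_of_nonneg_right he32 (by positivity)

end Pool.Agent.U180.CG
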