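import Pool.Agent.U180.CG.State

/-!
# The gas and the best codes
-/

set_option autoImplicit false
set_option linter.unusedSectionVars false

namespace Pool.Agent.U180.CG

open Finset Filter Topology
open Pool.Agent.U180.BC Pool.Agent.Y570.LS

/-- minimum distance at least `d` -/
def IsCode {n : ℕ} (d : ℕ) (C : Finset (Word n)) : Prop :=
  ∀ x ∈ C, ∀ y ∈ C, x ≠ y → d ≤ hammingDist x y

/-- the largest size of a code -/
noncomputable def A (n d : ℕ) : ℕ := sSup {k | ∃ C : Finset (Word n), IsCode d C ∧ C.card = k}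

lemma A_bdd (n d : ℕ) : BddAbove {k | ∃ C : Finset (Word n), IsCode d C ∧ C.card = k} := by
  refine ⟨2 ^ n, ?_⟩
  rintro k ⟨C, -, rfl⟩
  refine (Finset.card_le_univ C).trans ?_
  simp

lemma card_le_A {n d : ℕ} {C : Finset (Word n)} (h : IsCode d C) : C.card ≤ A n d :=
  le_csSup (A_bdd n d) ⟨C, h, rfl⟩

lemma exists_A (n d : ℕ) : ∃ C : Finset (Word n), IsCode d C ∧ C.card = A n d :=
  Nat.sSup_mem (s := {k | ∃ C : Finset (Word n), IsCode d C ∧ C.card = k})
    ⟨0, ∅, by intro x hx; simp at hx, rfl⟩ (A_bdd n d)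

lemma A_pos (n d : ℕ) : 1 ≤ A n d := by
  have : IsCode d ({fun _ => false} : Finset (Word n)) := by
    intro x hx y hy hxy
    rw [mem_singleton] at hx hy
    exact absurd (hx.trans hy.symm) hxy
  simpa using card_le_A this

lemma A_anti (n : ℕ) {d d' : ℕ} (h : d ≤ d') : A n d' ≤ A n d := by
  obtain ⟨C, hC, hA⟩ := exists_A n d'
  rw [← hA]
  exact card_le_A fun x hx y hy hxy => h.trans (hC x hx y hy hxy)

lemma isCode_iff {n t : ℕ} {C : Finset (Word n)} : IsCode (t + 1) C ↔ Ind (cl n t) C := by
  unfold IsCode Ind cl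
  simp only [not_le, Nat.lt_iff_add_one_le]

/-- shortening -/
lemma A_succ_le (n d : ℕ) : A (n + 1) d ≤ 2 * A n d := by
  classical
  obtain ⟨C, hC, hA⟩ := exists_A (n + 1) d
  have key : ∀ b : Bool, (C.filter fun x => x 0 = b).card ≤ A n d := by
    intro b
    have hinj : Set.InjOn (fun x : Word (n + 1) => (Fin.tail x : Word n))
        (C.filter fun x => x 0 = b) := by
      intro x hx y hy hxy
      rw [mem_coe, mem_filter] at hx hy
      funext i
      refine Fin.cases ?_ (fun j => ?_) i
      · rw [hx.2, hy.2]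
      · exact congrFun hxy j
    rw [← card_image_of_injOn hinj]
    refine card_le_A ?_
    intro x hx y hy hxy
    rw [mem_image] at hx hy
    obtain ⟨x', hx', rfl⟩ := hx
    obtain ⟨y', hy', rfl⟩ := hy
    rw [mem_filter] at hx' hy'
    have h1 := hC x' hx'.1 y' hy'.1 (fun h => hxy (by rw [h]))
    refine h1.trans (le_of_eq ?_)
    unfold hammingDist
    rw [Finset.card_filter, Finset.card_filter, Fin.sum_univ_succ, hx'.2, hy'.2]
    simp only [ne_eq, not_true_eq_false, if_false, zero_add]
    rfl
  rw [← hA, ← Finset.card_filter_add_card_filter_not (s := C) (fun x => x 0 = true)]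
  have h1 := key true
  have h2 := key false
  have h3 : (C.filter fun x => ¬ x 0 = true) = C.filter fun x => x 0 = false := by
    ext x
    simp
  rw [h3]
  omega

lemma A_add_le (n m d : ℕ) : A (n + m) d ≤ 2 ^ m * A n d := by
  induction m with
  | zero => simp
  | succ m ih =>
    calc A (n + (m + 1)) d ≤ 2 * A (n + m) d := A_succ_le (n + m) d
      _ ≤ 2 * (2 ^ m * A n d) := Nat.mul_le_mul_left 2 ih
      _ = 2 ^ (m + 1) * A n d := by ring

lemma wt_add {n : ℕ} (x y : Word n) :
    hammingDist x y + 2 * (univ.filter fun i => x i = true ∧ y i = true).card = wt x + wt y := by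
  rw [← wt_tr]
  unfold wt tr
  rw [Finset.card_filter, Finset.card_filter, Finset.card_filter, Finset.card_filter,
    Finset.mul_sum, ← Finset.sum_add_distrib, ← Finset.sum_add_distrib]
  refine Finset.sum_congr rfl fun i _ => ?_
  cases x i <;> cases y i <;> simp

/-- odd and even minimum distances -/
lemma A_odd_le (n k : ℕ) : A n (2 * k + 1) ≤ 2 * A n (2 * k + 2) := by
  classical
  obtain ⟨C, hC, hA⟩ := exists_A n (2 * k + 1)
  have key : ∀ r : ℕ, (C.filter fun x => wt x % 2 = r).card ≤ A n (2 * k + 2) := by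
    intro r
    refine card_le_A ?_
    intro x hx y hy hxy
    rw [mem_filter] at hx hy
    have h1 := hC x hx.1 y hy.1 hxy
    have h2 := wt_add x y
    omega
  rw [← hA, ← Finset.card_filter_add_card_filter_not (s := C) (fun x => wt x % 2 = 0)]
  have h1 := key 0
  have h2 := key 1
  have h3 : (C.filter fun x => ¬ wt x % 2 = 0) = C.filter fun x => wt x % 2 = 1 := by
    ext x
    simp only [mem_filter]
    constructor
    · exact fun h => ⟨h.1, by omega⟩
    · exact fun h => ⟨h.1, by omega⟩
  rw [h3]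
  omega

section
variable {α : Type} [DecidableEq α] {c : α → α → Prop}

lemma Z_union_far (hr : ∀ x, c x x) (hs : ∀ x y, c x y → c y x) (l : ℝ) {A B : Finset α}
    (h : ∀ a ∈ A, ∀ b ∈ B, ¬ c a b) : Z c l (A ∪ B) = Z c l A * Z c l B := by
  have hd : Disjoint A B := by
    rw [Finset.disjoint_left]
    exact fun x hx hx' => h x hx x hx' (hr x)
  rw [Z_split hs hd]
  have h1 : ∀ D ∈ inds c A, l ^ D.card * Z c l (TT c B D) = l ^ D.card * Z c l B := by
    intro D hD
    rw [mem_inds] at hD
    have : TT c B D = B := by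
      ext x
      rw [mem_TT]
      exact ⟨fun h => h.1, fun hx => ⟨hx, fun v hv => h v (hD.1 hv) x hx⟩⟩
    rw [this]
  rw [Finset.sum_congr rfl h1, ← Finset.sum_mul]
  rfl

lemma Z_ge_linear (hr : ∀ x, c x x) (hs : ∀ x y, c x y → c y x) {l : ℝ} (hl : 0 ≤ l)
    (B : Finset α) : 1 + l * B.card ≤ Z c l B := by
  classical
  induction B using Finset.induction_on with
  | empty => simp [Z_empty]
  | insert a B ha ih =>
    rw [Z_rec hr hs l (mem_insert_self a B), erase_insert ha, card_insert_of_notMem ha]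
    have := Z_pos (c := c) hl (rem c (insert a B) a)
    push_cast
    nlinarith

lemma M_le {l : ℝ} (hl : 0 ≤ l) (K : Finset α) (m : ℕ) (h : ∀ I ∈ inds c K, I.card ≤ m) :
    M c l K ≤ m * Z c l K := by
  unfold M Z
  rw [Finset.mul_sum]
  refine Finset.sum_le_sum fun I hI => ?_
  exact mul_le_mul_of_nonneg_right (by exact_mod_cast h I hI) (pow_nonneg hl _)

end

/-- the gas of codes contains the perturbations of the best codes with a larger distance -/
lemma Z_ge_code {n t r : ℕ} {l : ℝ} (hl : 0 ≤ l) :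
    (1 + l * ball n r) ^ A n (t + 1 + 2 * r) ≤ Z (cl n t) l univ := by
  classical
  obtain ⟨C, hC, hA⟩ := exists_A n (t + 1 + 2 * r)
  rw [← hA]
  have key : ∀ C' : Finset (Word n), C' ⊆ C → (1 + l * ball n r) ^ C'.card ≤
      Z (cl n t) l (C'.biUnion fun x => univ.filter fun y => hammingDist y x ≤ r) := by
    intro C'
    induction C' using Finset.induction_on with
    | empty =>
      intro _
      simp [Z_empty]
    | insert a C' ha ih =>
      intro hsub
      rw [card_insert_of_notMem ha, biUnion_insert, union_comm, Z_union_far (cl_refl n t)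
        (cl_symm n t), pow_succ]
      · refine mul_le_mul (ih ((subset_insert _ _).trans hsub)) ?_ (by positivity)
          (zero_le_one.trans (Z_pos hl _))
        have h1 := Z_ge_linear (cl_refl n t) (cl_symm n t) hl
          (univ.filter fun y : Word n => hammingDist y a ≤ r)
        rw [card_ball] at h1
        exact h1
      · intro x hx y hy
        rw [mem_biUnion] at hx
        obtain ⟨b, hb, hx⟩ := hx
        rw [mem_filter] at hx hy
        unfold cl
        have h1 := hC b (hsub (mem_insert_of_mem hb)) a (hsub (mem_insert_self _ _))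
          (fun h => ha (h ▸ hb))
        have h2 := hammingDist_triangle b x a
        have h3 := hammingDist_triangle x y a
        have h4 := hammingDist_comm b x
        omega
  exact (key C subset_rfl).trans (Z_mono hl (subset_univ _))

/-- the mean size -/
noncomputable def mn (n t : ℕ) (l : ℝ) : ℝ := M (cl n t) l univ / Z (cl n t) l univ

lemma mn_le {n t : ℕ} {l : ℝ} (hl : 0 ≤ l) : mn n t l ≤ A n (t + 1) := by
  unfold mn
  rw [div_le_iff₀ (zero_lt_one.trans_le (Z_pos hl univ))]
  refine M_le hl univ _ fun I hI => ?_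
  rw [mem_inds] at hI
  exact card_le_A (isCode_iff.2 hI.2)

lemma mn_ge_code {n t r : ℕ} {l : ℝ} (hl : 0 < l) (hl1 : l ≤ 1) (hlr : 1 ≤ l * ball n r) :
    (A n (t + 1 + 2 * r) : ℝ) ≤ 2 * (n + 2) * mn n t l := by
  have hlog := Real.log_two_gt_d9
  obtain ⟨a, ha⟩ : ∃ a : ℝ, a = A n (t + 1 + 2 * r) := ⟨_, rfl⟩
  have ha1 : 1 ≤ a := by
    rw [ha]
    exact_mod_cast A_pos _ _
  have hn2 : (0 : ℝ) < 2 ^ n := by positivity
  obtain ⟨l0, hl0⟩ : ∃ l0, l0 = min l (a / (4 * 2 ^ n)) := ⟨_, rfl⟩
  have hl00 : 0 < l0 := by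
    rw [hl0]
    exact lt_min hl (by positivity)
  have hl01 : l0 ≤ l := hl0 ▸ min_le_left _ _
  have hl02 : l0 ≤ a / (4 * 2 ^ n) := hl0 ▸ min_le_right _ _
  -- upper bound for `log Z (l0)`
  have h1 : Real.log (Z (cl n t) l0 univ) ≤ a / 4 := by
    rw [Real.log_le_iff_le_exp (zero_lt_one.trans_le (Z_pos hl00.le univ))]
    refine (Z_le_exp_card hl00.le univ).trans ?_
    rw [Real.exp_le_exp, card_word]
    calc l0 * 2 ^ n ≤ a / (4 * 2 ^ n) * 2 ^ n := mul_le_mul_of_nonneg_right hl02 hn2.le
      _ = a / 4 := by field_simp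
  -- lower bound for `log Z (l)`
  have h2 : a * Real.log 2 ≤ Real.log (Z (cl n t) l univ) := by
    have h3 := Z_ge_code (n := n) (t := t) (r := r) hl.le
    have h4 : (2 : ℝ) ^ A n (t + 1 + 2 * r) ≤ Z (cl n t) l univ := by
      refine le_trans ?_ h3
      exact pow_le_pow_left₀ (by norm_num) (by linarith) _
    rw [ha, ← Real.log_pow]
    exact Real.log_le_log (by positivity) h4
  -- convexity
  have h3 := jensen (c := cl n t) hl (-(Real.log (l / l0))) (univ : Finset (Word n))
  have e1 : l * Real.exp (-(Real.log (l / l0))) = l0 := by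
    rw [Real.exp_neg, Real.exp_log (by positivity)]
    field_simp
  rw [e1] at h3
  have hmn : mn n t l = M (cl n t) l univ / Z (cl n t) l univ := rfl
  rw [← hmn] at h3
  have hmn0 : 0 ≤ mn n t l := by
    unfold mn
    have h4 := Z_pos (c := cl n t) hl.le univ
    have h5 : 0 ≤ M (cl n t) l univ := by
      unfold M
      exact Finset.sum_nonneg fun _ _ => by positivity
    positivity
  have h4 : Real.log (l / l0) ≤ (n + 2) * Real.log 2 := by
    have h5 : l / l0 ≤ 4 * 2 ^ n := by
      rw [div_le_iff₀ hl00, hl0]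
      rcases le_total l (a / (4 * 2 ^ n)) with h | h
      · rw [min_eq_left h]
        have : (1 : ℝ) ≤ 4 * 2 ^ n := by
          have := one_le_pow₀ (M₀ := ℝ) (a := 2) (n := n) (by norm_num)
          linarith
        nlinarith
      · rw [min_eq_right h]
        have : 4 * (2 : ℝ) ^ n * (a / (4 * 2 ^ n)) = a := by field_simp
        rw [this]
        linarith
    have h6 : (4 : ℝ) * 2 ^ n = 2 ^ (n + 2) := by
      rw [pow_add]
      ring
    rw [h6] at h5
    have h7 := Real.log_le_log (by positivity) h5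
    rw [Real.log_pow] at h7
    push_cast at h7
    exact h7
  have h5 : a * (Real.log 2 - 1 / 4) ≤ (n + 2) * Real.log 2 * mn n t l := by
    have h6 : a * Real.log 2 - a / 4 ≤ Real.log (l / l0) * mn n t l := by linarith
    have h7 := mul_le_mul_of_nonneg_right h4 hmn0
    linarith
  have h6 : a * (Real.log 2 / 2) ≤ a * (Real.log 2 - 1 / 4) := by
    refine mul_le_mul_of_nonneg_left ?_ (by linarith)
    linarith
  have h7 : Real.log 2 / 2 * a ≤ Real.log 2 / 2 * (2 * (n + 2) * mn n t l) := by linarith
  rw [← ha]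
  exact le_of_mul_le_mul_left h7 (by positivity)

end Pool.Agent.U180.CG
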