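import Mathlib

/-!
# The hard-core gas on a finite set with a symmetric reflexive relation `c` (close)
-/

set_option autoImplicit false
set_option linter.unusedSectionVars false

namespace Pool.Agent.U180.CG

open Finset

variable {α : Type} [DecidableEq α] (c : α → α → Prop)

/-- the different elements of `I` are not close -/
def Ind (I : Finset α) : Prop := ∀ x ∈ I, ∀ y ∈ I, x ≠ y → ¬ c x y

open Classical in
/-- the independent subsets of `K` -/
noncomputable def inds (K : Finset α) : Finset (Finset α) := K.powerset.filter (Ind c)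

/-- the partition function -/
noncomputable def Z (l : ℝ) (K : Finset α) : ℝ := ∑ I ∈ inds c K, l ^ I.card

/-- the unnormalised mean -/
noncomputable def M (l : ℝ) (K : Finset α) : ℝ := ∑ I ∈ inds c K, I.card * l ^ I.card

open Classical in
/-- the elements of `K` which are not close to `u` -/
noncomputable def rem (K : Finset α) (u : α) : Finset α := K.filter fun x => ¬ c u x

open Classical in
/-- the elements of `K` which are close to `u` -/
noncomputable def nb (K : Finset α) (u : α) : Finset α := K.filter fun x => c u x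

variable {c}

lemma mem_inds {K I : Finset α} : I ∈ inds c K ↔ I ⊆ K ∧ Ind c I := by
  classical
  unfold inds
  rw [mem_filter, mem_powerset]

lemma Ind.subset {I J : Finset α} (h : Ind c I) (hJ : J ⊆ I) : Ind c J :=
  fun x hx y hy hxy => h x (hJ hx) y (hJ hy) hxy

lemma Z_pos {l : ℝ} (hl : 0 ≤ l) (K : Finset α) : 1 ≤ Z c l K := by
  unfold Z
  have h : (∅ : Finset α) ∈ inds c K := by
    rw [mem_inds]
    exact ⟨empty_subset _, fun x hx => by simp at hx⟩
  calc (1 : ℝ) = l ^ (∅ : Finset α).card := by simp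
    _ ≤ _ := Finset.single_le_sum (f := fun I : Finset α => l ^ I.card)
      (fun I _ => pow_nonneg hl _) h

lemma mem_rem {K : Finset α} {u x : α} : x ∈ rem c K u ↔ x ∈ K ∧ ¬ c u x := by
  classical
  unfold rem
  rw [mem_filter]

lemma mem_nb {K : Finset α} {u x : α} : x ∈ nb c K u ↔ x ∈ K ∧ c u x := by
  classical
  unfold nb
  rw [mem_filter]

lemma rem_subset (K : Finset α) (u : α) : rem c K u ⊆ K := by
  classical
  unfold rem
  exact filter_subset _ _

lemma Z_empty (l : ℝ) : Z c l ∅ = 1 := by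
  unfold Z
  have : inds c (∅ : Finset α) = {∅} := by
    ext I
    rw [mem_inds, subset_empty, mem_singleton]
    constructor
    · exact fun h => h.1
    · rintro rfl
      exact ⟨rfl, fun x hx => by simp at hx⟩
  rw [this]
  simp

lemma Z_erase (l : ℝ) (K : Finset α) (u : α) :
    ∑ I ∈ (inds c K).filter (fun I => u ∉ I), l ^ I.card = Z c l (K.erase u) := by
  classical
  unfold Z
  apply Finset.sum_congr _ fun _ _ => rfl
  ext I
  rw [mem_filter, mem_inds, mem_inds, Finset.subset_erase]
  tauto

lemma sum_mem (hr : ∀ x, c x x) (hs : ∀ x y, c x y → c y x) (l : ℝ) {K : Finset α} {u : α}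
    (hu : u ∈ K) :
    ∑ I ∈ (inds c K).filter (fun I => u ∈ I), l ^ I.card = l * Z c l (rem c K u) := by
  classical
  unfold Z
  rw [Finset.mul_sum]
  refine Finset.sum_bij' (fun I _ => I.erase u) (fun I _ => insert u I) ?_ ?_ ?_ ?_ ?_
  · intro I hI
    rw [mem_filter, mem_inds] at hI
    obtain ⟨⟨h1, h2⟩, h3⟩ := hI
    rw [mem_inds]
    refine ⟨?_, h2.subset (erase_subset _ _)⟩
    intro x hx
    rw [mem_erase] at hx
    rw [mem_rem]
    exact ⟨h1 hx.2, h2 u h3 x hx.2 (Ne.symm hx.1)⟩
  · intro I hI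
    rw [mem_inds] at hI
    obtain ⟨h1, h2⟩ := hI
    rw [mem_filter, mem_inds]
    refine ⟨⟨?_, ?_⟩, mem_insert_self _ _⟩
    · intro x hx
      rcases mem_insert.1 hx with h | h
      · exact h ▸ hu
      · exact rem_subset K u (h1 h)
    · intro x hx y hy hxy
      have key : ∀ z ∈ I, ¬ c u z := fun z hz => (mem_rem.1 (h1 hz)).2
      rcases mem_insert.1 hx with h | h <;> rcases mem_insert.1 hy with h' | h'
      · exact absurd (h.trans h'.symm) hxy
      · rw [h]
        exact key y h'
      · rw [h']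
        exact fun h3 => key x h (hs _ _ h3)
      · exact h2 x h y h' hxy
  · intro I hI
    rw [mem_filter] at hI
    exact insert_erase hI.2
  · intro I hI
    rw [mem_inds] at hI
    refine erase_insert ?_
    exact fun h => (mem_rem.1 (hI.1 h)).2 (hr u)
  · intro I hI
    rw [mem_filter] at hI
    have h1 : I.card = (I.erase u).card + 1 := (card_erase_add_one hI.2).symm
    simp only [h1]
    rw [pow_succ]
    ring

/-- the recursion -/
lemma Z_rec (hr : ∀ x, c x x) (hs : ∀ x y, c x y → c y x) (l : ℝ) {K : Finset α} {u : α}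
    (hu : u ∈ K) : Z c l K = Z c l (K.erase u) + l * Z c l (rem c K u) := by
  rw [← Z_erase, ← sum_mem hr hs l hu, add_comm]
  exact (Finset.sum_filter_add_sum_filter_not (inds c K) (fun I => u ∈ I) _).symm

/-- the mean as a sum over the points -/
lemma M_eq (hr : ∀ x, c x x) (hs : ∀ x y, c x y → c y x) (l : ℝ) (K B : Finset α) (hB : B ⊆ K) :
    ∑ I ∈ inds c K, ((I ∩ B).card : ℝ) * l ^ I.card = ∑ u ∈ B, l * Z c l (rem c K u) := by
  classical
  have h1 : ∀ u ∈ B, l * Z c l (rem c K u) =
      ∑ I ∈ inds c K, (if u ∈ I then l ^ I.card else 0) := by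
    intro u hu
    rw [← sum_mem hr hs l (hB hu), Finset.sum_filter]
  rw [Finset.sum_congr rfl h1, Finset.sum_comm]
  refine Finset.sum_congr rfl fun I _ => ?_
  rw [← Finset.sum_filter, Finset.sum_const, nsmul_eq_mul]
  congr 2
  rw [Finset.inter_comm]
  congr 1

lemma M_eq' (hr : ∀ x, c x x) (hs : ∀ x y, c x y → c y x) (l : ℝ) (K : Finset α) :
    M c l K = ∑ u ∈ K, l * Z c l (rem c K u) := by
  rw [← M_eq hr hs l K K subset_rfl]
  unfold M
  refine Finset.sum_congr rfl fun I hI => ?_
  rw [mem_inds] at hI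
  rw [inter_eq_left.2 hI.1]

open Classical in
/-- the elements of `B` which are not close to an element of `D` -/
noncomputable def TT (c : α → α → Prop) (B D : Finset α) : Finset α :=
  B.filter fun u => ∀ v ∈ D, ¬ c v u

lemma mem_TT {B D : Finset α} {x : α} : x ∈ TT c B D ↔ x ∈ B ∧ ∀ v ∈ D, ¬ c v x := by
  classical
  unfold TT
  rw [mem_filter]

/-- splitting the space into two parts -/
lemma split (hs : ∀ x y, c x y → c y x) {A B : Finset α} (hAB : Disjoint A B)
    (F : Finset α → Finset α → ℝ) :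
    ∑ I ∈ inds c (A ∪ B), F (I ∩ A) (I ∩ B) =
      ∑ D ∈ inds c A, ∑ E ∈ inds c (TT c B D), F D E := by
  classical
  rw [Finset.sum_sigma']
  have hd : ∀ x, x ∈ A → x ∉ B := fun x hx hx' => (Finset.disjoint_left.1 hAB) hx hx'
  refine Finset.sum_bij' (fun I _ => ⟨I ∩ A, I ∩ B⟩) (fun P _ => P.1 ∪ P.2) ?_ ?_ ?_ ?_ ?_
  · intro I hI
    rw [mem_inds] at hI
    rw [mem_sigma, mem_inds, mem_inds]
    refine ⟨⟨inter_subset_right, hI.2.subset inter_subset_left⟩, ?_,
      hI.2.subset inter_subset_left⟩
    intro x hx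
    rw [mem_inter] at hx
    rw [mem_TT]
    refine ⟨hx.2, fun v hv => ?_⟩
    rw [mem_inter] at hv
    exact hI.2 v hv.1 x hx.1 (fun h => hd v hv.2 (h ▸ hx.2))
  · rintro ⟨D, E⟩ hP
    rw [mem_sigma, mem_inds, mem_inds] at hP
    obtain ⟨⟨h1, h2⟩, h3, h4⟩ := hP
    rw [mem_inds]
    refine ⟨union_subset (h1.trans subset_union_left)
      ((h3.trans (by intro x hx; exact (mem_TT.1 hx).1)).trans subset_union_right), ?_⟩
    intro x hx y hy hxy
    rcases mem_union.1 hx with h | h <;> rcases mem_union.1 hy with h' | h'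
    · exact h2 x h y h' hxy
    · exact (mem_TT.1 (h3 h')).2 x h
    · exact fun h5 => (mem_TT.1 (h3 h)).2 y h' (hs _ _ h5)
    · exact h4 x h y h' hxy
  · intro I hI
    rw [mem_inds] at hI
    show (I ∩ A) ∪ (I ∩ B) = I
    rw [← inter_union_distrib_left]
    exact inter_eq_left.2 hI.1
  · rintro ⟨D, E⟩ hP
    rw [mem_sigma, mem_inds, mem_inds] at hP
    obtain ⟨⟨h1, h2⟩, h3, h4⟩ := hP
    have h5 : E ⊆ B := h3.trans (by intro x hx; exact (mem_TT.1 hx).1)
    have e1 : (D ∪ E) ∩ A = D := by
      ext x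
      rw [mem_inter, mem_union]
      constructor
      · rintro ⟨h | h, h'⟩
        · exact h
        · exact absurd (h5 h) (hd x h')
      · exact fun h => ⟨Or.inl h, h1 h⟩
    have e2 : (D ∪ E) ∩ B = E := by
      ext x
      rw [mem_inter, mem_union]
      constructor
      · rintro ⟨h | h, h'⟩
        · exact absurd h' (hd x (h1 h))
        · exact h
      · exact fun h => ⟨Or.inr h, h5 h⟩
    show (⟨(D ∪ E) ∩ A, (D ∪ E) ∩ B⟩ : (_ : Finset α) × Finset α) = ⟨D, E⟩
    rw [e1, e2]
  · intro I _
    rfl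

lemma card_split {A B I : Finset α} (hAB : Disjoint A B) (h : I ⊆ A ∪ B) :
    I.card = (I ∩ A).card + (I ∩ B).card := by
  classical
  rw [← card_union_of_disjoint, ← inter_union_distrib_left, inter_eq_left.2 h]
  exact hAB.mono inter_subset_right inter_subset_right

lemma Z_split (hs : ∀ x y, c x y → c y x) {A B : Finset α} (hAB : Disjoint A B) (l : ℝ) :
    Z c l (A ∪ B) = ∑ D ∈ inds c A, l ^ D.card * Z c l (TT c B D) := by
  have h := split hs hAB (fun D E => l ^ (D.card + E.card))
  unfold Z
  simp only [Finset.mul_sum, ← pow_add]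
  rw [← h]
  refine Finset.sum_congr rfl fun I hI => ?_
  rw [mem_inds] at hI
  rw [← card_split hAB hI.1]

lemma M_split (hs : ∀ x y, c x y → c y x) {A B : Finset α} (hAB : Disjoint A B) (l : ℝ) :
    ∑ I ∈ inds c (A ∪ B), ((I ∩ B).card : ℝ) * l ^ I.card =
      ∑ D ∈ inds c A, l ^ D.card * M c l (TT c B D) := by
  have h := split hs hAB (fun D E => E.card * l ^ (D.card + E.card))
  have e : ∀ D, l ^ D.card * M c l (TT c B D) =
      ∑ E ∈ inds c (TT c B D), (E.card : ℝ) * l ^ (D.card + E.card) := by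
    intro D
    unfold M
    rw [Finset.mul_sum]
    refine Finset.sum_congr rfl fun E _ => ?_
    rw [pow_add]
    ring
  simp only [e]
  rw [← h]
  refine Finset.sum_congr rfl fun I hI => ?_
  rw [mem_inds] at hI
  rw [← card_split hAB hI.1]

lemma Z_mono {l : ℝ} (hl : 0 ≤ l) {K L : Finset α} (h : K ⊆ L) : Z c l K ≤ Z c l L := by
  unfold Z
  refine Finset.sum_le_sum_of_subset_of_nonneg ?_ fun _ _ _ => pow_nonneg hl _
  intro I hI
  rw [mem_inds] at hI ⊢
  exact ⟨hI.1.trans h, hI.2⟩

/-- the trivial upper bound -/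
lemma Z_le_pow {l : ℝ} (hl : 0 ≤ l) (K : Finset α) : Z c l K ≤ (1 + l) ^ K.card := by
  unfold Z
  calc ∑ I ∈ inds c K, l ^ I.card ≤ ∑ I ∈ K.powerset, l ^ I.card := by
        refine Finset.sum_le_sum_of_subset_of_nonneg ?_ fun _ _ _ => pow_nonneg hl _
        intro I hI
        rw [mem_inds] at hI
        exact mem_powerset.2 hI.1
    _ = (1 + l) ^ K.card := by
        have := Finset.sum_pow_mul_eq_add_pow l 1 K
        simp only [one_pow, mul_one] at this
        rw [this, add_comm]

lemma card_rem_add (K : Finset α) (u : α) : (rem c K u).card + (nb c K u).card = K.card := by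
  classical
  unfold rem nb
  rw [add_comm]
  exact Finset.card_filter_add_card_filter_not (s := K) (fun x => c u x)

/-- the set form of a subset -/
lemma nb_card_le (K : Finset α) (u : α) : (nb c K u).card ≤ K.card := by
  classical
  unfold nb
  exact card_filter_le _ _

end Pool.Agent.U180.CG
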