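import Pool.Agent.U180.CG.Crit

/-!
# Limits: the gas and the rate of the best codes
-/

set_option autoImplicit false
set_option linter.unusedSectionVars false

namespace Pool.Agent.U180.CG

open Finset Filter Topology
open Pool.Agent.U180.BC Pool.Agent.Y570.LS

section
variable {α : Type} [DecidableEq α] {c : α → α → Prop}

lemma Z_le_rem (hs : ∀ x y, c x y → c y x) {l : ℝ} (hl : 0 ≤ l) (K : Finset α)
    (u : α) : Z c l K ≤ Z c l (rem c K u) * Real.exp (l * (nb c K u).card) := by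
  classical
  have huni : K = rem c K u ∪ nb c K u := by
    ext y
    rw [mem_union, mem_rem, mem_nb]
    tauto
  have hdis : Disjoint (rem c K u) (nb c K u) := by
    rw [Finset.disjoint_left]
    intro y hy hy'
    exact (mem_rem.1 hy).2 (mem_nb.1 hy').2
  conv_lhs => rw [huni]
  rw [Z_split hs hdis]
  have : Z c l (rem c K u) = ∑ D ∈ inds c (rem c K u), l ^ D.card := rfl
  rw [this, Finset.sum_mul]
  refine Finset.sum_le_sum fun D _ => ?_
  refine mul_le_mul_of_nonneg_left ?_ (pow_nonneg hl _)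
  refine (Z_le_exp_card hl _).trans ?_
  rw [Real.exp_le_exp]
  refine mul_le_mul_of_nonneg_left ?_ hl
  exact_mod_cast card_le_card fun x hx => (mem_TT.1 hx).1

end

lemma mn_mono {n t : ℕ} {l l' : ℝ} (hl : 0 < l) (h : l ≤ l') : mn n t l ≤ mn n t l' := by
  rcases h.eq_or_lt with h | h
  · rw [h]
  have hl' : 0 < l' := hl.trans h
  have hr : 1 < l' / l := by
    rw [lt_div_iff₀ hl]
    linarith
  have hlog := Real.log_pos hr
  have h1 := jensen (c := cl n t) hl (Real.log (l' / l)) (univ : Finset (Word n))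
  have h2 := jensen (c := cl n t) hl' (-(Real.log (l' / l))) (univ : Finset (Word n))
  rw [Real.exp_log (by positivity), mul_div_cancel₀ _ hl.ne'] at h1
  have e : l' * Real.exp (-(Real.log (l' / l))) = l := by
    rw [Real.exp_neg, Real.exp_log (by positivity)]
    field_simp
  rw [e] at h2
  have h3 : Real.log (l' / l) * mn n t l ≤ Real.log (l' / l) * mn n t l' := by
    unfold mn
    linarith
  exact le_of_mul_le_mul_left h3 hlog

/-- the bound of Gilbert and Varshamov for the gas -/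
lemma mn_ge_gv (n t : ℕ) {l : ℝ} (hl : 1 / ball n t ≤ l) :
    (2 : ℝ) ^ n / ball n t * Real.exp (-1) ≤ mn n t l := by
  have hb := ball_pos n t
  have h0 : (0 : ℝ) < 1 / ball n t := by positivity
  refine le_trans ?_ (mn_mono h0 hl)
  unfold mn
  rw [le_div_iff₀ (zero_lt_one.trans_le (Z_pos h0.le univ)), M_eq' (cl_refl n t) (cl_symm n t)]
  have h1 : ∀ u ∈ (univ : Finset (Word n)), 1 / (ball n t : ℝ) * (Real.exp (-1) *
      Z (cl n t) (1 / ball n t) univ) ≤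
      1 / (ball n t : ℝ) * Z (cl n t) (1 / ball n t) (rem (cl n t) univ u) := by
    intro u _
    refine mul_le_mul_of_nonneg_left ?_ h0.le
    have h2 := Z_le_rem (cl_symm n t) h0.le (univ : Finset (Word n)) u
    have h3 : (nb (cl n t) univ u).card = ball n t := nb_card t u
    rw [h3, one_div, inv_mul_cancel₀ hb.ne'] at h2
    rw [one_div]
    calc Real.exp (-1) * Z (cl n t) ((ball n t : ℝ)⁻¹) univ ≤
          Real.exp (-1) * (Z (cl n t) ((ball n t : ℝ)⁻¹) (rem (cl n t) univ u) * Real.exp 1) :=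
          mul_le_mul_of_nonneg_left h2 (Real.exp_pos _).le
      _ = Z (cl n t) ((ball n t : ℝ)⁻¹) (rem (cl n t) univ u) * (Real.exp (-1) * Real.exp 1) := by
          ring
      _ = _ := by
          rw [← Real.exp_add, neg_add_cancel, Real.exp_zero, mul_one]
  have h2 := Finset.sum_le_sum h1
  rw [Finset.sum_const, nsmul_eq_mul, card_word] at h2
  refine le_trans (le_of_eq ?_) h2
  ring

/-- the asymptotic rate of the best codes -/
noncomputable def rt (δ : ℝ) (n : ℕ) : ℝ := Real.logb 2 (A n ⌈δ * n⌉₊) / n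

/-- the largest even number smaller than `⌈δ n⌉` -/
noncomputable def tt (δ : ℝ) (n : ℕ) : ℕ := 2 * ((⌈δ * n⌉₊ - 1) / 2)

/-- the rate of the gas at the activity `2 ^ (x n) / V` -/
noncomputable def gr (δ x : ℝ) (n : ℕ) : ℝ :=
  Real.logb 2 (mn n (tt δ n) ((2 : ℝ) ^ (x * n) / ball n (tt δ n))) / n

/-- the binary entropy function -/
noncomputable def H (x : ℝ) : ℝ := -x * Real.logb 2 x - (1 - x) * Real.logb 2 (1 - x)

lemma H_eq (x : ℝ) : H x = h x / Real.log 2 := by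
  unfold H h Real.binEntropy Real.logb
  rw [Real.log_inv, Real.log_inv]
  ring

lemma tt_even (δ : ℝ) (n : ℕ) : Even (tt δ n) := ⟨(⌈δ * n⌉₊ - 1) / 2, by unfold tt; ring⟩

lemma tt_spec {δ : ℝ} (h0 : 0 < δ) {n : ℕ} (hn : 1 ≤ n) :
    tt δ n + 1 ≤ ⌈δ * n⌉₊ ∧ ⌈δ * n⌉₊ ≤ tt δ n + 2 := by
  have hn' : (0 : ℝ) < n := by exact_mod_cast hn
  have h1 : 1 ≤ ⌈δ * n⌉₊ := Nat.one_le_ceil_iff.2 (by positivity)
  unfold tt
  omega

lemma tt_close {δ : ℝ} (h0 : 0 < δ) {n : ℕ} (hn : 1 ≤ n) : |(tt δ n : ℝ) - δ * n| ≤ 2 := by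
  obtain ⟨h1, h2⟩ := tt_spec h0 hn
  have h3 : (tt δ n : ℝ) + 1 ≤ ⌈δ * n⌉₊ := by exact_mod_cast h1
  have h4 : (⌈δ * n⌉₊ : ℝ) ≤ tt δ n + 2 := by exact_mod_cast h2
  have h5 := Nat.le_ceil (δ * n)
  have h6 := Nat.ceil_lt_add_one (a := δ * n) (by positivity)
  rw [abs_le]
  constructor <;> linarith

lemma tt_ev {δ : ℝ} (h0 : 0 < δ) {η : ℝ} (hη : 0 < η) :
    ∀ᶠ n : ℕ in atTop, |(tt δ n : ℝ) - δ * n| ≤ η * n := by
  filter_upwards [eventually_ge_atTop 1, eventually_ge_atTop ⌈2 / η⌉₊] with n hn hn2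
  refine (tt_close h0 hn).trans ?_
  have h3 : 2 / η ≤ n := (Nat.le_ceil _).trans (by exact_mod_cast hn2)
  rw [div_le_iff₀ hη] at h3
  linarith

lemma A_tt_le {δ : ℝ} (h0 : 0 < δ) {n : ℕ} (hn : 1 ≤ n) :
    A n (tt δ n + 1) ≤ 2 * A n ⌈δ * n⌉₊ := by
  obtain ⟨h1, h2⟩ := tt_spec h0 hn
  obtain ⟨k, hk⟩ := tt_even δ n
  rcases Nat.lt_or_ge ⌈δ * n⌉₊ (tt δ n + 2) with h3 | h3
  · have : ⌈δ * n⌉₊ = tt δ n + 1 := by omega
    rw [this]
    omega
  · have : ⌈δ * n⌉₊ = tt δ n + 2 := by omega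
    rw [this, hk]
    have := A_odd_le n k
    rw [show k + k + 1 = 2 * k + 1 by ring, show k + k + 2 = 2 * k + 2 by ring]
    exact this

lemma act_pos (δ x : ℝ) (n : ℕ) : 0 < (2 : ℝ) ^ (x * n) / ball n (tt δ n) :=
  div_pos (Real.rpow_pos_of_pos (by norm_num) _) (ball_pos _ _)

lemma mn_pos {n t : ℕ} {l : ℝ} (hl : 0 < l) : 0 < mn n t l := by
  unfold mn
  refine div_pos ?_ (zero_lt_one.trans_le (Z_pos hl.le univ))
  rw [M_eq' (cl_refl n t) (cl_symm n t)]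
  refine Finset.sum_pos (fun u _ => mul_pos hl (zero_lt_one.trans_le (Z_pos hl.le _))) ?_
  exact ⟨fun _ => false, mem_univ _⟩

/-- the gas is not better than the best codes -/
lemma gr_le {δ : ℝ} (h0 : 0 < δ) (x : ℝ) {n : ℕ} (hn : 1 ≤ n) :
    gr δ x n ≤ rt δ n + 1 / n := by
  have hn' : (0 : ℝ) < n := by exact_mod_cast hn
  have hl := act_pos δ x n
  unfold gr rt
  rw [← add_div]
  refine div_le_div_of_nonneg_right ?_ hn'.le
  have h1 := mn_le (n := n) (t := tt δ n) hl.le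
  have h2 : ((A n (tt δ n + 1) : ℕ) : ℝ) ≤ 2 * A n ⌈δ * n⌉₊ := by exact_mod_cast A_tt_le h0 hn
  have h3 : (0 : ℝ) < A n ⌈δ * n⌉₊ := by exact_mod_cast A_pos _ _
  calc Real.logb 2 (mn n (tt δ n) ((2 : ℝ) ^ (x * n) / ball n (tt δ n))) ≤
        Real.logb 2 (2 * A n ⌈δ * n⌉₊) :=
        Real.logb_le_logb_of_le (by norm_num) (mn_pos hl) (h1.trans h2)
    _ = Real.logb 2 (A n ⌈δ * n⌉₊) + 1 := by
        rw [Real.logb_mul (by norm_num) h3.ne', Real.logb_self_eq_one (by norm_num)]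
        ring

lemma rt_bd (δ : ℝ) (n : ℕ) : 0 ≤ rt δ n ∧ rt δ n ≤ 1 := by
  unfold rt
  have h1 : (1 : ℝ) ≤ A n ⌈δ * n⌉₊ := by exact_mod_cast A_pos _ _
  refine ⟨div_nonneg (Real.logb_nonneg (by norm_num) h1) (Nat.cast_nonneg _), ?_⟩
  refine div_le_one_of_le₀ ?_ (Nat.cast_nonneg _)
  have h2 : (A n ⌈δ * n⌉₊ : ℝ) ≤ 2 ^ n := by
    obtain ⟨C, -, hA⟩ := exists_A n ⌈δ * n⌉₊
    rw [← hA, ← card_word]
    exact_mod_cast card_le_card (subset_univ C)
  calc Real.logb 2 (A n ⌈δ * n⌉₊) ≤ Real.logb 2 (2 ^ n) :=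
        Real.logb_le_logb_of_le (by norm_num) (by linarith) h2
    _ = n := by
        rw [Real.logb_pow, Real.logb_self_eq_one (by norm_num), mul_one]

/-- the gas satisfies the bound of Gilbert and Varshamov -/
lemma gr_ge {δ : ℝ} (h0 : 0 < δ) (h1 : δ < 1 / 2) {ε : ℝ} (hε : 0 < ε) :
    ∀ᶠ n : ℕ in atTop, ∀ x : ℝ, 0 ≤ x → 1 - H δ - ε ≤ gr δ x n := by
  have hlog : 0 < Real.log 2 := Real.log_pos (by norm_num)
  obtain ⟨η, hη, hv⟩ := vol_asym h0 h1 (ε := ε * Real.log 2 / 2) (by positivity)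
  filter_upwards [hv, tt_ev h0 hη, eventually_ge_atTop 1, eventually_ge_atTop
    ⌈2 / (ε * Real.log 2)⌉₊] with n hv ht hn hn2 x hx
  have hn' : (0 : ℝ) < n := by exact_mod_cast hn
  obtain ⟨-, h3, -, -⟩ := hv (tt δ n) ht
  have hb := ball_pos n (tt δ n)
  have h4 := mn_ge_gv n (tt δ n) (l := (2 : ℝ) ^ (x * n) / ball n (tt δ n)) (by
    refine div_le_div_of_nonneg_right ?_ hb.le
    exact Real.one_le_rpow (by norm_num) (by positivity))
  have h5 : Real.exp ((Real.log 2 - (h δ + ε * Real.log 2 / 2)) * n - 1) ≤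
      mn n (tt δ n) ((2 : ℝ) ^ (x * n) / ball n (tt δ n)) := by
    refine le_trans ?_ h4
    have e2 : (2 : ℝ) ^ n = Real.exp (Real.log 2 * n) := by
      rw [mul_comm, Real.exp_nat_mul, Real.exp_log (by norm_num)]
    have e3 : Real.exp ((Real.log 2 - (h δ + ε * Real.log 2 / 2)) * n - 1) =
        Real.exp (Real.log 2 * n) / Real.exp ((h δ + ε * Real.log 2 / 2) * n) * Real.exp (-1) := by
      rw [← Real.exp_sub, ← Real.exp_add]
      congr 1
      ring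
    rw [e3, e2]
    refine mul_le_mul_of_nonneg_right ?_ (Real.exp_pos _).le
    exact div_le_div_of_nonneg_left (Real.exp_pos _).le hb h3
  unfold gr
  rw [le_div_iff₀ hn']
  have h6 := Real.log_le_log (Real.exp_pos _) h5
  rw [Real.log_exp] at h6
  unfold Real.logb
  rw [le_div_iff₀ hlog, H_eq]
  refine le_trans ?_ h6
  have h7 : 2 / (ε * Real.log 2) ≤ n := (Nat.le_ceil _).trans (by exact_mod_cast hn2)
  rw [div_le_iff₀ (by positivity)] at h7
  have e4 : (1 - h δ / Real.log 2 - ε) * n * Real.log 2 =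
      (Real.log 2 - h δ - ε * Real.log 2) * n := by
    field_simp
  rw [e4]
  nlinarith

/-- the main inequality -/
lemma code_le_gas {δ ρ : ℝ} (h0 : 0 < δ) (h1 : δ < 1 / 2) (hρ : 0 < ρ) (hρ1 : ρ < 1 / 2) :
    ∀ᶠ n : ℕ in atTop, ∀ m : ℕ, 1 + 2 * ρ * n ≤ δ * m →
      (A (n + m) ⌈δ * ((n + m : ℕ) : ℝ)⌉₊ : ℝ) ≤ 2 ^ m * (2 * (n + 2) *
        mn n (tt δ n) ((2 : ℝ) ^ ((h δ - h ρ / 2) / Real.log 2 * n) / ball n (tt δ n))) := by
  have hlog : 0 < Real.log 2 := Real.log_pos (by norm_num)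
  have hhρ : 0 < h ρ := Real.binEntropy_pos hρ (by linarith)
  obtain ⟨η, hη, hv⟩ := vol_asym h0 h1 (ε := h ρ / 8) (by positivity)
  obtain ⟨η', hη', hv'⟩ := vol_asym hρ hρ1 (ε := h ρ / 8) (by positivity)
  filter_upwards [hv, hv', tt_ev h0 hη, eventually_ge_atTop 1, eventually_ge_atTop ⌈1 / η'⌉₊]
    with n hv hv' ht hn hn2 m hm
  have hn' : (0 : ℝ) < n := by exact_mod_cast hn
  obtain ⟨k1, k2, -, -⟩ := hv (tt δ n) ht
  have hr : |((⌊ρ * n⌋₊ : ℕ) : ℝ) - ρ * n| ≤ η' * n := by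
    have h3 := Nat.floor_le (a := ρ * n) (by positivity)
    have h4 := Nat.lt_floor_add_one (ρ * n)
    have h5 : 1 / η' ≤ n := (Nat.le_ceil _).trans (by exact_mod_cast hn2)
    rw [div_le_iff₀ hη'] at h5
    rw [abs_le]
    constructor <;> linarith
  obtain ⟨k3, -, -, -⟩ := hv' _ hr
  have hb := ball_pos n (tt δ n)
  have e1 : (2 : ℝ) ^ ((h δ - h ρ / 2) / Real.log 2 * n) = Real.exp ((h δ - h ρ / 2) * n) := by
    rw [Real.rpow_def_of_pos (by norm_num)]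
    congr 1
    field_simp
  rw [e1]
  have hA : A (n + m) ⌈δ * ((n + m : ℕ) : ℝ)⌉₊ ≤ 2 ^ m * A n (tt δ n + 1 + 2 * ⌊ρ * n⌋₊) := by
    refine (A_add_le n m _).trans (Nat.mul_le_mul_left _ (A_anti n ?_))
    have h3 : ((tt δ n + 1 + 2 * ⌊ρ * n⌋₊ : ℕ) : ℝ) ≤ δ * ((n + m : ℕ) : ℝ) := by
      push_cast
      have h4 := Nat.floor_le (a := ρ * n) (by positivity)
      have h5 : (tt δ n : ℝ) + 1 ≤ ⌈δ * n⌉₊ := by exact_mod_cast (tt_spec h0 hn).1
      have h6 := Nat.ceil_lt_add_one (a := δ * n) (by positivity)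
      nlinarith
    exact_mod_cast h3.trans (Nat.le_ceil _)
  have hA' : (A (n + m) ⌈δ * ((n + m : ℕ) : ℝ)⌉₊ : ℝ) ≤
      2 ^ m * A n (tt δ n + 1 + 2 * ⌊ρ * n⌋₊) := by exact_mod_cast hA
  refine hA'.trans ?_
  refine mul_le_mul_of_nonneg_left ?_ (by positivity)
  refine mn_ge_code (by positivity) ?_ ?_
  · rw [div_le_one hb]
    refine le_trans ?_ k1
    rw [Real.exp_le_exp]
    nlinarith
  · rw [div_mul_eq_mul_div, le_div_iff₀ hb, one_mul]
    refine k2.trans ?_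
    calc Real.exp ((h δ + h ρ / 8) * n) ≤
          Real.exp ((h δ - h ρ / 2) * n) * Real.exp ((h ρ - h ρ / 8) * n) := by
          rw [← Real.exp_add, Real.exp_le_exp]
          nlinarith
      _ ≤ _ := mul_le_mul_of_nonneg_left k3 (Real.exp_pos _).le

end Pool.Agent.U180.CG
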