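import Pool.Agent.U180.CG.Lim

/-!
# Limits: the final statements
-/

set_option autoImplicit false
set_option linter.unusedSectionVars false

namespace Pool.Agent.U180.CG

open Finset Filter Topology
open Pool.Agent.U180.BC Pool.Agent.Y570.LS

lemma log_div_tendsto {y : ℝ} (hy : 0 < y) :
    Tendsto (fun n : ℕ => Real.log (y * n) / n) atTop (𝓝 0) := by
  have h1 : Tendsto (fun x : ℝ => Real.log x / x) atTop (𝓝 0) :=
    Real.isLittleO_log_id_atTop.tendsto_div_nhds_zero
  have h2 : Tendsto (fun n : ℕ => y * (n : ℝ)) atTop atTop :=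
    Tendsto.const_mul_atTop hy tendsto_natCast_atTop_atTop
  have h3 := (h1.comp h2).const_mul y
  rw [mul_zero] at h3
  refine h3.congr' ?_
  filter_upwards [eventually_ge_atTop 1] with n hn
  have hn' : (0 : ℝ) < n := by exact_mod_cast hn
  simp only [Function.comp]
  field_simp

/-- the parameter `w` at an exponential activity -/
lemma W_asym {y : ℝ} (hy : 0 < y) :
    Tendsto (fun n : ℕ => W (Real.exp (y * n)) / n) atTop (𝓝 y) := by
  have h1 : Tendsto (fun n : ℕ => y - Real.log (y * n) / n) atTop (𝓝 (y - 0)) :=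
    tendsto_const_nhds.sub (log_div_tendsto hy)
  rw [sub_zero] at h1
  refine tendsto_of_tendsto_of_tendsto_of_le_of_le' h1 tendsto_const_nhds ?_ ?_
  all_goals
    filter_upwards [eventually_ge_atTop 1, eventually_ge_atTop ⌈2 / y⌉₊] with n hn hn2
    have hn' : (0 : ℝ) < n := by exact_mod_cast hn
    have h3 : 2 / y ≤ n := (Nat.le_ceil _).trans (by exact_mod_cast hn2)
    rw [div_le_iff₀ hy] at h3
    have hw0 := W_nonneg (Real.exp (y * n))
    have hw := W_mul (Real.exp_pos (y * n)).le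
    have hw1 : 1 ≤ W (Real.exp (y * n)) := by
      refine le_of_mul_exp_le hw0 ?_
      rw [hw, one_mul, Real.exp_le_exp]
      linarith
    obtain ⟨w, hwe⟩ : ∃ w, w = W (Real.exp (y * n)) := ⟨_, rfl⟩
    rw [← hwe] at hw hw1 hw0 ⊢
    have hlw : Real.log w + w = y * n := by
      have h4 := congrArg Real.log hw
      rw [Real.log_mul (by positivity) (Real.exp_pos _).ne', Real.log_exp, Real.log_exp] at h4
      exact h4
    have h5 : 0 ≤ Real.log w := Real.log_nonneg hw1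
  · have h6 : Real.log w ≤ Real.log (y * n) := Real.log_le_log (by positivity) (by linarith)
    rw [le_div_iff₀ hn', sub_mul, div_mul_cancel₀ _ hn'.ne']
    linarith
  · rw [div_le_iff₀ hn']
    linarith

lemma rpow_exp (x n : ℝ) : (2 : ℝ) ^ (x * n) = Real.exp (x * Real.log 2 * n) := by
  rw [Real.rpow_def_of_pos (by norm_num)]
  congr 1
  ring

lemma den_eq (n t : ℕ) (x : ℝ) (m : ℝ) : den n t (W ((2 : ℝ) ^ (x * m))) =
    ball n t / 2 ^ n * mn n t ((2 : ℝ) ^ (x * m) / ball n t) := by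
  unfold den de mn
  rw [W_mul (Real.rpow_pos_of_pos (by norm_num) _).le]

/-- the density at an exponential activity -/
theorem density {δ : ℝ} (h0 : 0 < δ) (h1 : δ < 1 / 2) {x : ℝ} (hx0 : 0 < x)
    (hx : x * Real.log 2 < XX δ) {t : ℕ → ℕ} (hte : ∀ n, Even (t n))
    (ht : ∀ η : ℝ, 0 < η → ∀ᶠ n : ℕ in atTop, |(t n : ℝ) - δ * n| ≤ η * n) :
    Tendsto (fun n : ℕ => mn n (t n) ((2 : ℝ) ^ (x * n) / ball n (t n)) * ball n (t n) /
      (2 ^ n * n)) atTop (𝓝 (x * Real.log 2)) := by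
  have hlog : 0 < Real.log 2 := Real.log_pos (by norm_num)
  have hy : 0 < x * Real.log 2 := by positivity
  have hW := W_asym hy
  rw [Metric.tendsto_atTop] at hW ⊢
  intro ε hε
  obtain ⟨y, hye⟩ : ∃ y, y = x * Real.log 2 := ⟨_, rfl⟩
  rw [← hye] at hy hW hx ⊢
  obtain ⟨e, he⟩ : ∃ e, e = min (XX δ - y) (ε / (2 * (y + ε))) := ⟨_, rfl⟩
  have he0 : 0 < e := by
    rw [he]
    exact lt_min (by linarith) (by positivity)
  obtain ⟨η, hη, n₁, S1⟩ := state h0 h1 he0
  obtain ⟨n₂, hn₂⟩ := hW (ε / 2) (by positivity)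
  obtain ⟨n₃, hn₃⟩ := eventually_atTop.1 (ht η hη)
  refine ⟨max (max n₁ n₂) (max n₃ 1), fun n hn => ?_⟩
  have k1 : n₁ ≤ n := (le_max_left _ _).trans ((le_max_left _ _).trans hn)
  have k2 : n₂ ≤ n := (le_max_right _ _).trans ((le_max_left _ _).trans hn)
  have k3 : n₃ ≤ n := (le_max_left _ _).trans ((le_max_right _ _).trans hn)
  have k4 : 1 ≤ n := (le_max_right _ _).trans ((le_max_right _ _).trans hn)
  have hn' : (0 : ℝ) < n := by exact_mod_cast k4
  have hW := hn₂ n k2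
  obtain ⟨w, hwe⟩ : ∃ w, w = W (Real.exp (y * n)) := ⟨_, rfl⟩
  rw [← hwe] at hW
  have hw0 : 0 ≤ w := hwe ▸ W_nonneg _
  have hwm : w * Real.exp w = Real.exp (y * n) := by
    rw [hwe]
    exact W_mul (Real.exp_pos _).le
  have hw1 : 0 < w := by
    rcases hw0.eq_or_lt with h | h
    · rw [← h, zero_mul] at hwm
      exact absurd hwm (Real.exp_pos _).ne
    · exact h
  obtain ⟨B1, -⟩ := S1 n k1 (t n) (hte n) (hn₃ n k3) w hw1 (by
    rw [hwm, Real.exp_le_exp]
    refine mul_le_mul_of_nonneg_right ?_ hn'.le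
    have := he ▸ min_le_left (XX δ - y) (ε / (2 * (y + ε)))
    linarith)
  have e1 : w = W ((2 : ℝ) ^ (x * n)) := by
    rw [hwe, rpow_exp, hye]
  rw [e1, den_eq, ← e1] at B1
  rw [Real.dist_eq] at hW ⊢
  have e2 : mn n (t n) ((2 : ℝ) ^ (x * n) / ball n (t n)) * ball n (t n) / (2 ^ n * n) - y =
      (ball n (t n) / 2 ^ n * mn n (t n) ((2 : ℝ) ^ (x * n) / ball n (t n)) - w) / n +
        (w / n - y) := by
    field_simp
    ring
  rw [e2]
  refine (abs_add_le _ _).trans_lt ?_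
  have h3 : |(ball n (t n) / 2 ^ n * mn n (t n) ((2 : ℝ) ^ (x * n) / ball n (t n)) - w) / n| ≤
      e * (w / n) := by
    rw [abs_div, abs_of_pos hn', div_le_iff₀ hn']
    refine B1.trans (le_of_eq ?_)
    field_simp
  have h4 : w / n ≤ y + ε := by
    linarith [(abs_lt.1 hW).2]
  have h5 : e * (w / n) ≤ ε / 2 := by
    have h6 : e ≤ ε / (2 * (y + ε)) := he ▸ min_le_right _ _
    calc e * (w / n) ≤ ε / (2 * (y + ε)) * (y + ε) :=
          mul_le_mul h6 h4 (by positivity) (by positivity)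
      _ = ε / 2 := by
          field_simp
  linarith

/-- the rate of the gas at small activities -/
theorem gr_le_gv {δ : ℝ} (h0 : 0 < δ) (h1 : δ < 1 / 2) {x : ℝ}
    (hx : x * Real.log 2 < XX δ) {ε : ℝ} (hε : 0 < ε) :
    ∀ᶠ n : ℕ in atTop, gr δ x n ≤ 1 - H δ + ε := by
  have hlog : 0 < Real.log 2 := Real.log_pos (by norm_num)
  obtain ⟨y, hye⟩ : ∃ y, y = x * Real.log 2 := ⟨_, rfl⟩
  rw [← hye] at hx
  obtain ⟨e, he⟩ : ∃ e, e = min (XX δ - y) 1 := ⟨_, rfl⟩
  have he0 : 0 < e := by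
    rw [he]
    exact lt_min (by linarith) one_pos
  have he1 : e ≤ XX δ - y := he ▸ min_le_left _ _
  have he2 : e ≤ 1 := he ▸ min_le_right _ _
  have hhl : h δ ≤ 1 := by
    have h3 : h δ ≤ Real.log 2 := Real.binEntropy_le_log_two
    linarith [Real.log_two_lt_d9]
  have hX1 : XX δ ≤ 1 := ((min_le_right _ _).trans (X2_le h0 h1)).trans hhl
  obtain ⟨η, hη, n₁, S1⟩ := state h0 h1 he0
  obtain ⟨η', hη', hv⟩ := vol_asym h0 h1 (ε := ε * Real.log 2 / 2) (by positivity)
  filter_upwards [eventually_ge_atTop n₁, tt_ev h0 hη, tt_ev h0 hη', hv,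
    poly_small (ε := ε * Real.log 2 / 4) (by positivity), eventually_ge_atTop 1,
    eventually_ge_atTop ⌈4 / ε⌉₊] with n hn1 ht ht' hv hpoly hn hn2
  have hn' : (0 : ℝ) < n := by exact_mod_cast hn
  obtain ⟨k1, -, -, -⟩ := hv (tt δ n) ht'
  have hb := ball_pos n (tt δ n)
  obtain ⟨w, hwe⟩ : ∃ w, w = W ((2 : ℝ) ^ (x * n)) := ⟨_, rfl⟩
  have hw0 : 0 ≤ w := hwe ▸ W_nonneg _
  have hwm : w * Real.exp w = Real.exp (y * n) := by
    rw [hwe, W_mul (Real.rpow_pos_of_pos (by norm_num) _).le, rpow_exp, hye]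
  have hw1 : 0 < w := by
    rcases hw0.eq_or_lt with h | h
    · rw [← h, zero_mul] at hwm
      exact absurd hwm (Real.exp_pos _).ne
    · exact h
  obtain ⟨B1, -⟩ := S1 n hn1 (tt δ n) (tt_even δ n) ht w hw1 (by
    rw [hwm, Real.exp_le_exp]
    exact mul_le_mul_of_nonneg_right (by linarith) hn'.le)
  rw [hwe, den_eq, ← hwe] at B1
  have hwn : w ≤ n + 1 := by
    rcases le_or_gt w 1 with h | h
    · linarith
    · have h3 : Real.exp w ≤ Real.exp (y * n) := by
        rw [← hwm]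
        exact le_mul_of_one_le_left (Real.exp_pos w).le h.le
      rw [Real.exp_le_exp] at h3
      have : y * n ≤ 1 * n := mul_le_mul_of_nonneg_right (by linarith) hn'.le
      linarith
  obtain ⟨m, hm⟩ : ∃ m, m = mn n (tt δ n) ((2 : ℝ) ^ (x * n) / ball n (tt δ n)) := ⟨_, rfl⟩
  have hm0 : 0 < m := hm ▸ mn_pos (act_pos δ x n)
  unfold gr
  rw [← hm] at B1 ⊢
  have h3 : ball n (tt δ n) / 2 ^ n * m ≤ 2 * (n + 1) := by
    have := (abs_le.1 B1).2
    nlinarith
  have h4 : m ≤ 2 * Real.exp (ε * Real.log 2 / 4 * n) *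
      Real.exp ((Real.log 2 - (h δ - ε * Real.log 2 / 2)) * n) := by
    have e2 : (2 : ℝ) ^ n = Real.exp (Real.log 2 * n) := by
      rw [mul_comm, Real.exp_nat_mul, Real.exp_log (by norm_num)]
    have h5 : m ≤ 2 * (n + 1) * (2 ^ n / ball n (tt δ n)) := by
      have h6 : (0 : ℝ) < 2 ^ n / ball n (tt δ n) := by positivity
      have h7 := mul_le_mul_of_nonneg_right h3 h6.le
      refine le_trans (le_of_eq ?_) h7
      field_simp
    refine h5.trans ?_
    refine mul_le_mul (mul_le_mul_of_nonneg_left hpoly (by norm_num)) ?_ (by positivity)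
      (by positivity)
    rw [div_le_iff₀ hb, e2]
    calc Real.exp (Real.log 2 * n) =
          Real.exp ((Real.log 2 - (h δ - ε * Real.log 2 / 2)) * n) *
            Real.exp ((h δ - ε * Real.log 2 / 2) * n) := by
          rw [← Real.exp_add]
          congr 1
          ring
      _ ≤ _ := mul_le_mul_of_nonneg_left k1 (Real.exp_pos _).le
  have h5 := Real.log_le_log hm0 h4
  rw [Real.log_mul (by positivity) (Real.exp_pos _).ne', Real.log_mul (by norm_num)
    (Real.exp_pos _).ne', Real.log_exp, Real.log_exp] at h5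
  rw [div_le_iff₀ hn']
  unfold Real.logb
  rw [div_le_iff₀ hlog, H_eq]
  refine h5.trans ?_
  have h6 : 4 / ε ≤ n := (Nat.le_ceil _).trans (by exact_mod_cast hn2)
  rw [div_le_iff₀ hε] at h6
  have e4 : (1 - h δ / Real.log 2 + ε) * n * Real.log 2 =
      (Real.log 2 - h δ + ε * Real.log 2) * n := by
    field_simp
  rw [e4]
  nlinarith

/-- the rate of the gas at small activities -/
theorem gr_tendsto {δ : ℝ} (h0 : 0 < δ) (h1 : δ < 1 / 2) {x : ℝ} (hx0 : 0 ≤ x)
    (hx : x * Real.log 2 < XX δ) : Tendsto (gr δ x) atTop (𝓝 (1 - H δ)) := by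
  rw [Metric.tendsto_atTop]
  intro ε hε
  obtain ⟨n₀, hn₀⟩ := eventually_atTop.1 ((gr_le_gv h0 h1 hx (half_pos hε)).and
    (gr_ge h0 h1 (half_pos hε)))
  refine ⟨n₀, fun n hn => ?_⟩
  obtain ⟨k1, k2⟩ := hn₀ n hn
  have k3 := k2 x hx0
  rw [Real.dist_eq, abs_lt]
  constructor <;> linarith

end Pool.Agent.U180.CG
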