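import Pool.Agent.U180.CG.Up

/-!
# The lower bound for the mean number of points
-/

set_option autoImplicit false
set_option linter.unusedSectionVars false

namespace Pool.Agent.U180.CG

open Finset

variable {α : Type} [DecidableEq α] {c : α → α → Prop}

lemma Z_le_sdiff (hr : ∀ x, c x x) (hs : ∀ x y, c x y → c y x) {l : ℝ} (hl : 0 ≤ l)
    (K S : Finset α) : Z c l K ≤ Z c l (K \ S) + l * S.card * Z c l K := by
  classical
  induction S using Finset.induction_on with
  | empty => simp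
  | insert a S ha ih =>
    rw [card_insert_of_notMem ha, sdiff_insert]
    by_cases h : a ∈ K \ S
    · have h1 := Z_rec hr hs l h
      have h2 : Z c l (rem c (K \ S) a) ≤ Z c l K :=
        Z_mono hl ((rem_subset _ _).trans sdiff_subset)
      have h3 := mul_le_mul_of_nonneg_left h2 hl
      push_cast
      nlinarith
    · rw [erase_eq_of_notMem h]
      have := mul_nonneg hl (zero_le_one.trans (Z_pos (c := c) hl K))
      push_cast
      nlinarith

lemma rem_eq (K : Finset α) (u : α) : rem c K u = K \ nb c K u := by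
  ext x
  rw [mem_sdiff, mem_rem, mem_nb]
  tauto

open Classical in
/-- sparse graphs: the mean number of points -/
lemma local_mean (hr : ∀ x, c x x) (hs : ∀ x y, c x y → c y x) {l : ℝ} (hl : 0 ≤ l)
    (T : Finset α) (r : α → ℕ) (Δ : ℝ)
    (h : ∀ u ∈ T, ((T.filter fun v => c u v ∧ r v ≤ r u).card : ℝ) ≤ Δ) :
    l * T.card * (1 - 2 * l * Δ) * Z c l T ≤ M c l T := by
  rw [M_eq' hr hs]
  have hZ : 0 ≤ Z c l T := zero_le_one.trans (Z_pos hl T)
  have h1 : ∀ u ∈ T, l * ((1 - l * (nb c T u).card) * Z c l T) ≤ l * Z c l (rem c T u) := by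
    intro u _
    refine mul_le_mul_of_nonneg_left ?_ hl
    have := Z_le_sdiff hr hs hl T (nb c T u)
    rw [rem_eq]
    linarith
  refine le_trans ?_ (Finset.sum_le_sum h1)
  rw [← Finset.mul_sum, ← Finset.sum_mul, Finset.sum_sub_distrib, ← Finset.mul_sum, Finset.sum_const,
    nsmul_eq_mul, mul_one]
  have h2 : ∑ u ∈ T, ((nb c T u).card : ℝ) ≤ 2 * Δ * T.card := by
    have h3 : ∀ u ∈ T, ((nb c T u).card : ℝ) ≤
        ((T.filter fun v => c u v ∧ r v ≤ r u).card : ℝ) +
          ((T.filter fun v => c v u ∧ r u ≤ r v).card : ℝ) := by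
      intro u _
      have : nb c T u ⊆ (T.filter fun v => c u v ∧ r v ≤ r u) ∪
          (T.filter fun v => c v u ∧ r u ≤ r v) := by
        intro v hv
        rw [mem_nb] at hv
        rw [mem_union, mem_filter, mem_filter]
        rcases le_total (r v) (r u) with h | h
        · exact Or.inl ⟨hv.1, hv.2, h⟩
        · exact Or.inr ⟨hv.1, hs _ _ hv.2, h⟩
      exact_mod_cast (card_le_card this).trans (card_union_le _ _)
    refine (Finset.sum_le_sum h3).trans ?_
    rw [Finset.sum_add_distrib]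
    have h4 : ∑ u ∈ T, ((T.filter fun v => c v u ∧ r u ≤ r v).card : ℝ) =
        ∑ u ∈ T, ((T.filter fun v => c u v ∧ r v ≤ r u).card : ℝ) := by
      simp_rw [Finset.card_filter]
      push_cast
      rw [Finset.sum_comm]
    rw [h4]
    have h5 := Finset.sum_le_sum h
    rw [Finset.sum_const, nsmul_eq_mul] at h5
    linarith
  have h3 : l * (T.card * (1 - 2 * l * Δ)) ≤ l * ((T.card : ℝ) - l * ∑ u ∈ T, ((nb c T u).card : ℝ)) := by
    refine mul_le_mul_of_nonneg_left ?_ hl
    have := mul_le_mul_of_nonneg_left h2 hl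
    linarith
  have h4 := mul_le_mul_of_nonneg_right h3 hZ
  linarith

lemma Z_le_exp_card {l : ℝ} (hl : 0 ≤ l) (K : Finset α) : Z c l K ≤ Real.exp (l * K.card) := by
  refine (Z_le_pow hl K).trans ?_
  rw [mul_comm, Real.exp_nat_mul]
  refine pow_le_pow_left₀ (by linarith) ?_ _
  linarith [Real.add_one_le_exp l]

open Classical in
/-- the lower bound for the mean -/
theorem mean_ge [Fintype α] [Nonempty α] (hr : ∀ x, c x x) (hs : ∀ x y, c x y → c y x) {V : ℕ}
    (hV : ∀ x, (nb c univ x).card = V) (r : α → α → ℕ) (Δ : ℝ)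
    (hΔ : ∀ x, ∀ u ∈ nb c univ x,
      (((nb c univ x).filter fun v => c u v ∧ r x v ≤ r x u).card : ℝ) ≤ Δ)
    {w : ℝ} (hw : 0 < w) (hη : 2 * (w * Real.exp w / V) * Δ ≤ 1) :
    (1 - 2 * (w * Real.exp w / V) * Δ) * w ≤
      V / Fintype.card α * (M c (w * Real.exp w / V) univ / Z c (w * Real.exp w / V) univ) := by
  have hV0 : 0 < V := by
    obtain ⟨x⟩ := ‹Nonempty α›
    rw [← hV x, Finset.card_pos]
    exact ⟨x, mem_nb.2 ⟨mem_univ _, hr x⟩⟩
  have hVr : (0 : ℝ) < V := by exact_mod_cast hV0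
  have hN : (0 : ℝ) < Fintype.card α := by exact_mod_cast Fintype.card_pos
  obtain ⟨l, hl⟩ : ∃ l, l = w * Real.exp w / V := ⟨_, rfl⟩
  have hl0 : 0 < l := hl ▸ div_pos (mul_pos hw (Real.exp_pos w)) hVr
  have hlV : l * V = w * Real.exp w := by
    rw [hl]
    field_simp
  rw [← hl] at hη ⊢
  obtain ⟨N, hNe⟩ : ∃ N : ℝ, N = Fintype.card α := ⟨_, rfl⟩
  rw [← hNe] at hN ⊢
  obtain ⟨Mu, hMu⟩ : ∃ Mu, Mu = M c l univ := ⟨_, rfl⟩
  obtain ⟨ZZ, hZZ⟩ : ∃ ZZ, ZZ = Z c l univ := ⟨_, rfl⟩
  rw [← hMu, ← hZZ]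
  have hZ1 : 1 ≤ ZZ := hZZ ▸ Z_pos hl0.le univ
  have hMu0 : 0 ≤ Mu := by
    rw [hMu]
    unfold M
    exact Finset.sum_nonneg fun _ _ => by positivity
  rcases hη.lt_or_eq with hη1 | hη1
  swap
  · rw [hη1, sub_self, zero_mul]
    positivity
  have hdis : ∀ x, Disjoint (rem c univ x) (nb c univ x) := by
    intro x
    rw [Finset.disjoint_left]
    intro y hy hy'
    rw [mem_rem] at hy
    rw [mem_nb] at hy'
    exact hy.2 hy'.2
  have huni : ∀ x, (univ : Finset α) = rem c univ x ∪ nb c univ x := by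
    intro x
    ext y
    rw [mem_union, mem_rem, mem_nb]
    simp only [mem_univ, true_and, true_iff]
    tauto
  obtain ⟨wt, hwt⟩ : ∃ wt : α → Finset α → ℝ, wt = fun x D =>
    l ^ D.card * Z c l (TT c (nb c univ x) D) := ⟨_, rfl⟩
  have hwt0 : ∀ x D, 0 < wt x D := by
    intro x D
    rw [hwt]
    exact mul_pos (pow_pos hl0 _) (zero_lt_one.trans_le (Z_pos hl0.le _))
  obtain ⟨a, ha⟩ : ∃ a : α → Finset α → ℝ, a = fun x D =>
    l * (TT c (nb c univ x) D).card := ⟨_, rfl⟩
  obtain ⟨S1, hS1⟩ : ∃ S1, S1 = ∑ x : α, ∑ D ∈ inds c (rem c univ x), wt x D * a x D := ⟨_, rfl⟩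
  have hS0 : ∑ x : α, ∑ D ∈ inds c (rem c univ x), wt x D = N * ZZ := by
    have : ∀ x : α, ∑ D ∈ inds c (rem c univ x), wt x D = ZZ := by
      intro x
      rw [hZZ, hwt]
      conv_rhs => rw [huni x]
      exact (Z_split hs (hdis x) l).symm
    rw [Finset.sum_congr rfl fun x _ => this x, Finset.sum_const, Finset.card_univ, nsmul_eq_mul,
      hNe]
  have hS1' : 0 ≤ S1 := by
    rw [hS1]
    refine Finset.sum_nonneg fun x _ => Finset.sum_nonneg fun D _ => mul_nonneg (hwt0 x D).le ?_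
    rw [ha]
    positivity
  -- first relation
  have hA : (1 - 2 * l * Δ) * S1 ≤ V * Mu := by
    have h1 : ∀ x : α, ∑ I ∈ inds c (univ : Finset α), ((I ∩ nb c univ x).card : ℝ) * l ^ I.card =
        ∑ D ∈ inds c (rem c univ x), l ^ D.card * M c l (TT c (nb c univ x) D) := by
      intro x
      have := M_split hs (hdis x) l
      rw [← huni x] at this
      exact this
    have h2 : ∑ x : α, ∑ I ∈ inds c (univ : Finset α), ((I ∩ nb c univ x).card : ℝ) * l ^ I.card =
        V * Mu := by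
      rw [Finset.sum_comm, hMu]
      unfold M
      rw [Finset.mul_sum]
      refine Finset.sum_congr rfl fun I _ => ?_
      rw [← Finset.sum_mul, ← mul_assoc]
      congr 1
      have h3 : ∀ x : α, ((I ∩ nb c univ x).card : ℝ) = ∑ u ∈ I, if c x u then 1 else 0 := by
        intro x
        rw [Finset.sum_boole]
        congr 2
        ext y
        rw [mem_inter, mem_nb, mem_filter]
        simp
      rw [Finset.sum_congr rfl fun x _ => h3 x, Finset.sum_comm]
      have h4 : ∀ u ∈ I, (∑ x : α, if c x u then (1 : ℝ) else 0) = V := by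
        intro u _
        rw [Finset.sum_boole, ← hV u]
        congr 2
        ext x
        rw [mem_filter, mem_nb]
        exact ⟨fun h => ⟨h.1, hs _ _ h.2⟩, fun h => ⟨h.1, hs _ _ h.2⟩⟩
      rw [Finset.sum_congr rfl h4, Finset.sum_const, nsmul_eq_mul, mul_comm]
    rw [← h2, hS1, Finset.mul_sum]
    refine Finset.sum_le_sum fun x _ => ?_
    rw [h1 x, Finset.mul_sum]
    refine Finset.sum_le_sum fun D _ => ?_
    have h5 := local_mean hr hs hl0.le (TT c (nb c univ x) D) (r x) Δ (by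
      intro u hu
      refine le_trans ?_ (hΔ x u (mem_TT.1 hu).1)
      have : ((TT c (nb c univ x) D).filter fun v => c u v ∧ r x v ≤ r x u) ⊆
          ((nb c univ x).filter fun v => c u v ∧ r x v ≤ r x u) := by
        refine Finset.filter_subset_filter _ ?_
        intro y hy
        exact (mem_TT.1 hy).1
      exact_mod_cast card_le_card this)
    have h6 := mul_le_mul_of_nonneg_left h5 (pow_nonneg hl0.le D.card)
    refine le_trans (le_of_eq ?_) h6
    rw [hwt, ha]
    ring
  -- second relation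
  have hB : ∀ m : ℝ, l * (Real.exp (-m) * ((1 + m) * (N * ZZ) - S1)) ≤ Mu := by
    intro m
    have h1 : Mu = ∑ x : α, ∑ D ∈ inds c (rem c univ x), l * l ^ D.card := by
      rw [hMu, M_eq' hr hs]
      refine Finset.sum_congr rfl fun x _ => ?_
      unfold Z
      rw [Finset.mul_sum]
    rw [h1, ← hS0, hS1, Finset.mul_sum, ← Finset.sum_sub_distrib, Finset.mul_sum, Finset.mul_sum]
    refine Finset.sum_le_sum fun x _ => ?_
    rw [Finset.mul_sum, ← Finset.sum_sub_distrib, Finset.mul_sum, Finset.mul_sum]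
    refine Finset.sum_le_sum fun D _ => ?_
    refine mul_le_mul_of_nonneg_left ?_ hl0.le
    have h2 : wt x D * Real.exp (-(a x D)) ≤ l ^ D.card := by
      rw [hwt, ha]
      have h3 := Z_le_exp_card (c := c) hl0.le (TT c (nb c univ x) D)
      have h4 : Z c l (TT c (nb c univ x) D) * Real.exp (-(l * (TT c (nb c univ x) D).card)) ≤ 1 := by
        rw [Real.exp_neg, ← div_eq_mul_inv, div_le_one (Real.exp_pos _)]
        exact h3
      calc l ^ D.card * Z c l (TT c (nb c univ x) D) *
            Real.exp (-(l * (TT c (nb c univ x) D).card)) =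
            l ^ D.card * (Z c l (TT c (nb c univ x) D) *
              Real.exp (-(l * (TT c (nb c univ x) D).card))) := by ring
        _ ≤ l ^ D.card * 1 := mul_le_mul_of_nonneg_left h4 (by positivity)
        _ = _ := mul_one _
    refine le_trans ?_ h2
    have h3 : Real.exp (-m) * (1 + m - a x D) ≤ Real.exp (-(a x D)) := by
      have h4 := Real.add_one_le_exp (m - a x D)
      calc Real.exp (-m) * (1 + m - a x D) ≤ Real.exp (-m) * Real.exp (m - a x D) :=
            mul_le_mul_of_nonneg_left (by linarith) (Real.exp_pos _).le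
        _ = Real.exp (-(a x D)) := by
            rw [← Real.exp_add]
            congr 1
            ring
    have h4 := mul_le_mul_of_nonneg_left h3 (hwt0 x D).le
    refine le_trans (le_of_eq ?_) h4
    ring
  have hNZ : 0 < N * ZZ := by positivity
  obtain ⟨m, hm⟩ : ∃ m, m = S1 / (N * ZZ) := ⟨_, rfl⟩
  have hB' := hB m
  have e1 : (1 + m) * (N * ZZ) - S1 = N * ZZ := by
    rw [hm]
    field_simp
    ring
  rw [e1] at hB'
  obtain ⟨η, hηe⟩ : ∃ η, η = 2 * l * Δ := ⟨_, rfl⟩
  rw [← hηe] at hη1 hA ⊢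
  obtain ⟨y, hy⟩ : ∃ y, y = V / N * (Mu / ZZ) := ⟨_, rfl⟩
  rw [← hy]
  have hη0 : 0 ≤ η := by
    rw [hηe]
    have : 0 ≤ Δ := by
      obtain ⟨x⟩ := ‹Nonempty α›
      exact le_trans (Nat.cast_nonneg _) (hΔ x x (mem_nb.2 ⟨mem_univ _, hr x⟩))
    positivity
  have h1 : (1 - η) * m ≤ y := by
    rw [hm, hy, ← mul_div_assoc, div_le_iff₀ hNZ]
    refine hA.trans (le_of_eq ?_)
    field_simp
  have h2 : l * V * Real.exp (-m) ≤ y := by
    have h3 : y = V * Mu / (N * ZZ) := by
      rw [hy]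
      field_simp
    rw [h3, le_div_iff₀ hNZ]
    calc l * V * Real.exp (-m) * (N * ZZ) = V * (l * (Real.exp (-m) * (N * ZZ))) := by ring
      _ ≤ V * Mu := mul_le_mul_of_nonneg_left hB' hVr.le
  have h1η : 0 < 1 - η := by linarith
  have hy0 : 0 ≤ y := by
    rw [hy]
    positivity
  obtain ⟨y', hy'⟩ : ∃ y', y' = y / (1 - η) := ⟨_, rfl⟩
  have hy'0 : 0 ≤ y' := hy' ▸ div_nonneg hy0 h1η.le
  have h3 : m ≤ y' := by
    rw [hy', le_div_iff₀ h1η]
    linarith
  have h4 : y ≤ y' := by
    rw [hy', le_div_iff₀ h1η]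
    nlinarith
  have h5 : w * Real.exp w ≤ y' * Real.exp y' := by
    rw [← hlV]
    have h6 : l * V ≤ y * Real.exp m := by
      have := mul_le_mul_of_nonneg_right h2 (Real.exp_pos m).le
      rwa [mul_assoc (l * (V : ℝ)), ← Real.exp_add, neg_add_cancel, Real.exp_zero, mul_one] at this
    refine h6.trans ?_
    exact mul_le_mul h4 (Real.exp_le_exp.2 h3) (Real.exp_pos _).le hy'0
  have h6 := le_of_mul_exp_le hy'0 h5
  rw [hy', le_div_iff₀ h1η] at h6
  linarith

end Pool.Agent.U180.CG
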