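import Pool.Agent.U180.CG.Asym

/-!
# The equation of state
-/

set_option autoImplicit false
set_option linter.unusedSectionVars false

namespace Pool.Agent.U180.CG

open Finset Filter Topology
open Pool.Agent.U180.BC Pool.Agent.Y570.LS

/-- close words -/
def cl (n t : ℕ) (x y : Word n) : Prop := hammingDist x y ≤ t

lemma cl_refl (n t : ℕ) (x : Word n) : cl n t x x := by
  unfold cl
  simp

lemma cl_symm (n t : ℕ) (x y : Word n) (h : cl n t x y) : cl n t y x := by
  unfold cl at *
  rwa [hammingDist_comm]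

lemma card_word (n : ℕ) : ((univ : Finset (Word n)).card : ℝ) = 2 ^ n := by
  rw [card_univ, Fintype.card_fun, Fintype.card_bool, Fintype.card_fin]
  push_cast
  rfl

/-- the pressure of the gas of codes -/
noncomputable def prs (n t : ℕ) (w : ℝ) : ℝ := pr (cl n t) univ (2 ^ n) (ball n t) w

/-- the density of the gas of codes -/
noncomputable def den (n t : ℕ) (w : ℝ) : ℝ := de (cl n t) univ (2 ^ n) (ball n t) w

lemma ball_pos (n t : ℕ) : (0 : ℝ) < ball n t := by
  unfold ball
  have : 0 < ∑ i ∈ range (t + 1), n.choose i :=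
    Finset.sum_pos' (fun _ _ => Nat.zero_le _) ⟨0, by simp, by simp⟩
  exact_mod_cast this

/-- explicit upper bound for the pressure -/
theorem prs_le {n t : ℕ} (ht : Even t) (htn : 2 * t ≤ n) {κ : ℝ} (hκ : 0 ≤ κ)
    (hs : ∀ s : ℕ, 1 ≤ s → s ≤ n → ((n : ℝ) + 1 - 2 * s) ^ 2 < 4 * (t : ℝ) * ((n : ℝ) - t) →
      (2 : ℝ) ^ n ≤ κ ^ 2 * ball n t * n.choose s) {w : ℝ} (hw : 0 < w)
    (hw1 : w * Real.exp w / ball n t ≤ 1 / 2) :
    prs n t w ≤ w + w ^ 2 / 2 + 2 * (κ + w / ball n t) * (w * Real.exp w) :=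
  pressure_le (cl_refl n t) (cl_symm n t) (by positivity) (ball_pos n t) hκ hw hw1
    (fun K hK => super ht htn hκ hs K hK) univ (card_word n)

/-- explicit lower bound for the density -/
theorem den_ge {n t : ℕ} (htn : t ≤ n) {z : ℝ} (hz : 0 < z) (hz1 : z ≤ 1) {w : ℝ} (hw : 0 < w)
    (hη : 2 * (w * Real.exp w / ball n t) * (2 ^ t * (z ^ t)⁻¹ * (1 + z ^ 2) ^ (n - t)) ≤ 1) :
    (1 - 2 * (w * Real.exp w / ball n t) * (2 ^ t * (z ^ t)⁻¹ * (1 + z ^ 2) ^ (n - t))) * w ≤
      den n t w := by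
  classical
  have h := mean_ge (cl_refl n t) (cl_symm n t) (nb_card (n := n) t) (fun x y => hammingDist x y)
    (2 ^ t * (z ^ t)⁻¹ * (1 + z ^ 2) ^ (n - t)) (fun x u hu => by
      have h := sparse htn hz hz1 x u hu
      unfold cl
      convert h) hw hη
  have e : ((Fintype.card (Word n) : ℕ) : ℝ) = 2 ^ n := by
    rw [← card_univ]
    exact card_word n
  rw [e] at h
  exact h

lemma den_nonneg (n t : ℕ) {w : ℝ} (hw : 0 < w) : 0 ≤ den n t w := by
  unfold den de
  have hb := ball_pos n t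
  have hx : 0 < w * Real.exp w / ball n t := by positivity
  have h1 := Z_pos (c := cl n t) hx.le univ
  have h2 : 0 ≤ M (cl n t) (w * Real.exp w / ball n t) univ := by
    unfold M
    exact Finset.sum_nonneg fun _ _ => by positivity
  positivity

lemma prs_nonneg (n t : ℕ) {w : ℝ} (hw : 0 < w) : 0 ≤ prs n t w := by
  unfold prs pr
  have hb := ball_pos n t
  have hx : 0 < w * Real.exp w / ball n t := by positivity
  have h1 := Real.log_nonneg (Z_pos (c := cl n t) hx.le univ)
  positivity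

/-- the optimal parameter -/
noncomputable def zz (δ : ℝ) : ℝ := √(δ / (2 * (1 - δ)) / (1 - δ / (2 * (1 - δ))))

lemma zz_spec {δ : ℝ} (h0 : 0 < δ) (h1 : δ < 1 / 2) : 0 < zz δ ∧ zz δ ≤ 1 ∧
    δ * Real.log 2 - δ * Real.log (zz δ) + (1 - δ) * Real.log (1 + zz δ ^ 2) =
      δ * Real.log 2 + (1 - δ) * h (δ / (2 * (1 - δ))) := by
  have hd : 0 < 1 - δ := by linarith
  obtain ⟨x, hx⟩ : ∃ x, x = δ / (2 * (1 - δ)) := ⟨_, rfl⟩
  have hx0 : 0 < x := by
    rw [hx]
    positivity
  have hx1 : x < 1 / 2 := by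
    rw [hx, div_lt_div_iff₀ (by linarith) (by norm_num)]
    linarith
  have h1x : 0 < 1 - x := by linarith
  have hq : 0 < x / (1 - x) := by positivity
  have hz : zz δ = √(x / (1 - x)) := by
    unfold zz
    rw [hx]
  have hz2 : zz δ ^ 2 = x / (1 - x) := by
    rw [hz, Real.sq_sqrt hq.le]
  have hzpos : 0 < zz δ := by
    rw [hz]
    exact Real.sqrt_pos.2 hq
  refine ⟨hzpos, ?_, ?_⟩
  · rw [hz]
    refine Real.sqrt_le_one.2 ?_
    rw [div_le_one h1x]
    linarith
  · have e1 : 1 + zz δ ^ 2 = (1 - x)⁻¹ := by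
      rw [hz2]
      field_simp
      ring
    have e2 : Real.log (zz δ) = (Real.log x - Real.log (1 - x)) / 2 := by
      rw [hz, Real.log_sqrt hq.le, Real.log_div hx0.ne' h1x.ne']
    have e3 : δ = 2 * (1 - δ) * x := by
      rw [hx]
      field_simp
    rw [← hx, e1, e2, Real.log_inv]
    unfold h Real.binEntropy
    rw [Real.log_inv, Real.log_inv]
    have e4 : δ * ((Real.log x - Real.log (1 - x)) / 2) =
        (1 - δ) * x * (Real.log x - Real.log (1 - x)) := by
      conv_lhs => rw [e3]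
      ring
    linear_combination -e4

/-- the local sparsity constant -/
noncomputable def Dl (n t : ℕ) (z : ℝ) : ℝ := 2 ^ t * (z ^ t)⁻¹ * (1 + z ^ 2) ^ (n - t)

lemma Dl_asym {δ : ℝ} (h0 : 0 < δ) (h1 : δ < 1 / 2) {ε : ℝ} (hε : 0 < ε) :
    ∃ η : ℝ, 0 < η ∧ ∀ n t : ℕ, t ≤ n → |(t : ℝ) - δ * n| ≤ η * n →
      Dl n t (zz δ) ≤ Real.exp ((h δ - X2 δ + ε) * n) := by
  obtain ⟨hz0, hz1, hz⟩ := zz_spec h0 h1
  obtain ⟨z, hze⟩ : ∃ z, z = zz δ := ⟨_, rfl⟩
  rw [← hze] at hz0 hz1 hz ⊢
  obtain ⟨B, hB⟩ : ∃ B, B = Real.log 2 - Real.log z - Real.log (1 + z ^ 2) := ⟨_, rfl⟩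
  refine ⟨ε / (|B| + 1), by positivity, fun n t htn ht => ?_⟩
  have hz2 : (0 : ℝ) < 1 + z ^ 2 := by positivity
  have e1 : Dl n t z = Real.exp (t * Real.log 2 - t * Real.log z + (n - t) * Real.log (1 + z ^ 2)) := by
    unfold Dl
    rw [Real.exp_add, Real.exp_sub, Real.exp_nat_mul, Real.exp_nat_mul, Real.exp_log (by norm_num),
      Real.exp_log hz0, ← Nat.cast_sub htn, Real.exp_nat_mul, Real.exp_log hz2]
    rfl
  rw [e1, Real.exp_le_exp]
  have e2 : h δ - X2 δ = δ * Real.log 2 + (1 - δ) * h (δ / (2 * (1 - δ))) := by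
    unfold X2
    ring
  rw [e2, ← hz]
  have e3 : (t : ℝ) * Real.log 2 - t * Real.log z + (n - t) * Real.log (1 + z ^ 2) =
      (δ * Real.log 2 - δ * Real.log z + (1 - δ) * Real.log (1 + z ^ 2)) * n +
        (t - δ * n) * B := by
    rw [hB]
    ring
  rw [e3]
  have h3 : (t - δ * n) * B ≤ ε * n := by
    calc (t - δ * n) * B ≤ |(t - δ * n) * B| := le_abs_self _
      _ = |t - δ * n| * |B| := abs_mul _ _
      _ ≤ (ε / (|B| + 1) * n) * |B| := mul_le_mul_of_nonneg_right ht (abs_nonneg _)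
      _ ≤ (ε / (|B| + 1) * n) * (|B| + 1) := by
        refine mul_le_mul_of_nonneg_left (by linarith) (by positivity)
      _ = ε * n := by
        field_simp
  linarith

/-- large `n` -/
lemma exp_small {a C : ℝ} (ha : 0 < a) (hC : 0 < C) : ∀ᶠ n : ℕ in atTop,
    Real.exp (-(a * n)) ≤ C := by
  have hc : Tendsto (fun n : ℕ => a * (n : ℝ)) atTop atTop :=
    Tendsto.const_mul_atTop ha tendsto_natCast_atTop_atTop
  have h1 : Tendsto (fun n : ℕ => Real.exp (-(a * n))) atTop (𝓝 0) := by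
    have := (Real.tendsto_pow_mul_exp_neg_atTop_nhds_zero 0).comp hc
    simpa [Function.comp_def] using this
  exact h1.eventually_le_const hC

/-- **The equation of state.** -/
theorem state {δ : ℝ} (h0 : 0 < δ) (h1 : δ < 1 / 2) {ε : ℝ} (hε : 0 < ε) :
    ∃ η : ℝ, 0 < η ∧ ∃ n₀ : ℕ, ∀ n : ℕ, n₀ ≤ n → ∀ t : ℕ, Even t → |(t : ℝ) - δ * n| ≤ η * n →
      ∀ w : ℝ, 0 < w → w * Real.exp w ≤ Real.exp ((XX δ - ε) * n) →
        |den n t w - w| ≤ ε * w ∧ |prs n t w - (w + w ^ 2 / 2)| ≤ ε * (w + w ^ 2 / 2) := by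
  wlog hε1 : ε ≤ min 1 (XX δ) generalizing ε with H
  · have hX := XX_pos h0 h1
    obtain ⟨η, hη, n₀, hn₀⟩ := H (ε := min 1 (XX δ)) (lt_min one_pos hX) le_rfl
    push Not at hε1
    refine ⟨η, hη, n₀, fun n hn t ht ht' w hw hwX => ?_⟩
    obtain ⟨k1, k2⟩ := hn₀ n hn t ht ht' w hw (hwX.trans (Real.exp_le_exp.2
      (mul_le_mul_of_nonneg_right (by linarith) (Nat.cast_nonneg n))))
    exact ⟨k1.trans (mul_le_mul_of_nonneg_right hε1.le hw.le),
      k2.trans (mul_le_mul_of_nonneg_right hε1.le (by positivity))⟩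
  have hε2 : ε ≤ 1 := hε1.trans (min_le_left _ _)
  have hεX : ε ≤ XX δ := hε1.trans (min_le_right _ _)
  have hX := XX_pos h0 h1
  have hXX1 : XX δ ≤ X1 δ := min_le_left _ _
  have hXX2 : XX δ ≤ X2 δ := min_le_right _ _
  have hX2h := X2_le h0 h1
  have hhl : h δ ≤ 1 := by
    have h3 : h δ ≤ Real.log 2 := Real.binEntropy_le_log_two
    linarith [Real.log_two_lt_d9]
  obtain ⟨τ, hτ⟩ : ∃ τ, τ = ε / 4 := ⟨_, rfl⟩
  obtain ⟨dd, hdd⟩ : ∃ dd, dd = τ ^ 2 / 8 := ⟨_, rfl⟩
  have hτ0 : 0 < τ := by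
    rw [hτ]
    positivity
  have hdd0 : 0 < dd := by
    rw [hdd]
    positivity
  obtain ⟨e8, he8⟩ : ∃ e8, e8 = ε / 16 := ⟨_, rfl⟩
  have he80 : 0 < e8 := by
    rw [he8]
    positivity
  obtain ⟨η₁, hη₁, A1⟩ := vol_asym h0 h1 he80
  obtain ⟨η₂, hη₂, A2⟩ := mid_asym h0 h1 he80
  obtain ⟨η₃, hη₃, A3⟩ := Dl_asym h0 h1 he80
  refine ⟨min η₁ (min η₂ η₃), lt_min hη₁ (lt_min hη₂ hη₃), ?_⟩
  obtain ⟨n₀, hn₀⟩ := eventually_atTop.1 ((((A1.and A2).and (eventually_ge_atTop 2)).and
    (exp_small (a := e8) (C := dd / 16) he80 (by positivity))))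
  refine ⟨n₀, fun n hn t hte ht w hw hwX => ?_⟩
  obtain ⟨⟨⟨B1, B2⟩, hn2⟩, B4⟩ := hn₀ n hn
  have hn2' : (2 : ℝ) ≤ n := by exact_mod_cast hn2
  have hn0 : (0 : ℝ) < n := by linarith
  have hmin1 : min η₁ (min η₂ η₃) ≤ η₁ := min_le_left _ _
  have hmin2 : min η₁ (min η₂ η₃) ≤ η₂ := (min_le_right _ _).trans (min_le_left _ _)
  have hmin3 : min η₁ (min η₂ η₃) ≤ η₃ := (min_le_right _ _).trans (min_le_right _ _)
  obtain ⟨C1, C2, C3, C4⟩ := B1 t (ht.trans (mul_le_mul_of_nonneg_right hmin1 hn0.le))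
  have C5 := B2 t (ht.trans (mul_le_mul_of_nonneg_right hmin2 hn0.le))
  have C6 := A3 n t (by omega) (ht.trans (mul_le_mul_of_nonneg_right hmin3 hn0.le))
  obtain ⟨hz0, hz1, -⟩ := zz_spec h0 h1
  have hb := ball_pos n t
  -- the range of `v`
  have hrange : ∀ v, 0 < v → v ≤ (1 + τ) * w → v * Real.exp v ≤ Real.exp ((XX δ - ε / 2) * n) := by
    intro v hv hvw
    have hwn : w ≤ 1 + n := by
      rcases le_or_gt w 1 with h | h
      · linarith
      · have h3 : Real.exp w ≤ Real.exp ((XX δ - ε) * n) := by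
          refine le_trans ?_ hwX
          exact le_mul_of_one_le_left (Real.exp_pos w).le h.le
        rw [Real.exp_le_exp] at h3
        have : (XX δ - ε) * n ≤ 1 * n := mul_le_mul_of_nonneg_right (by linarith) hn0.le
        linarith
    refine (mul_exp_le hv.le hvw).trans ?_
    have h1 : 1 + τ ≤ Real.exp τ := by
      have := Real.add_one_le_exp τ
      linarith
    calc (1 + τ) * w * Real.exp ((1 + τ) * w) = (1 + τ) * (w * Real.exp w) * Real.exp (τ * w) := by
          have : (1 + τ) * w = w + τ * w := by ring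
          rw [this, Real.exp_add]
          ring
      _ ≤ Real.exp τ * Real.exp ((XX δ - ε) * n) * Real.exp (τ * w) := by
          refine mul_le_mul_of_nonneg_right ?_ (Real.exp_pos _).le
          exact mul_le_mul h1 hwX (by positivity) (Real.exp_pos _).le
      _ = Real.exp (τ + (XX δ - ε) * n + τ * w) := by rw [Real.exp_add, Real.exp_add]
      _ ≤ Real.exp ((XX δ - ε / 2) * n) := by
          rw [Real.exp_le_exp]
          have h2 : τ * w ≤ τ * (1 + n) := mul_le_mul_of_nonneg_left hwn hτ0.le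
          have h3 : τ * (2 + n) ≤ ε / 2 * n := by
            rw [hτ]
            nlinarith
          nlinarith
  -- the exponentials
  have hrange1 : ∀ v, 0 < v → v * Real.exp v ≤ Real.exp ((XX δ - ε / 2) * n) →
      Real.exp v ≤ 3 * Real.exp ((XX δ - ε / 2) * n) := by
    intro v hv hvX
    rcases le_or_gt v 1 with h | h
    · have h3 : Real.exp v ≤ 3 := by
        have := Real.exp_le_exp.2 h
        linarith [Real.exp_one_lt_d9]
      have h4 : 1 ≤ Real.exp ((XX δ - ε / 2) * n) := by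
        rw [Real.one_le_exp_iff]
        exact mul_nonneg (by linarith) hn0.le
      linarith
    · have h3 : Real.exp v ≤ Real.exp ((XX δ - ε / 2) * n) := by
        refine le_trans ?_ hvX
        exact le_mul_of_one_le_left (Real.exp_pos v).le h.le
      have := Real.exp_pos ((XX δ - ε / 2) * n)
      linarith
  have hVinv : ∀ v, 0 < v → v * Real.exp v ≤ Real.exp ((XX δ - ε / 2) * n) →
      v * Real.exp v / ball n t ≤ Real.exp (-((h δ - XX δ + 2 * e8) * n)) := by
    intro v hv hvX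
    rw [div_le_iff₀ hb]
    refine hvX.trans ?_
    calc Real.exp ((XX δ - ε / 2) * n) ≤
          Real.exp (-((h δ - XX δ + 2 * e8) * n)) * Real.exp ((h δ - e8) * n) := by
          rw [← Real.exp_add, Real.exp_le_exp]
          rw [he8]
          nlinarith
      _ ≤ _ := mul_le_mul_of_nonneg_left C1 (Real.exp_pos _).le
  have hsmall : Real.exp (-((2 * e8) * n)) ≤ dd / 16 := by
    refine le_trans ?_ B4
    rw [Real.exp_le_exp]
    nlinarith
  refine state_pure hε hε2 hτ hdd (fun v hv => den_nonneg n t hv) (fun v hv => prs_nonneg n t hv)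
    (fun a b ha hab => (incr5 (by positivity) hb univ ha hab).1) hw ?_ ?_
  · intro v hv hvw
    have hvX := hrange v hv (hvw.trans (by nlinarith))
    have h3 := hVinv v hv hvX
    have h4 : 2 * (v * Real.exp v / ball n t) * Dl n t (zz δ) ≤ dd := by
      have h5 : v * Real.exp v / ball n t * Dl n t (zz δ) ≤
          Real.exp (-((h δ - XX δ + 2 * e8) * n)) * Real.exp ((h δ - X2 δ + e8) * n) := by
        refine mul_le_mul h3 C6 ?_ (Real.exp_pos _).le
        unfold Dl
        positivity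
      have h6 : Real.exp (-((h δ - XX δ + 2 * e8) * n)) * Real.exp ((h δ - X2 δ + e8) * n) ≤
          Real.exp (-(e8 * n)) := by
        rw [← Real.exp_add, Real.exp_le_exp]
        nlinarith
      have h7 := (h5.trans h6).trans B4
      linarith
    have h5 := den_ge (n := n) (t := t) (by omega) hz0 hz1 hv (by
      show 2 * (v * Real.exp v / ball n t) * Dl n t (zz δ) ≤ 1
      have : dd ≤ 1 := by
        rw [hdd, hτ]
        nlinarith
      linarith)
    refine le_trans ?_ h5
    refine mul_le_mul_of_nonneg_right ?_ hv.le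
    show 1 - dd ≤ 1 - 2 * (v * Real.exp v / ball n t) * Dl n t (zz δ)
    linarith
  · intro v hv hvw
    have hvX := hrange v hv hvw
    have h3 := hVinv v hv hvX
    have h3' : v * Real.exp v / ball n t ≤ dd / 16 := by
      refine h3.trans (le_trans ?_ hsmall)
      rw [Real.exp_le_exp]
      nlinarith
    have hdd1 : dd ≤ 1 := by
      rw [hdd, hτ]
      nlinarith
    have hκ := prs_le (n := n) (t := t) hte C3 (κ := Real.exp (-((X1 δ - 2 * e8) * n)))
      (Real.exp_pos _).le (by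
        intro s hs1 hsn hs
        have h4 := C5 s hs1 hsn hs
        have e2 : (2 : ℝ) ^ n = Real.exp (Real.log 2 * n) := by
          rw [mul_comm, Real.exp_nat_mul, Real.exp_log (by norm_num)]
        have e3 : Real.exp (-((X1 δ - 2 * e8) * n)) ^ 2 = Real.exp (-(2 * (X1 δ - 2 * e8) * n)) := by
          rw [← Real.exp_nat_mul]
          congr 1
          push_cast
          ring
        rw [e2, e3]
        calc Real.exp (Real.log 2 * n) ≤ Real.exp (-(2 * (X1 δ - 2 * e8) * n)) *
              Real.exp ((h δ - e8) * n) *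
                Real.exp ((h (1 / 2 - √(δ * (1 - δ))) - e8) * n) := by
              rw [← Real.exp_add, ← Real.exp_add, Real.exp_le_exp]
              have e4 : 2 * X1 δ = h δ + h (1 / 2 - √(δ * (1 - δ))) - Real.log 2 := by
                unfold X1
                ring
              have e5 : -(2 * (X1 δ - 2 * e8) * n) + (h δ - e8) * n +
                  (h (1 / 2 - √(δ * (1 - δ))) - e8) * n =
                  (-(2 * X1 δ) + 2 * e8 + h δ + h (1 / 2 - √(δ * (1 - δ)))) * n := by ring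
              rw [e5, e4]
              nlinarith
          _ ≤ _ := by
              refine mul_le_mul (mul_le_mul_of_nonneg_left C1 (Real.exp_pos _).le) h4
                (Real.exp_pos _).le (by positivity)) hv (by linarith)
    refine hκ.trans ?_
    have h5 : 2 * (Real.exp (-((X1 δ - 2 * e8) * n)) + v / ball n t) * (v * Real.exp v) ≤
        dd * v := by
      have h6 : Real.exp (-((X1 δ - 2 * e8) * n)) * Real.exp v ≤ 3 * (dd / 16) := by
        calc Real.exp (-((X1 δ - 2 * e8) * n)) * Real.exp v ≤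
              Real.exp (-((X1 δ - 2 * e8) * n)) * (3 * Real.exp ((XX δ - ε / 2) * n)) :=
              mul_le_mul_of_nonneg_left (hrange1 v hv hvX) (Real.exp_pos _).le
          _ = 3 * Real.exp (-((X1 δ - 2 * e8) * n) + (XX δ - ε / 2) * n) := by
              rw [Real.exp_add]
              ring
          _ ≤ 3 * (dd / 16) := by
              refine mul_le_mul_of_nonneg_left (le_trans ?_ B4) (by norm_num)
              rw [Real.exp_le_exp, he8]
              nlinarith
      have h7 : v / ball n t * (v * Real.exp v) = v * (v * Real.exp v / ball n t) := by ring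
      have h8 : v * (v * Real.exp v / ball n t) ≤ v * (dd / 16) :=
        mul_le_mul_of_nonneg_left h3' hv.le
      calc 2 * (Real.exp (-((X1 δ - 2 * e8) * n)) + v / ball n t) * (v * Real.exp v) =
            2 * (v * (Real.exp (-((X1 δ - 2 * e8) * n)) * Real.exp v)) +
              2 * (v / ball n t * (v * Real.exp v)) := by ring
        _ ≤ 2 * (v * (3 * (dd / 16))) + 2 * (v * (dd / 16)) := by
            rw [h7]
            have := mul_le_mul_of_nonneg_left h6 hv.le
            linarith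
        _ ≤ dd * v := by nlinarith
    have : 0 ≤ dd * (v ^ 2 / 2) := by positivity
    linarith

end Pool.Agent.U180.CG
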