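import Pool.Agent.U180.CG.Low
import Pool.Agent.N490.HG.Asm2Pure

/-!
# The pressure and the density
-/

set_option autoImplicit false
set_option linter.unusedSectionVars false

namespace Pool.Agent.U180.CG

open Finset

section
variable {α : Type} [DecidableEq α] {c : α → α → Prop}

lemma jensen {l : ℝ} (hl : 0 < l) (t : ℝ) (K : Finset α) :
    Real.log (Z c l K) + t * (M c l K / Z c l K) ≤ Real.log (Z c (l * Real.exp t) K) := by
  have hZ : 0 < Z c l K := zero_lt_one.trans_le (Z_pos hl.le K)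
  have hZ' : 0 < Z c (l * Real.exp t) K :=
    zero_lt_one.trans_le (Z_pos (mul_pos hl (Real.exp_pos t)).le K)
  obtain ⟨m, hm⟩ : ∃ m, m = t * (M c l K / Z c l K) := ⟨_, rfl⟩
  rw [← hm, Real.le_log_iff_exp_le hZ', Real.exp_add, Real.exp_log hZ]
  have h1 : ∀ I ∈ inds c K, l ^ I.card * (Real.exp m * (1 - m) + Real.exp m * t * I.card) ≤
      (l * Real.exp t) ^ I.card := by
    intro I _
    rw [mul_pow]
    refine mul_le_mul_of_nonneg_left ?_ (by positivity)
    rw [← Real.exp_nat_mul]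
    have h2 := Real.add_one_le_exp (I.card * t - m)
    calc Real.exp m * (1 - m) + Real.exp m * t * I.card = Real.exp m * (I.card * t - m + 1) := by
          ring
      _ ≤ Real.exp m * Real.exp (I.card * t - m) :=
          mul_le_mul_of_nonneg_left h2 (Real.exp_pos m).le
      _ = Real.exp (I.card * t) := by
          rw [← Real.exp_add]
          congr 1
          ring
  have h2 := Finset.sum_le_sum h1
  have e1 : ∑ I ∈ inds c K, l ^ I.card * (Real.exp m * (1 - m) + Real.exp m * t * I.card) =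
      Real.exp m * (1 - m) * Z c l K + Real.exp m * t * M c l K := by
    unfold Z M
    rw [Finset.mul_sum, Finset.mul_sum, ← Finset.sum_add_distrib]
    refine Finset.sum_congr rfl fun I _ => ?_
    ring
  rw [e1] at h2
  have e2 : t * M c l K = m * Z c l K := by
    rw [hm]
    field_simp
  have h3 : Z c l K * Real.exp m = Real.exp m * (1 - m) * Z c l K + Real.exp m * t * M c l K := by
    have : Real.exp m * t * M c l K = Real.exp m * (t * M c l K) := by ring
    rw [this, e2]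
    ring
  rw [h3]
  exact h2

/-- the pressure -/
noncomputable def pr (c : α → α → Prop) (K : Finset α) (N V w : ℝ) : ℝ :=
  V / N * Real.log (Z c (w * Real.exp w / V) K)

/-- the density -/
noncomputable def de (c : α → α → Prop) (K : Finset α) (N V w : ℝ) : ℝ :=
  V / N * (M c (w * Real.exp w / V) K / Z c (w * Real.exp w / V) K)

lemma incr5 {N V : ℝ} (hN : 0 < N) (hV : 0 < V) (K : Finset α) {a b : ℝ} (ha : 0 < a)
    (hab : a ≤ b) :
    (Real.log (b / a) + (b - a)) * de c K N V a ≤ pr c K N V b - pr c K N V a ∧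
      pr c K N V b - pr c K N V a ≤ (Real.log (b / a) + (b - a)) * de c K N V b := by
  have hb : 0 < b := ha.trans_le hab
  have hxa : 0 < a * Real.exp a / V := by positivity
  have hxb : 0 < b * Real.exp b / V := by positivity
  obtain ⟨t, ht⟩ : ∃ t, t = Real.log (b / a) + (b - a) := ⟨_, rfl⟩
  have e1 : a * Real.exp a / V * Real.exp t = b * Real.exp b / V := by
    rw [ht, Real.exp_add, Real.exp_log (by positivity), Real.exp_sub]
    field_simp
  have e2 : b * Real.exp b / V * Real.exp (-t) = a * Real.exp a / V := by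
    rw [← e1, mul_assoc, ← Real.exp_add, add_neg_cancel, Real.exp_zero, mul_one]
  have h1 := jensen (c := c) hxa t K
  have h2 := jensen (c := c) hxb (-t) K
  rw [e1] at h1
  rw [e2] at h2
  rw [← ht]
  have hVN : 0 < V / N := by positivity
  unfold pr de
  constructor
  · have h3 := mul_le_mul_of_nonneg_left h1 hVN.le
    linarith
  · have h3 := mul_le_mul_of_nonneg_left h2 hVN.le
    linarith

end

open Pool.Agent.N490.HG in
/-- uniform asymptotics from one-sided bounds -/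
theorem state_pure {ε τ δ : ℝ} (hε : 0 < ε) (hε1 : ε ≤ 1) (hτ : τ = ε / 4) (hδ : δ = τ ^ 2 / 8)
    {y p : ℝ → ℝ} (H1 : ∀ w, 0 < w → 0 ≤ y w) (H2 : ∀ w, 0 < w → 0 ≤ p w)
    (H5 : ∀ a b, 0 < a → a ≤ b → (Real.log (b / a) + (b - a)) * y a ≤ p b - p a)
    {w : ℝ} (hw : 0 < w) (H3 : ∀ v, 0 < v → v ≤ w → (1 - δ) * v ≤ y v)
    (H4 : ∀ v, 0 < v → v ≤ (1 + τ) * w → p v ≤ (1 + δ) * (v + v ^ 2 / 2)) :
    |y w - w| ≤ ε * w ∧ |p w - (w + w ^ 2 / 2)| ≤ ε * (w + w ^ 2 / 2) := by
  have hτ0 : 0 < τ := by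
    rw [hτ]
    positivity
  have hτ1 : τ ≤ 1 / 4 := by linarith
  have hδ0 : 0 < δ := by
    rw [hδ]
    positivity
  have hδ1 : δ ≤ 1 := by nlinarith
  have hL : (1 - δ) * (w + w ^ 2 / 2) ≤ p w :=
    lower (W := w) hδ0.le hδ1 H2 H3 H5 hw le_rfl
  have hUw : p w ≤ (1 + δ) * (w + w ^ 2 / 2) := H4 w hw (by nlinarith)
  have hyL : (1 - δ) * w ≤ y w := H3 w hw le_rfl
  have hb : p ((1 + τ) * w) ≤ (1 + δ) * ((1 + τ) * w + ((1 + τ) * w) ^ 2 / 2) :=
    H4 _ (by positivity) le_rfl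
  have h5 := H5 w ((1 + τ) * w) hw (by nlinarith)
  have hlog : τ / (1 + τ) ≤ Real.log ((1 + τ) * w / w) := by
    have h := log_ratio hw (show (0 : ℝ) < (1 + τ) * w by positivity)
    refine le_trans (le_of_eq ?_) h
    field_simp
    ring
  have hy0 := H1 w hw
  have h6 : τ / (1 + τ) * (1 + w) * y w ≤ p ((1 + τ) * w) - p w := by
    refine le_trans ?_ h5
    refine mul_le_mul_of_nonneg_right ?_ hy0
    have h7 : τ / (1 + τ) ≤ τ := div_le_self hτ0.le (by linarith)
    have h8 : τ / (1 + τ) * w ≤ τ * w := mul_le_mul_of_nonneg_right h7 hw.le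
    have h9 : (1 + τ) * w - w = τ * w := by ring
    rw [h9]
    linarith
  have h7 : p ((1 + τ) * w) - p w ≤ τ * w * ((1 + τ) * (1 + w)) := by
    have h8 : δ * ((1 + τ) * w + ((1 + τ) * w) ^ 2 / 2) ≤ τ ^ 2 / 4 * (w + w ^ 2 / 2) := by
      have h9 : (1 + τ) * w + ((1 + τ) * w) ^ 2 / 2 ≤ 2 * (w + w ^ 2 / 2) := by
        have : (1 + τ) ^ 2 ≤ 2 := by nlinarith
        have h10 : (1 + τ) ^ 2 * w ^ 2 ≤ 2 * w ^ 2 := mul_le_mul_of_nonneg_right this (sq_nonneg w)
        nlinarith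
      calc δ * ((1 + τ) * w + ((1 + τ) * w) ^ 2 / 2) ≤ δ * (2 * (w + w ^ 2 / 2)) :=
            mul_le_mul_of_nonneg_left h9 hδ0.le
        _ = τ ^ 2 / 4 * (w + w ^ 2 / 2) := by rw [hδ]; ring
    have h9 : δ * (w + w ^ 2 / 2) ≤ τ ^ 2 / 4 * (w + w ^ 2 / 2) := by
      refine mul_le_mul_of_nonneg_right ?_ (by positivity)
      rw [hδ]
      nlinarith [sq_nonneg τ]
    nlinarith [mul_pos hτ0 hw, mul_pos (mul_pos hτ0 hw) hw, mul_pos (mul_pos hτ0 hτ0) hw,
      mul_pos (mul_pos (mul_pos hτ0 hτ0) hw) hw]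
  have hyU : y w ≤ (1 + τ) ^ 2 * w := by
    have h8 := h6.trans h7
    have h9 : 0 < τ / (1 + τ) * (1 + w) := by positivity
    have h10 : τ * w * ((1 + τ) * (1 + w)) = τ / (1 + τ) * (1 + w) * ((1 + τ) ^ 2 * w) := by
      field_simp
    rw [h10] at h8
    exact le_of_mul_le_mul_left h8 h9
  have hδε : δ ≤ ε := by nlinarith
  have ht3 : (1 + τ) ^ 2 ≤ 1 + ε := by nlinarith
  have hΦ : 0 ≤ w + w ^ 2 / 2 := by positivity
  constructor
  · rw [abs_le]
    constructor
    · nlinarith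
    · nlinarith
  · rw [abs_le]
    constructor
    · nlinarith
    · nlinarith

end Pool.Agent.U180.CG
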