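import Pool.Agent.U180.CG.Walsh
import Pool.Agent.U180.CG.Thermo

/-!
# Binary codes: supersaturation and local sparsity
-/

set_option autoImplicit false
set_option linter.unusedSectionVars false

namespace Pool.Agent.U180.CG

open Finset
open Pool.Agent.U180.BC

variable {n : ℕ}

lemma ev_empty (t : ℕ) : ev t (∅ : Finset (Fin n)) = ball n t := by
  unfold ev chi
  simp only [Finset.prod_empty]
  rw [Finset.sum_const, nsmul_eq_mul, mul_one]
  congr 1
  have h := card_wt_lt n (t + 1)
  unfold ball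
  rw [← h]
  congr 1
  ext v
  simp only [mem_filter, mem_univ, true_and]
  omega

lemma ft_empty (K : Finset (Word n)) : ft K ∅ = K.card := by
  unfold ft chi
  simp

/-- all the eigenvalues -/
lemma ev_ge {t : ℕ} (ht : Even t) (htn : 2 * t ≤ n) {κ : ℝ} (hκ : 0 ≤ κ)
    (hs : ∀ s : ℕ, 1 ≤ s → s ≤ n → ((n : ℝ) + 1 - 2 * s) ^ 2 < 4 * (t : ℝ) * ((n : ℝ) - t) →
      (2 : ℝ) ^ n ≤ κ ^ 2 * ball n t * n.choose s) {S : Finset (Fin n)} (hS : S.Nonempty) :
    -(κ * ball n t) ≤ ev t S := by
  have hκV : 0 ≤ κ * ball n t := by positivity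
  rcases le_or_gt (4 * (t : ℝ) * ((n : ℝ) - t)) (((n : ℝ) + 1 - 2 * S.card) ^ 2) with h | h
  · have := ev_nonneg ht htn hS h
    linarith
  · have hS1 : 1 ≤ S.card := hS.card_pos
    have hSn : S.card ≤ n := by
      have := card_le_univ S
      rwa [Fintype.card_fin] at this
    have h1 := hs S.card hS1 hSn h
    have h2 := parseval (univ.filter (fun z : Word n => wt z ≤ t))
    have h3 : ((univ.filter (fun z : Word n => wt z ≤ t)).card : ℝ) = ball n t := by
      rw [← ev_empty t]
      unfold ev chi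
      simp
    have h4 : ∀ S' : Finset (Fin n), ft (univ.filter (fun z : Word n => wt z ≤ t)) S' = ev t S' :=
      fun S' => rfl
    simp only [h4, h3] at h2
    have h5 : (n.choose S.card : ℝ) * ev t S ^ 2 ≤ (2 : ℝ) ^ n * ball n t := by
      rw [← h2]
      have h6 : ∑ S' ∈ (univ : Finset (Fin n)).powersetCard S.card, ev t S' ^ 2 =
          (n.choose S.card : ℝ) * ev t S ^ 2 := by
        rw [Finset.sum_congr rfl (g := fun _ => ev t S ^ 2), Finset.sum_const,
          card_powersetCard, card_univ, Fintype.card_fin, nsmul_eq_mul]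
        intro S' hS'
        rw [mem_powersetCard] at hS'
        rw [ev_card t hS'.2]
      rw [← h6]
      exact Finset.sum_le_sum_of_subset_of_nonneg (subset_univ _) fun _ _ _ => sq_nonneg _
    have hc : (0 : ℝ) < n.choose S.card := by exact_mod_cast Nat.choose_pos hSn
    have h7 : (n.choose S.card : ℝ) * ev t S ^ 2 ≤ n.choose S.card * (κ * ball n t) ^ 2 := by
      refine h5.trans ?_
      have hb : (0 : ℝ) ≤ ball n t := Nat.cast_nonneg _
      calc (2 : ℝ) ^ n * ball n t ≤ κ ^ 2 * ball n t * n.choose S.card * ball n t :=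
            mul_le_mul_of_nonneg_right h1 hb
        _ = _ := by ring
    have h8 := le_of_mul_le_mul_left h7 hc
    exact (abs_le.1 (abs_le_of_sq_le_sq h8 hκV)).1

/-- supersaturation -/
theorem super {t : ℕ} (ht : Even t) (htn : 2 * t ≤ n) {κ : ℝ} (hκ : 0 ≤ κ)
    (hs : ∀ s : ℕ, 1 ≤ s → s ≤ n → ((n : ℝ) + 1 - 2 * s) ^ 2 < 4 * (t : ℝ) * ((n : ℝ) - t) →
      (2 : ℝ) ^ n ≤ κ ^ 2 * ball n t * n.choose s) (K : Finset (Word n)) (hK : K.Nonempty) :
    ∃ u ∈ K, (ball n t : ℝ) * (K.card / (2 : ℝ) ^ n - κ) ≤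
      ((nb (fun x y => hammingDist x y ≤ t) K u).card : ℝ) := by
  classical
  have h1 := pairs t K
  have hb : (0 : ℝ) ≤ ball n t := Nat.cast_nonneg _
  have h2 : (ball n t : ℝ) * (K.card : ℝ) ^ 2 - κ * ball n t * ((2 : ℝ) ^ n * K.card) ≤
      ∑ S : Finset (Fin n), ev t S * ft K S ^ 2 := by
    have h3 : ∀ S : Finset (Fin n), (if S = ∅ then (ball n t : ℝ) * (K.card : ℝ) ^ 2 else 0) -
        κ * ball n t * ft K S ^ 2 ≤ ev t S * ft K S ^ 2 := by
      intro S
      split_ifs with h
      · rw [h, ev_empty, ft_empty]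
        have : 0 ≤ κ * ball n t * (K.card : ℝ) ^ 2 := by positivity
        linarith
      · have h4 := ev_ge ht htn hκ hs (Finset.nonempty_iff_ne_empty.2 h)
        have h5 := mul_le_mul_of_nonneg_right h4 (sq_nonneg (ft K S))
        linarith
    have h4 := Finset.sum_le_sum fun S (_ : S ∈ (univ : Finset (Finset (Fin n)))) => h3 S
    rw [Finset.sum_sub_distrib, ← Finset.mul_sum, parseval, Finset.sum_ite_eq' univ ∅,
      if_pos (mem_univ _)] at h4
    exact h4
  rw [← h1] at h2
  by_contra hcon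
  push Not at hcon
  have h3 : ∑ x ∈ K, ((K.filter fun y => hammingDist x y ≤ t).card : ℝ) <
      ∑ _x ∈ K, (ball n t : ℝ) * (K.card / (2 : ℝ) ^ n - κ) := by
    refine Finset.sum_lt_sum_of_nonempty hK fun u hu => ?_
    refine lt_of_le_of_lt (le_of_eq ?_) (hcon u hu)
    unfold nb
    congr 2
    ext y
    simp
  rw [Finset.sum_const, nsmul_eq_mul] at h3
  have h4 : (0 : ℝ) < (2 : ℝ) ^ n := by positivity
  have h5 := mul_lt_mul_of_pos_left h3 h4
  have e : (2 : ℝ) ^ n * (K.card * ((ball n t : ℝ) * (K.card / (2 : ℝ) ^ n - κ))) =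
      (ball n t : ℝ) * (K.card : ℝ) ^ 2 - κ * ball n t * ((2 : ℝ) ^ n * K.card) := by
    field_simp
  rw [e] at h5
  linarith

/-- the closed neighbourhoods -/
lemma nb_card (t : ℕ) (x : Word n) :
    (nb (fun x y => hammingDist x y ≤ t) univ x).card = ball n t := by
  classical
  unfold nb
  rw [← card_ball n t x]
  congr 1
  ext y
  simp only [mem_filter, mem_univ, true_and]
  rw [hammingDist_comm]

lemma sum_prod (f : Fin n → Bool → ℝ) :
    ∑ v : Word n, ∏ i, f i (v i) = ∏ i, (f i true + f i false) := by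
  have := Finset.prod_univ_sum (R := ℝ) (fun _ : Fin n => (univ : Finset Bool)) f
  simp only [Fintype.piFinset_univ, Fintype.sum_bool] at this
  exact this.symm

open Classical in
/-- local sparsity -/
lemma sparse {t : ℕ} (htn : t ≤ n) {z : ℝ} (hz : 0 < z) (hz1 : z ≤ 1) (x u : Word n)
    (hu : u ∈ nb (fun x y => hammingDist x y ≤ t) univ x) :
    (((nb (fun x y => hammingDist x y ≤ t) univ x).filter
      fun v => hammingDist u v ≤ t ∧ hammingDist x v ≤ hammingDist x u).card : ℝ) ≤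
      2 ^ t * (z ^ t)⁻¹ * (1 + z ^ 2) ^ (n - t) := by
  obtain ⟨a, ha⟩ : ∃ a, a = hammingDist x u := ⟨_, rfl⟩
  have hat : a ≤ t := by
    rw [ha]
    exact (mem_nb.1 hu).2
  have h1 : (((nb (fun x y => hammingDist x y ≤ t) univ x).filter
      fun v => hammingDist u v ≤ t ∧ hammingDist x v ≤ hammingDist x u).card : ℝ) ≤
      ∑ v : Word n, (z ^ t)⁻¹ * (z ^ a)⁻¹ * (z ^ hammingDist u v * z ^ hammingDist x v) := by
    rw [Finset.card_eq_sum_ones, Nat.cast_sum]
    push_cast
    refine le_trans (Finset.sum_le_sum (g := fun v => (z ^ t)⁻¹ * (z ^ a)⁻¹ *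
      (z ^ hammingDist u v * z ^ hammingDist x v)) ?_)
      (Finset.sum_le_sum_of_subset_of_nonneg (subset_univ _) fun _ _ _ => by positivity)
    intro v hv
    rw [mem_filter] at hv
    have h2 : z ^ t ≤ z ^ hammingDist u v := pow_le_pow_of_le_one hz.le hz1 hv.2.1
    have h3 : z ^ a ≤ z ^ hammingDist x v := pow_le_pow_of_le_one hz.le hz1 (ha ▸ hv.2.2)
    have h4 : z ^ t * z ^ a ≤ z ^ hammingDist u v * z ^ hammingDist x v :=
      mul_le_mul h2 h3 (by positivity) (by positivity)
    have h5 : (z ^ t)⁻¹ * (z ^ a)⁻¹ * (z ^ t * z ^ a) = 1 := by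
      field_simp
    rw [← h5]
    exact mul_le_mul_of_nonneg_left h4 (by positivity)
  refine h1.trans ?_
  have hpow : ∀ p q : Word n, z ^ hammingDist p q = ∏ i, (if p i = q i then 1 else z) := by
    intro p q
    unfold hammingDist
    rw [Finset.prod_ite, Finset.prod_const_one, one_mul, Finset.prod_const]
  rw [← Finset.mul_sum]
  have h2 : ∑ v : Word n, z ^ hammingDist u v * z ^ hammingDist x v =
      (2 * z) ^ a * (1 + z ^ 2) ^ (n - a) := by
    have h3 : ∀ v : Word n, z ^ hammingDist u v * z ^ hammingDist x v =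
        ∏ i, ((if u i = v i then 1 else z) * (if x i = v i then 1 else z)) := by
      intro v
      rw [hpow, hpow, Finset.prod_mul_distrib]
    rw [Finset.sum_congr rfl fun v _ => h3 v,
      sum_prod (fun i b => (if u i = b then 1 else z) * (if x i = b then 1 else z))]
    have h4 : ∀ i : Fin n, ((if u i = true then 1 else z) * (if x i = true then 1 else z) +
        (if u i = false then 1 else z) * (if x i = false then 1 else z)) =
        if x i ≠ u i then 2 * z else 1 + z ^ 2 := by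
      intro i
      cases hu : u i <;> cases hx : x i <;> simp <;> ring
    rw [Finset.prod_congr rfl fun i _ => h4 i, Finset.prod_ite, Finset.prod_const,
      Finset.prod_const]
    have h5 : (univ.filter fun i => x i ≠ u i).card = a := by
      rw [ha]
      rfl
    have h6 : (univ.filter fun i => ¬ (x i ≠ u i)).card = n - a := by
      have := Finset.card_filter_add_card_filter_not (s := (univ : Finset (Fin n)))
        (fun i => x i ≠ u i)
      rw [h5, card_univ, Fintype.card_fin] at this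
      omega
    rw [h5, h6]
  rw [h2]
  have h3 : (2 : ℝ) ^ a * (1 + z ^ 2) ^ (n - a) ≤ 2 ^ t * (1 + z ^ 2) ^ (n - t) := by
    obtain ⟨k, hk⟩ := Nat.exists_eq_add_of_le hat
    have e1 : n - a = (n - t) + k := by omega
    rw [e1, hk, pow_add, pow_add]
    have h4 : (1 + z ^ 2) ^ k ≤ 2 ^ k := pow_le_pow_left₀ (by positivity) (by nlinarith) k
    have h5 : (0 : ℝ) ≤ 2 ^ a * (1 + z ^ 2) ^ (n - (a + k)) := by positivity
    calc (2 : ℝ) ^ a * ((1 + z ^ 2) ^ (n - (a + k)) * (1 + z ^ 2) ^ k) =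
          2 ^ a * (1 + z ^ 2) ^ (n - (a + k)) * (1 + z ^ 2) ^ k := by ring
      _ ≤ 2 ^ a * (1 + z ^ 2) ^ (n - (a + k)) * 2 ^ k := mul_le_mul_of_nonneg_left h4 h5
      _ = _ := by ring
  calc (z ^ t)⁻¹ * (z ^ a)⁻¹ * ((2 * z) ^ a * (1 + z ^ 2) ^ (n - a)) =
        (z ^ t)⁻¹ * (2 ^ a * (1 + z ^ 2) ^ (n - a)) := by
        rw [mul_pow]
        field_simp
    _ ≤ (z ^ t)⁻¹ * (2 ^ t * (1 + z ^ 2) ^ (n - t)) :=
        mul_le_mul_of_nonneg_left h3 (by positivity)
    _ = _ := by ring

end Pool.Agent.U180.CG
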