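import Pool.Agent.U180.CG.Hard

/-!
# The upper bound for the partition function: containers
-/

set_option autoImplicit false
set_option linter.unusedSectionVars false

namespace Pool.Agent.U180.CG

open Finset

lemma exists_W (x : ℝ) (hx : 0 ≤ x) : ∃ w : ℝ, 0 ≤ w ∧ w * Real.exp w = x := by
  have hc : ContinuousOn (fun w : ℝ => w * Real.exp w) (Set.Icc 0 x) := by fun_prop
  have h := intermediate_value_Icc hx hc
  have hm : x ∈ Set.Icc ((fun w : ℝ => w * Real.exp w) 0) ((fun w : ℝ => w * Real.exp w) x) := by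
    constructor
    · simpa using hx
    · exact le_mul_of_one_le_right hx (Real.one_le_exp hx)
  obtain ⟨w, hw, e⟩ := h hm
  exact ⟨w, hw.1, e⟩

open Classical in
/-- the inverse function of `w ↦ w e^w` -/
noncomputable def W (x : ℝ) : ℝ := if h : 0 ≤ x then (exists_W x h).choose else 0

lemma W_nonneg (x : ℝ) : 0 ≤ W x := by
  unfold W
  split_ifs with h
  · exact (exists_W x h).choose_spec.1
  · exact le_rfl

lemma W_mul {x : ℝ} (hx : 0 ≤ x) : W x * Real.exp (W x) = x := by
  unfold W
  rw [dif_pos hx]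
  exact (exists_W x hx).choose_spec.2

lemma mul_exp_lt {a b : ℝ} (ha : 0 ≤ a) (h : a < b) : a * Real.exp a < b * Real.exp b := by
  have h1 : Real.exp a < Real.exp b := Real.exp_lt_exp.2 h
  have h2 := Real.exp_pos a
  nlinarith

lemma mul_exp_le {a b : ℝ} (ha : 0 ≤ a) (h : a ≤ b) : a * Real.exp a ≤ b * Real.exp b := by
  rcases h.eq_or_lt with h | h
  · rw [h]
  · exact (mul_exp_lt ha h).le

lemma le_of_mul_exp_le {a b : ℝ} (hb : 0 ≤ b) (h : a * Real.exp a ≤ b * Real.exp b) : a ≤ b := by
  by_contra h1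
  push Not at h1
  exact absurd h (not_le.2 (mul_exp_lt hb h1))

lemma W_eq {w : ℝ} (hw : 0 ≤ w) : W (w * Real.exp w) = w := by
  have h := W_mul (x := w * Real.exp w) (mul_nonneg hw (Real.exp_pos w).le)
  exact le_antisymm (le_of_mul_exp_le hw h.le) (le_of_mul_exp_le (W_nonneg _) h.ge)

lemma W_exp {x : ℝ} (hx : 0 ≤ x) : x * Real.exp (-W x) = W x := by
  obtain ⟨w, hw⟩ : ∃ w, w = W x := ⟨_, rfl⟩
  have h := W_mul hx
  rw [← hw] at h ⊢
  rw [← h, mul_assoc, ← Real.exp_add, add_neg_cancel, Real.exp_zero, mul_one]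

/-- the pressure of the mean field equation of state as a function of the activity -/
noncomputable def G (x : ℝ) : ℝ := W x + W x ^ 2 / 2

lemma G_nonneg (x : ℝ) : 0 ≤ G x := by
  have := W_nonneg x
  unfold G
  positivity

lemma W_mono {x y : ℝ} (hx : 0 ≤ x) (h : x ≤ y) : W x ≤ W y := by
  refine le_of_mul_exp_le (W_nonneg _) ?_
  rw [W_mul hx, W_mul (hx.trans h)]
  exact h

lemma G_incr {x y : ℝ} (hx : 0 ≤ x) (h : x ≤ y) : (y - x) * Real.exp (-W y) ≤ G y - G x := by
  have hw := W_mono hx h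
  have h0 := W_nonneg x
  have e1 : y * Real.exp (-W y) = W y := W_exp (hx.trans h)
  have e2 : x * Real.exp (-W y) = W x * Real.exp (-(W y - W x)) := by
    conv_lhs => rw [← W_mul hx]
    rw [mul_assoc, ← Real.exp_add]
    congr 2
    ring
  rw [sub_mul, e1, e2]
  unfold G
  have h3 := Real.one_sub_le_exp_neg (W y - W x)
  have h4 : W x * (1 - (W y - W x)) ≤ W x * Real.exp (-(W y - W x)) :=
    mul_le_mul_of_nonneg_left h3 h0
  nlinarith [sq_nonneg (W y - W x)]

lemma G_incr' {x y : ℝ} (hx : 0 ≤ x) (h : x ≤ y) : G y - G x ≤ (y - x) * Real.exp (-W x) := by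
  have hw := W_mono hx h
  have h0 := W_nonneg x
  have h0' := W_nonneg y
  have e1 : x * Real.exp (-W x) = W x := W_exp hx
  have e2 : y * Real.exp (-W x) = W y * Real.exp (W y - W x) := by
    conv_lhs => rw [← W_mul (hx.trans h)]
    rw [mul_assoc, ← Real.exp_add]
    congr 2
  rw [sub_mul, e1, e2]
  unfold G
  have h3 := Real.add_one_le_exp (W y - W x)
  have h4 : W y * (W y - W x + 1) ≤ W y * Real.exp (W y - W x) :=
    mul_le_mul_of_nonneg_left h3 h0'
  nlinarith [sq_nonneg (W y - W x)]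

lemma G_mono {x y : ℝ} (hx : 0 ≤ x) (h : x ≤ y) : G x ≤ G y := by
  have h1 := G_incr hx h
  have h2 : 0 ≤ (y - x) * Real.exp (-W y) := mul_nonneg (by linarith) (Real.exp_pos _).le
  linarith

/-- the exponent of the container bound -/
noncomputable def fc (N V κ l' k : ℝ) : ℝ :=
  l' * min k (κ * N) + N / V * G (l' * V * max 0 (k / N - κ))

lemma fc_incr {N V κ l' : ℝ} (hN : 0 < N) (hV : 0 < V) (hl : 0 ≤ l') {k j : ℝ} (hj : 0 ≤ j) :
    l' * Real.exp (-W (l' * V * max 0 (k / N - κ))) * j ≤ fc N V κ l' k - fc N V κ l' (k - j) := by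
  obtain ⟨q, hq⟩ : ∃ q, q = Real.exp (-W (l' * V * max 0 (k / N - κ))) := ⟨_, rfl⟩
  have hq0 : 0 < q := hq ▸ Real.exp_pos _
  have hq1 : q ≤ 1 := by
    rw [hq, Real.exp_le_one_iff]
    have := W_nonneg (l' * V * max 0 (k / N - κ))
    linarith
  have key : ∀ x : ℝ, min x (κ * N) + N * max 0 (x / N - κ) = x := by
    intro x
    rcases le_total x (κ * N) with h | h
    · have : x / N - κ ≤ 0 := by
        rw [sub_nonpos, div_le_iff₀ hN]
        exact h
      rw [min_eq_left h, max_eq_left this]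
      ring
    · have : 0 ≤ x / N - κ := by
        rw [sub_nonneg, le_div_iff₀ hN]
        exact h
      rw [min_eq_right h, max_eq_right this]
      field_simp
      ring
  have hm : max 0 ((k - j) / N - κ) ≤ max 0 (k / N - κ) := by
    refine max_le_max le_rfl ?_
    have : (k - j) / N ≤ k / N := div_le_div_of_nonneg_right (by linarith) hN.le
    linarith
  have hmin : 0 ≤ min k (κ * N) - min (k - j) (κ * N) := by
    rw [sub_nonneg]
    exact min_le_min (by linarith) le_rfl
  have h1 := G_incr (x := l' * V * max 0 ((k - j) / N - κ)) (y := l' * V * max 0 (k / N - κ))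
    (mul_nonneg (mul_nonneg hl hV.le) (le_max_left _ _))
    (mul_le_mul_of_nonneg_left hm (mul_nonneg hl hV.le))
  rw [← hq] at h1 ⊢
  have h2 : N / V * ((l' * V * max 0 (k / N - κ) - l' * V * max 0 ((k - j) / N - κ)) * q) ≤
      N / V * (G (l' * V * max 0 (k / N - κ)) - G (l' * V * max 0 ((k - j) / N - κ))) :=
    mul_le_mul_of_nonneg_left h1 (by positivity)
  have e1 : N / V * ((l' * V * max 0 (k / N - κ) - l' * V * max 0 ((k - j) / N - κ)) * q) =
      l' * q * (N * max 0 (k / N - κ) - N * max 0 ((k - j) / N - κ)) := by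
    field_simp
  rw [e1] at h2
  have h3 : l' * q * (min k (κ * N) - min (k - j) (κ * N)) ≤
      l' * (min k (κ * N) - min (k - j) (κ * N)) := by
    rw [mul_assoc]
    refine mul_le_mul_of_nonneg_left ?_ hl
    exact mul_le_of_le_one_left hmin hq1
  have e2 : j = (min k (κ * N) - min (k - j) (κ * N)) +
      (N * max 0 (k / N - κ) - N * max 0 ((k - j) / N - κ)) := by
    have h5 := key k
    have h6 := key (k - j)
    linarith
  have e3 : l' * q * j = l' * q * (min k (κ * N) - min (k - j) (κ * N)) +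
      l' * q * (N * max 0 (k / N - κ) - N * max 0 ((k - j) / N - κ)) := by
    conv_lhs => rw [e2]
    ring
  rw [e3]
  unfold fc
  nlinarith

variable {α : Type} [DecidableEq α] {c : α → α → Prop}

theorem Z_le_exp (hr : ∀ x, c x x) (hs : ∀ x y, c x y → c y x) {N V κ l : ℝ} (hN : 0 < N)
    (hV : 0 < V) (hκ : 0 ≤ κ) (hl : 0 < l) (hl1 : l < 1)
    (hsup : ∀ K : Finset α, K.Nonempty → ∃ u ∈ K, V * (K.card / N - κ) ≤ ((nb c K u).card : ℝ)) :
    ∀ K : Finset α, Z c l K ≤ Real.exp (fc N V κ (l / (1 - l)) K.card) := by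
  have hl' : 0 < l / (1 - l) := div_pos hl (by linarith)
  obtain ⟨l', hl'e⟩ : ∃ l', l' = l / (1 - l) := ⟨_, rfl⟩
  rw [← hl'e] at hl' ⊢
  intro K
  induction hk : K.card using Nat.strong_induction_on generalizing K with
  | _ k ih =>
  rcases K.eq_empty_or_nonempty with h | h
  · rw [h] at hk
    rw [h, Z_empty, ← hk, Real.one_le_exp_iff]
    unfold fc
    have h1 := G_nonneg (l' * V * max 0 (((∅ : Finset α).card : ℝ) / N - κ))
    have : min (((∅ : Finset α).card : ℝ)) (κ * N) = 0 := by
      rw [Finset.card_empty, Nat.cast_zero]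
      exact min_eq_left (by positivity)
    rw [this]
    positivity
  · obtain ⟨u, hu, hm⟩ := hsup K h
    obtain ⟨m, hme⟩ : ∃ m, m = (nb c K u).card := ⟨_, rfl⟩
    rw [← hme, hk] at hm
    have hm1 : 1 ≤ m := by
      rw [hme, Nat.one_le_iff_ne_zero, ← Nat.pos_iff_ne_zero, Finset.card_pos]
      exact ⟨u, mem_nb.2 ⟨hu, hr u⟩⟩
    have hmk : m ≤ k := by
      rw [hme, ← hk]
      exact nb_card_le K u
    have hk1 : 1 ≤ k := hm1.trans hmk
    obtain ⟨w, hw⟩ : ∃ w, w = W (l' * V * max 0 ((k : ℝ) / N - κ)) := ⟨_, rfl⟩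
    obtain ⟨q, hq⟩ : ∃ q, q = Real.exp (-w) := ⟨_, rfl⟩
    have hw0 : 0 ≤ w := hw ▸ W_nonneg _
    have hq0 : 0 < q := hq ▸ Real.exp_pos _
    have hq1 : q ≤ 1 := by
      rw [hq, Real.exp_le_one_iff]
      linarith
    have h1 := ih (k - 1) (by omega) (K.erase u) (by rw [card_erase_of_mem hu, hk])
    have h2 := ih (k - m) (by omega) (rem c K u) (by
      have := card_rem_add (c := c) K u
      omega)
    have e1 : ((k - 1 : ℕ) : ℝ) = (k : ℝ) - 1 := by
      rw [Nat.cast_sub hk1, Nat.cast_one]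
    have e2 : ((k - m : ℕ) : ℝ) = (k : ℝ) - m := Nat.cast_sub hmk
    rw [e1] at h1
    rw [e2] at h2
    have f1 := fc_incr (κ := κ) hN hV hl'.le (k := (k : ℝ)) (j := 1) zero_le_one
    have f2 := fc_incr (κ := κ) hN hV hl'.le (k := (k : ℝ)) (j := m) (Nat.cast_nonneg m)
    rw [← hw, ← hq] at f1 f2
    have hwq : w = l' * V * max 0 ((k : ℝ) / N - κ) * q := by
      have h3 : 0 ≤ l' * V * max 0 ((k : ℝ) / N - κ) :=
        mul_nonneg (mul_nonneg hl'.le hV.le) (le_max_left _ _)
      have h4 := W_mul h3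
      rw [← hw] at h4
      rw [← h4, hq, mul_assoc, ← Real.exp_add, add_neg_cancel, Real.exp_zero, mul_one]
    have hmw : w ≤ l' * q * m := by
      rw [hwq]
      have h3 : V * max 0 ((k : ℝ) / N - κ) ≤ m := by
        rcases le_total ((k : ℝ) / N - κ) 0 with h4 | h4
        · rw [max_eq_left h4, mul_zero]
          exact Nat.cast_nonneg m
        · rw [max_eq_right h4]
          exact hm
      calc l' * V * max 0 ((k : ℝ) / N - κ) * q = l' * q * (V * max 0 ((k : ℝ) / N - κ)) := by ring
        _ ≤ l' * q * m := mul_le_mul_of_nonneg_left h3 (by positivity)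
    rw [Z_rec hr hs l hu]
    obtain ⟨F, hF⟩ : ∃ F, F = fc N V κ l' k := ⟨_, rfl⟩
    rw [← hF] at f1 f2 ⊢
    have g1 : Z c l (K.erase u) ≤ Real.exp F * Real.exp (-(l' * q)) := by
      refine h1.trans ?_
      rw [← Real.exp_add, Real.exp_le_exp]
      linarith
    have g2 : Z c l (rem c K u) ≤ Real.exp F * q := by
      refine h2.trans ?_
      rw [hq, ← Real.exp_add, Real.exp_le_exp]
      linarith
    have g3 : Real.exp (-(l' * q)) + l * q ≤ 1 := by
      have h5 : 0 < 1 - l + l * q := by nlinarith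
      have h6 : Real.exp (-(l' * q)) ≤ (1 - l) / (1 - l + l * q) := by
        rw [Real.exp_neg, inv_le_comm₀ (Real.exp_pos _) (div_pos (by linarith) h5), inv_div]
        have h7 := Real.add_one_le_exp (l' * q)
        refine le_trans (le_of_eq ?_) h7
        have h8 : (1 : ℝ) - l ≠ 0 := by linarith
        rw [hl'e]
        field_simp
        ring
      have h9 : (1 - l) / (1 - l + l * q) + l * q ≤ 1 := by
        rw [← le_sub_iff_add_le, div_le_iff₀ h5]
        have : 0 ≤ l * q * (l - l * q) := by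
          refine mul_nonneg (by positivity) ?_
          nlinarith
        nlinarith
      linarith
    calc Z c l (K.erase u) + l * Z c l (rem c K u)
        ≤ Real.exp F * Real.exp (-(l' * q)) + l * (Real.exp F * q) :=
          add_le_add g1 (mul_le_mul_of_nonneg_left g2 hl.le)
      _ = Real.exp F * (Real.exp (-(l' * q)) + l * q) := by ring
      _ ≤ Real.exp F * 1 := mul_le_mul_of_nonneg_left g3 (Real.exp_pos _).le
      _ = Real.exp F := mul_one _

/-- the upper bound for the pressure -/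
theorem pressure_le (hr : ∀ x, c x x) (hs : ∀ x y, c x y → c y x) {N V κ w : ℝ} (hN : 0 < N)
    (hV : 0 < V) (hκ : 0 ≤ κ) (hw : 0 < w) (hw1 : w * Real.exp w / V ≤ 1 / 2)
    (hsup : ∀ K : Finset α, K.Nonempty → ∃ u ∈ K, V * (K.card / N - κ) ≤ ((nb c K u).card : ℝ))
    (K : Finset α) (hK : (K.card : ℝ) = N) :
    V / N * Real.log (Z c (w * Real.exp w / V) K) ≤
      w + w ^ 2 / 2 + 2 * (κ + w / V) * (w * Real.exp w) := by
  obtain ⟨l, hl⟩ : ∃ l, l = w * Real.exp w / V := ⟨_, rfl⟩
  rw [← hl] at hw1 ⊢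
  have hx0 : 0 < w * Real.exp w := mul_pos hw (Real.exp_pos w)
  have hl0 : 0 < l := hl ▸ div_pos hx0 hV
  have hlV : l * V = w * Real.exp w := by
    rw [hl]
    field_simp
  have h1 := Z_le_exp hr hs hN hV hκ hl0 (by linarith) hsup K
  have h2 : Real.log (Z c l K) ≤ fc N V κ (l / (1 - l)) K.card := by
    rw [Real.log_le_iff_le_exp (zero_lt_one.trans_le (Z_pos hl0.le K))]
    exact h1
  have hl' : l ≤ l / (1 - l) := by
    rw [le_div_iff₀ (by linarith)]
    nlinarith
  have hl2 : l / (1 - l) ≤ 2 * l := by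
    rw [div_le_iff₀ (by linarith)]
    nlinarith
  have hl3 : l / (1 - l) - l ≤ 2 * l ^ 2 := by
    have : l / (1 - l) - l = l ^ 2 / (1 - l) := by
      have : (1 : ℝ) - l ≠ 0 := by linarith
      field_simp
      ring
    rw [this, div_le_iff₀ (by linarith)]
    nlinarith [sq_nonneg l]
  obtain ⟨l', hl'e⟩ : ∃ l', l' = l / (1 - l) := ⟨_, rfl⟩
  rw [← hl'e] at h2 hl' hl2 hl3
  have hl'0 : 0 < l' := hl0.trans_le hl'
  have h3 : V / N * fc N V κ l' K.card ≤ l' * κ * V + G (l' * V) := by
    unfold fc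
    rw [hK, mul_add, div_self hN.ne']
    have h4 : V / N * (l' * min N (κ * N)) ≤ l' * κ * V := by
      have : V / N * (l' * min N (κ * N)) ≤ V / N * (l' * (κ * N)) := by
        refine mul_le_mul_of_nonneg_left ?_ (by positivity)
        exact mul_le_mul_of_nonneg_left (min_le_right _ _) hl'0.le
      refine this.trans (le_of_eq ?_)
      field_simp
    have h5 : V / N * (N / V * G (l' * V * max 0 (1 - κ))) ≤ G (l' * V) := by
      rw [← mul_assoc]
      have : V / N * (N / V) = 1 := by field_simp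
      rw [this, one_mul]
      refine G_mono (mul_nonneg (by positivity) (le_max_left _ _)) ?_
      refine mul_le_of_le_one_right (by positivity) ?_
      exact max_le zero_le_one (by linarith)
    linarith
  have h6 : G (l' * V) ≤ w + w ^ 2 / 2 + 2 * l * w := by
    have h7 := G_incr' (x := l * V) (y := l' * V) (by positivity)
      (mul_le_mul_of_nonneg_right hl' hV.le)
    have h8 : W (l * V) = w := by
      rw [hlV]
      exact W_eq hw.le
    have h9 : G (l * V) = w + w ^ 2 / 2 := by
      unfold G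
      rw [h8]
    rw [h9, h8] at h7
    have h10 : (l' * V - l * V) * Real.exp (-w) ≤ 2 * l * w := by
      have h11 : l * V * Real.exp (-w) = w := by
        have := W_exp (x := l * V) (by positivity)
        rwa [h8] at this
      calc (l' * V - l * V) * Real.exp (-w) = (l' - l) * (V * Real.exp (-w)) := by ring
        _ ≤ (2 * l ^ 2) * (V * Real.exp (-w)) := by
          refine mul_le_mul_of_nonneg_right hl3 (by positivity)
        _ = 2 * l * (l * V * Real.exp (-w)) := by ring
        _ = 2 * l * w := by rw [h11]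
    linarith
  calc V / N * Real.log (Z c l K) ≤ V / N * fc N V κ l' K.card :=
        mul_le_mul_of_nonneg_left h2 (by positivity)
    _ ≤ l' * κ * V + G (l' * V) := h3
    _ ≤ 2 * l * κ * V + (w + w ^ 2 / 2 + 2 * l * w) := by
        refine add_le_add ?_ h6
        refine mul_le_mul_of_nonneg_right ?_ hV.le
        exact mul_le_mul_of_nonneg_right hl2 hκ
    _ = w + w ^ 2 / 2 + 2 * (κ + w / V) * (w * Real.exp w) := by
        rw [hl]
        field_simp
        ring

end Pool.Agent.U180.CG
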