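import Pool.Agent.U180.BC.Base
import Pool.Agent.R158.Kraw

/-!
# Supersaturation for the graph of the words at distance at most `t`, `t` even
-/

set_option autoImplicit false
set_option linter.unusedSectionVars false

namespace Pool.Agent.U180.CG

open Finset Polynomial
open Pool.Agent.U180.BC Pool.Agent.R158.Kraw

/-- positivity of the eigenvalues far from the middle -/
lemma seq_pos {m t : ℕ} (ht : Even t) (htm : 2 * t ≤ m + 1) {p : ℝ} {l : ℕ → ℝ} (h0 : l 0 = 1)
    (h1 : l 1 = p) (hrec : ∀ s : ℕ, ((s : ℝ) + 2) * l (s + 2) = p * l (s + 1) - ((m : ℝ) - s) * l s)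
    (hp : 4 * (t : ℝ) * ((m : ℝ) + 1 - t) ≤ p ^ 2) : 0 ≤ l t := by
  wlog hp0 : 0 ≤ p generalizing p l with H
  · push Not at hp0
    have h2 := H (p := -p) (l := fun s => (-1) ^ s * l s) (by simp [h0])
      (by simp; linarith) (fun s => by
        have := hrec s
        simp only [pow_succ]
        linear_combination ((-1 : ℝ) ^ s) * this) (by linarith) (by linarith)
    simpa [ht.neg_one_pow] using h2
  rcases Nat.eq_zero_or_pos t with h | ht0
  · rw [h, h0]
    exact zero_le_one
  have htr : (1 : ℝ) ≤ t := by exact_mod_cast ht0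
  have htm' : 2 * (t : ℝ) ≤ m + 1 := by exact_mod_cast htm
  have hppos : 0 < p := by
    rcases hp0.eq_or_lt with h | h
    · rw [← h] at hp
      nlinarith
    · exact h
  have key : ∀ s, s + 1 ≤ t → 0 ≤ l s ∧ p * l s ≤ 2 * (s + 1) * l (s + 1) := by
    intro s
    induction s with
    | zero =>
      intro _
      rw [h0, zero_add, h1]
      refine ⟨zero_le_one, ?_⟩
      push_cast
      nlinarith
    | succ s ih =>
      intro hs
      obtain ⟨ih1, ih2⟩ := ih (by omega)
      have hls : 0 ≤ l (s + 1) := by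
        have h3 : 0 ≤ 2 * ((s : ℝ) + 1) * l (s + 1) := le_trans (by positivity) ih2
        by_contra hcon
        push Not at hcon
        have : 2 * ((s : ℝ) + 1) * l (s + 1) < 0 := mul_neg_of_pos_of_neg (by positivity) hcon
        linarith
      refine ⟨hls, ?_⟩
      have hR := hrec s
      have hst : ((s : ℝ) + 2) ≤ t := by exact_mod_cast hs
      have hms : 0 ≤ (m : ℝ) - s := by linarith
      have e0 : 4 * ((s : ℝ) + 1) * (m - s) ≤ p ^ 2 := by
        refine le_trans ?_ hp
        nlinarith
      have e1 : p * (((m : ℝ) - s) * l s) ≤ p ^ 2 / 2 * l (s + 1) := by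
        calc p * (((m : ℝ) - s) * l s) = ((m : ℝ) - s) * (p * l s) := by ring
          _ ≤ ((m : ℝ) - s) * (2 * (s + 1) * l (s + 1)) := mul_le_mul_of_nonneg_left ih2 hms
          _ = (4 * ((s : ℝ) + 1) * (m - s)) / 2 * l (s + 1) := by ring
          _ ≤ p ^ 2 / 2 * l (s + 1) := by
            refine mul_le_mul_of_nonneg_right ?_ hls
            linarith
      have e2 : ((m : ℝ) - s) * l s ≤ p / 2 * l (s + 1) := by
        have h' : p * (((m : ℝ) - s) * l s) ≤ p * (p / 2 * l (s + 1)) := by
          refine e1.trans (le_of_eq ?_)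
          ring
        exact le_of_mul_le_mul_left h' hppos
      push_cast
      have e3 : 2 * ((s : ℝ) + 1 + 1) * l (s + 1 + 1) = 2 * (((s : ℝ) + 2) * l (s + 2)) := by ring
      rw [e3, hR]
      linarith
  obtain ⟨s, rfl⟩ : ∃ s, t = s + 1 := ⟨t - 1, by omega⟩
  obtain ⟨k1, k2⟩ := key s le_rfl
  have h3 : 0 ≤ 2 * ((s : ℝ) + 1) * l (s + 1) := le_trans (by positivity) k2
  by_contra hcon
  push Not at hcon
  have : 2 * ((s : ℝ) + 1) * l (s + 1) < 0 := mul_neg_of_pos_of_neg (by positivity) hcon
  linarith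

variable {n : ℕ}

/-- the sign of a bit -/
noncomputable def sg (b : Bool) : ℝ := if b = true then -1 else 1

lemma sg_xor (a b : Bool) : sg (xor a b) = sg a * sg b := by
  cases a <;> cases b <;> simp [sg]

/-- characters -/
noncomputable def chi (S : Finset (Fin n)) (x : Word n) : ℝ := ∏ i ∈ S, sg (x i)

lemma chi_tr (S : Finset (Fin n)) (x y : Word n) : chi S (tr x y) = chi S x * chi S y := by
  unfold chi
  rw [← Finset.prod_mul_distrib]
  exact Finset.prod_congr rfl fun i _ => sg_xor _ _

lemma sum_chi (z : Word n) :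
    ∑ S : Finset (Fin n), chi S z = if z = (fun _ => false) then (2 : ℝ) ^ n else 0 := by
  unfold chi
  rw [← Finset.powerset_univ, ← Finset.prod_one_add]
  split_ifs with h
  · rw [h]
    have : ∀ i : Fin n, 1 + sg ((fun _ => false) i : Bool) = 2 := fun i => by
      simp [sg]
      norm_num
    rw [Finset.prod_congr rfl fun i _ => this i, Finset.prod_const, Finset.card_univ,
      Fintype.card_fin]
  · obtain ⟨i, hi⟩ : ∃ i, z i ≠ false := by
      by_contra hc
      push Not at hc
      exact h (funext hc)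
    refine Finset.prod_eq_zero (mem_univ i) ?_
    have : z i = true := by
      cases hz : z i
      · exact absurd hz hi
      · rfl
    rw [this]
    simp [sg]

/-- the signs given by a set -/
noncomputable def sig (S : Finset (Fin n)) (i : Fin n) : ℝ := if i ∈ S then -1 else 1

/-- eigenvalue -/
noncomputable def ev (t : ℕ) (S : Finset (Fin n)) : ℝ :=
  ∑ z ∈ univ.filter (fun z : Word n => wt z ≤ t), chi S z

lemma ev_eq_sum (t : ℕ) (S : Finset (Fin n)) :
    ev t S = ∑ j ∈ range (t + 1), es univ (sig S) j := by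
  unfold es
  have h1 : ∑ j ∈ range (t + 1), ∑ B ∈ (univ : Finset (Fin n)).powersetCard j, ∏ i ∈ B, sig S i =
      ∑ B ∈ (univ : Finset (Finset (Fin n))).filter (fun B => B.card ≤ t), ∏ i ∈ B, sig S i := by
    rw [Finset.sum_sigma']
    refine Finset.sum_bij' (fun P _ => P.2) (fun B _ => ⟨B.card, B⟩) ?_ ?_ ?_ ?_ ?_
    · rintro ⟨j, B⟩ hP
      rw [mem_sigma, Finset.mem_range, mem_powersetCard] at hP
      rw [mem_filter]
      refine ⟨mem_univ _, ?_⟩
      have := hP.1
      have := hP.2.2
      simp only at *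
      omega
    · intro B hB
      rw [mem_filter] at hB
      rw [mem_sigma, Finset.mem_range, mem_powersetCard]
      exact ⟨by simp only; omega, subset_univ _, rfl⟩
    · rintro ⟨j, B⟩ hP
      rw [mem_sigma, Finset.mem_range, mem_powersetCard] at hP
      have := hP.2.2
      simp only at this
      subst this
      rfl
    · intro B _
      rfl
    · intro P _
      rfl
  rw [h1]
  unfold ev
  refine Finset.sum_bij' (fun z _ => univ.filter fun i => z i = true)
    (fun B _ => fun i => decide (i ∈ B)) ?_ ?_ ?_ ?_ ?_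
  · intro z hz
    rw [mem_filter] at hz ⊢
    exact ⟨mem_univ _, hz.2⟩
  · intro B hB
    rw [mem_filter] at hB ⊢
    refine ⟨mem_univ _, ?_⟩
    unfold wt
    simpa using hB.2
  · intro z _
    funext i
    cases hz : z i <;> simp [hz]
  · intro B _
    ext i
    simp
  · intro z _
    unfold chi sig
    have e1 : ∏ i ∈ S, sg (z i) = ∏ i : Fin n, (if i ∈ S then sg (z i) else 1) := by
      rw [Finset.prod_ite_mem, univ_inter]
    have e2 : ∏ i ∈ univ.filter (fun i => z i = true), (if i ∈ S then (-1 : ℝ) else 1) =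
        ∏ i : Fin n, (if z i = true then (if i ∈ S then (-1 : ℝ) else 1) else 1) := by
      rw [Finset.prod_filter]
    rw [e1, e2]
    refine Finset.prod_congr rfl fun i _ => ?_
    unfold sg
    split_ifs <;> rfl

lemma sig_sq (S F : Finset (Fin n)) : ∀ i ∈ F, sig S i * sig S i = 1 := by
  intro i _
  unfold sig
  split_ifs <;> norm_num

lemma ev_eq_es (t : ℕ) {S : Finset (Fin n)} {a : Fin n} (ha : a ∈ S) :
    ev t S = es (univ.erase a) (sig S) t := by
  rw [ev_eq_sum]
  have hQ : Q univ (sig S) = (1 - X) * Q (univ.erase a) (sig S) := by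
    unfold Q
    rw [← Finset.mul_prod_erase univ _ (mem_univ a)]
    congr 1
    unfold sig
    rw [if_pos ha]
    simp
    ring
  have h1 : ∀ j, es univ (sig S) j = es (univ.erase a) (sig S) j -
      (if j = 0 then 0 else es (univ.erase a) (sig S) (j - 1)) := by
    intro j
    rw [← coeff_Q, hQ, sub_mul, one_mul, coeff_sub, coeff_Q]
    congr 1
    cases j with
    | zero => simp
    | succ j =>
      rw [coeff_X_mul, coeff_Q, if_neg (by omega), Nat.add_sub_cancel]
  induction t with
  | zero =>
    rw [zero_add, Finset.sum_range_one, h1]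
    simp
  | succ t ih =>
    rw [Finset.sum_range_succ, ih, h1 (t + 1), if_neg (by omega), Nat.add_sub_cancel]
    ring

lemma sum_sig {S : Finset (Fin n)} {a : Fin n} (ha : a ∈ S) :
    ∑ i ∈ univ.erase a, sig S i = (n : ℝ) + 1 - 2 * S.card := by
  have h1 : ∑ i : Fin n, sig S i = (n : ℝ) - 2 * S.card := by
    have : ∀ i : Fin n, sig S i = 1 - 2 * (if i ∈ S then 1 else 0) := by
      intro i
      unfold sig
      split_ifs <;> norm_num
    rw [Finset.sum_congr rfl fun i _ => this i, Finset.sum_sub_distrib, ← Finset.mul_sum,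
      Finset.sum_boole]
    simp
  have h2 := Finset.add_sum_erase univ (sig S) (mem_univ a)
  have h3 : sig S a = -1 := by
    unfold sig
    rw [if_pos ha]
  rw [h1, h3] at h2
  linarith

/-- nonnegative eigenvalues -/
lemma ev_nonneg {t : ℕ} (ht : Even t) (htn : 2 * t ≤ n) {S : Finset (Fin n)} (hS : S.Nonempty)
    (hp : 4 * (t : ℝ) * ((n : ℝ) - t) ≤ ((n : ℝ) + 1 - 2 * S.card) ^ 2) : 0 ≤ ev t S := by
  obtain ⟨a, ha⟩ := hS
  rw [ev_eq_es t ha]
  have hn : 1 ≤ n := by
    have := a.2
    omega
  have hc : (univ.erase a : Finset (Fin n)).card = n - 1 := by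
    rw [card_erase_of_mem (mem_univ a), card_univ, Fintype.card_fin]
  have hcr : (((n - 1 : ℕ)) : ℝ) = (n : ℝ) - 1 := by
    rw [Nat.cast_sub hn, Nat.cast_one]
  refine seq_pos (m := n - 1) ht (by omega) (p := (n : ℝ) + 1 - 2 * S.card)
    (l := es (univ.erase a) (sig S)) (es_zero _ _) (by rw [es_one, sum_sig ha]) ?_ ?_
  · intro s
    have := rec_es (univ.erase a) (sig S) (sig_sq S _) s
    rw [sum_sig ha, hc] at this
    exact this
  · rw [hcr]
    calc 4 * (t : ℝ) * ((n : ℝ) - 1 + 1 - t) = 4 * (t : ℝ) * ((n : ℝ) - t) := by ring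
      _ ≤ _ := hp

/-- the eigenvalues depend on the size of the set only -/
lemma ev_card (t : ℕ) {S S' : Finset (Fin n)} (h : S.card = S'.card) : ev t S = ev t S' := by
  rw [ev_eq_sum, ev_eq_sum]
  refine Finset.sum_congr rfl fun j _ => ?_
  rw [← coeff_Q, ← coeff_Q]
  congr 1
  have : ∀ S : Finset (Fin n), Q univ (sig S) = (1 - X) ^ S.card * (1 + X) ^ (n - S.card) := by
    intro S
    unfold Q
    have e : ∀ i : Fin n, (1 + C (sig S i) * X : ℝ[X]) = if i ∈ S then 1 - X else 1 + X := by
      intro i
      unfold sig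
      split_ifs
      · simp
        ring
      · simp
    rw [Finset.prod_congr rfl fun i _ => e i, Finset.prod_ite, Finset.prod_const,
      Finset.prod_const]
    congr 2
    · congr 1
      ext i
      simp
    · have : univ.filter (fun i => i ∉ S) = univ \ S := by
        ext i
        simp
      rw [this, card_sdiff_of_subset (subset_univ _), card_univ, Fintype.card_fin]
  rw [this, this, h]

/-- Fourier coefficient of a set -/
noncomputable def ft (K : Finset (Word n)) (S : Finset (Fin n)) : ℝ := ∑ x ∈ K, chi S x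

lemma tr_comm (x y : Word n) : tr x y = tr y x := by
  funext i
  unfold tr
  cases x i <;> cases y i <;> rfl

lemma tr_eq_zero {x y : Word n} : tr x y = (fun _ => false) ↔ x = y := by
  constructor
  · intro h
    funext i
    have := congrFun h i
    unfold tr at this
    cases hx : x i <;> cases hy : y i <;> simp [hx, hy] at this ⊢
  · rintro rfl
    funext i
    unfold tr
    cases x i <;> rfl

lemma orth (x y : Word n) :
    ∑ S : Finset (Fin n), chi S x * chi S y = if x = y then (2 : ℝ) ^ n else 0 := by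
  have h := sum_chi (tr x y)
  simp only [chi_tr, tr_eq_zero] at h
  exact h

lemma parseval (K : Finset (Word n)) :
    ∑ S : Finset (Fin n), ft K S ^ 2 = (2 : ℝ) ^ n * K.card := by
  unfold ft
  have h : ∀ S : Finset (Fin n), (∑ x ∈ K, chi S x) ^ 2 =
      ∑ x ∈ K, ∑ y ∈ K, chi S x * chi S y := by
    intro S
    rw [sq, Finset.sum_mul_sum]
  rw [Finset.sum_congr rfl fun S _ => h S, Finset.sum_comm]
  have h2 : ∀ x ∈ K, ∑ S : Finset (Fin n), ∑ y ∈ K, chi S x * chi S y = (2 : ℝ) ^ n := by
    intro x hx
    rw [Finset.sum_comm]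
    simp only [orth]
    rw [Finset.sum_ite_eq, if_pos hx]
  rw [Finset.sum_congr rfl h2, Finset.sum_const, nsmul_eq_mul, mul_comm]

/-- the number of pairs at distance at most `t` -/
lemma pairs (t : ℕ) (K : Finset (Word n)) :
    (2 : ℝ) ^ n * ∑ x ∈ K, ((K.filter fun y => hammingDist x y ≤ t).card : ℝ) =
      ∑ S : Finset (Fin n), ev t S * ft K S ^ 2 := by
  have h1 : ∀ S : Finset (Fin n), ev t S * ft K S ^ 2 =
      ∑ x ∈ K, ∑ y ∈ K, ∑ z ∈ univ.filter (fun z : Word n => wt z ≤ t),
        chi S z * chi S (tr x y) := by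
    intro S
    unfold ev ft
    rw [sq, Finset.sum_mul_sum, Finset.sum_mul_sum]
    rw [Finset.sum_comm]
    refine Finset.sum_congr rfl fun x _ => ?_
    rw [← Finset.sum_comm]
    simp only [Finset.mul_sum, chi_tr]
  rw [Finset.sum_congr rfl fun S _ => h1 S, Finset.sum_comm, Finset.mul_sum]
  refine Finset.sum_congr rfl fun x _ => ?_
  rw [Finset.sum_comm, Finset.card_filter]
  push_cast
  rw [Finset.mul_sum]
  refine Finset.sum_congr rfl fun y _ => ?_
  rw [Finset.sum_comm]
  simp only [orth]
  rw [Finset.sum_ite_eq']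
  simp only [mem_filter, mem_univ, true_and, wt_tr]
  split_ifs <;> simp

end Pool.Agent.U180.CG
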